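import Pool.Agent.U181.IP.Nf
import Pool.Agent.Q32.DP.REDD
import Pool.Agent.Q32.DP.PRODL
import Pool.Agent.Q32.DP.PROD2
import Pool.Agent.Q32.DP.SEARCH
import Mathlib.GroupTheory.SpecificGroups.Cyclic
import Mathlib.GroupTheory.FiniteAbelian.Basic

set_option autoImplicit false

/-!
# Finitely presented abelian groups: recursively enumerable, solvable isomorphism problem
-/

namespace Pool.Agent.U181.IP.AbS

open Pool.Agent.Q223.IS Pool.Agent.Q32.DP Pool.Agent.U181.IP Pool.Agent.Helper926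

/-- the cyclic group of order `d` (infinite for `d = 0`) -/
def cyc (d : ℕ) : Pres := (1, [rp d [(0, true)]])

/-- the product of cyclic groups -/
def A (ds : List ℕ) : Pres := ds.foldr (fun d s => PROD2.P2 (cyc d) s) (0, [])

theorem cyc_pr : Primrec cyc := by
  unfold cyc
  refine Primrec.pair (Primrec.const 1) ?_
  exact Primrec.list_cons.comp (rp_pr Primrec.id (Primrec.const _)) (Primrec.const [])

theorem A_pr : Primrec A := by
  unfold A
  refine Primrec.list_foldr (h := fun (_ : List ℕ) (y : ℕ × Pres) => PROD2.P2 (cyc y.1) y.2)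
    Primrec.id (Primrec.const ((0, []) : Pres)) ?_
  exact PROD2.P2_pr.comp (cyc_pr.comp (Primrec.fst.comp Primrec.snd))
    (Primrec.snd.comp Primrec.snd)

theorem A_cons (d : ℕ) (ds : List ℕ) : Nonempty (PG (A (d :: ds)) ≃* PG (cyc d) × PG (A ds)) :=
  PROD2.iso (cyc d) (A ds)

/-! ### The invariant -/

/-- the number of homomorphisms to the cyclic group of order `n` -/
noncomputable def inv (n : ℕ) (G : Type) [Group G] : ℕ := Nat.card (G →* Multiplicative (ZMod n))

theorem inv_iso (n : ℕ) {G H : Type} [Group G] [Group H] (e : G ≃* H) : inv n G = inv n H := by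
  unfold inv
  refine Nat.card_congr ⟨fun f => f.comp e.symm.toMonoidHom, fun f => f.comp e.toMonoidHom, ?_, ?_⟩
  · intro f
    ext x
    simp
  · intro f
    ext x
    simp

theorem inv_prod (n : ℕ) (G H : Type) [Group G] [Group H] : inv n (G × H) = inv n G * inv n H := by
  unfold inv
  rw [← Nat.card_prod]
  refine Nat.card_congr ⟨fun f => (f.comp (MonoidHom.inl G H), f.comp (MonoidHom.inr G H)),
    fun f => f.1.coprod f.2, ?_, ?_⟩
  · intro f
    exact MonoidHom.coprod_unique f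
  · intro f
    exact Prod.ext (MonoidHom.coprod_comp_inl _ _) (MonoidHom.coprod_comp_inr _ _)

theorem inv_triv (n : ℕ) (G : Type) [Group G] (h : ∀ x : G, x = 1) : inv n G = 1 := by
  unfold inv
  rw [Nat.card_eq_one_iff_unique]
  refine ⟨⟨fun f g => MonoidHom.ext fun x => ?_⟩, ⟨1⟩⟩
  rw [h x, map_one, map_one]

theorem inv_cyc (n : ℕ) [NeZero n] (d : ℕ) : inv n (PG (cyc d)) = Nat.gcd n d := by
  have h1 : Nat.card (Multiplicative (ZMod n)) = n := by
    rw [Nat.card_congr Multiplicative.toAdd, Nat.card_zmod]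
  have h2 := IsCyclic.card_powMonoidHom_ker (G := Multiplicative (ZMod n)) d
  rw [h1] at h2
  rw [← h2]
  unfold inv
  refine Nat.card_congr (Equiv.ofBijective (fun f => ⟨f (gen (cyc d) 0), ?_⟩) ⟨?_, ?_⟩)
  · rw [MonoidHom.mem_ker, powMonoidHom_apply, ← map_pow]
    have h3 : ev (gen (cyc d)) (rp d [(0, true)]) = 1 := PG_rel (cyc d) List.mem_cons_self
    rw [ev_rp, ev_true] at h3
    rw [h3, map_one]
  · intro f g h
    have h3 : f (gen (cyc d) 0) = g (gen (cyc d) 0) := congrArg Subtype.val h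
    apply PG_ext
    intro i
    by_cases hi : i = 0
    · rw [hi]
      exact h3
    · rw [gen_big (cyc d) (Nat.one_le_iff_ne_zero.2 hi), map_one, map_one]
  · rintro ⟨x, hx⟩
    rw [MonoidHom.mem_ker, powMonoidHom_apply] at hx
    obtain ⟨F, hF⟩ := PG_lift (cyc d) (M := Multiplicative (ZMod n))
      (fun i => if i = 0 then x else 1) (fun i (hi : 1 ≤ i) => if_neg (by omega)) (by
        intro w hw
        rw [List.mem_singleton.1 hw, ev_rp, ev_true, if_pos rfl]
        exact hx)
    refine ⟨F, Subtype.ext ?_⟩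
    show F (gen (cyc d) 0) = x
    rw [hF, if_pos rfl]

/-- the value of the invariant -/
def S (ds : List ℕ) (n : ℕ) : ℕ := ds.foldr (fun d s => Nat.gcd n d * s) 1

theorem inv_A (n : ℕ) [NeZero n] (ds : List ℕ) : inv n (PG (A ds)) = S ds n := by
  induction ds with
  | nil => exact inv_triv n _ PRODL.triv
  | cons d ds ih =>
    obtain ⟨e⟩ := A_cons d ds
    rw [inv_iso n e, inv_prod, inv_cyc, ih]
    rfl

/-! ### Completeness -/

/-- zero or a nontrivial prime power -/
def Good (d : ℕ) : Prop := d = 0 ∨ ∃ p e : ℕ, p.Prime ∧ d = p ^ (e + 1)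

/-- the number of entries divisible by `m` -/
def dv (ds : List ℕ) (m : ℕ) : ℕ := ds.countP (fun d => m ∣ d)

theorem gcd_succ {p : ℕ} (hp : p.Prime) (k d : ℕ) :
    Nat.gcd (p ^ (k + 1)) d = Nat.gcd (p ^ k) d * (if p ^ (k + 1) ∣ d then p else 1) := by
  by_cases h : p ^ (k + 1) ∣ d
  · rw [if_pos h, Nat.gcd_eq_left h, Nat.gcd_eq_left (dvd_trans (pow_dvd_pow p (Nat.le_succ k)) h),
      pow_succ]
  · rw [if_neg h, mul_one]
    apply Nat.dvd_antisymm
    · obtain ⟨j, hj, hj'⟩ := (Nat.dvd_prime_pow hp).1 (Nat.gcd_dvd_left (p ^ (k + 1)) d)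
      have hjk : j ≤ k := by
        by_contra hc
        have : j = k + 1 := by omega
        rw [this] at hj'
        exact h (hj' ▸ Nat.gcd_dvd_right _ _)
      refine Nat.dvd_gcd ?_ (Nat.gcd_dvd_right _ _)
      rw [hj']
      exact pow_dvd_pow p hjk
    · exact Nat.dvd_gcd (dvd_trans (Nat.gcd_dvd_left _ _) (pow_dvd_pow p (Nat.le_succ k)))
        (Nat.gcd_dvd_right _ _)

theorem S_succ {p : ℕ} (hp : p.Prime) (k : ℕ) (ds : List ℕ) :
    S ds (p ^ (k + 1)) = S ds (p ^ k) * p ^ dv ds (p ^ (k + 1)) := by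
  induction ds with
  | nil => simp [S, dv]
  | cons d ds ih =>
    have e1 : S (d :: ds) (p ^ (k + 1)) = Nat.gcd (p ^ (k + 1)) d * S ds (p ^ (k + 1)) := rfl
    have e2 : S (d :: ds) (p ^ k) = Nat.gcd (p ^ k) d * S ds (p ^ k) := rfl
    have e3 : dv (d :: ds) (p ^ (k + 1)) = dv ds (p ^ (k + 1)) +
        (if p ^ (k + 1) ∣ d then 1 else 0) := by
      unfold dv
      rw [List.countP_cons]
      simp
    rw [e1, e2, e3, ih, gcd_succ hp]
    split_ifs
    · rw [pow_succ]
      ring
    · rw [add_zero]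
      ring

theorem S_pos {n : ℕ} (hn : n ≠ 0) (ds : List ℕ) : S ds n ≠ 0 := by
  induction ds with
  | nil => exact one_ne_zero
  | cons d ds ih =>
    exact mul_ne_zero (Nat.gcd_ne_zero_left hn) ih

theorem dv_eq {ds ds' : List ℕ} (h : ∀ n, n ≠ 0 → S ds n = S ds' n) {p : ℕ} (hp : p.Prime)
    (k : ℕ) : dv ds (p ^ (k + 1)) = dv ds' (p ^ (k + 1)) := by
  have h1 := h (p ^ (k + 1)) (pow_ne_zero _ hp.ne_zero)
  rw [S_succ hp, S_succ hp, h (p ^ k) (pow_ne_zero _ hp.ne_zero)] at h1
  have h2 := Nat.eq_of_mul_eq_mul_left (Nat.pos_of_ne_zero (S_pos (pow_ne_zero _ hp.ne_zero) _)) h1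
  exact Nat.pow_right_injective hp.two_le h2

theorem dv_zero {ds : List ℕ} {m : ℕ} (h : ∀ d ∈ ds, d < m) : dv ds m = ds.count 0 := by
  unfold dv
  rw [List.count]
  refine List.countP_congr ?_
  intro d hd
  have hdm := h d hd
  simp only [decide_eq_true_eq, beq_iff_eq]
  constructor
  · intro h1
    exact Nat.eq_zero_of_dvd_of_lt h1 hdm
  · rintro rfl
    exact dvd_zero _

theorem dv_pow {ds : List ℕ} (hg : ∀ d ∈ ds, Good d) {p : ℕ} (hp : p.Prime) (e : ℕ) :
    dv ds (p ^ (e + 1)) = dv ds (p ^ (e + 2)) + ds.count (p ^ (e + 1)) := by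
  induction ds with
  | nil => rfl
  | cons d ds ih =>
    have ih' := ih (fun d hd => hg d (List.mem_cons_of_mem _ hd))
    have hd := hg d List.mem_cons_self
    unfold dv at ih' ⊢
    rw [List.countP_cons, List.countP_cons, List.count_cons, ih']
    have key : (if (decide (p ^ (e + 1) ∣ d)) = true then 1 else 0) =
        (if (decide (p ^ (e + 2) ∣ d)) = true then 1 else 0) +
          (if (d == p ^ (e + 1)) = true then 1 else 0) := by
      simp only [decide_eq_true_eq, beq_iff_eq]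
      rcases hd with rfl | ⟨q, f, hq, rfl⟩
      · have : ¬ (0 : ℕ) = p ^ (e + 1) := fun h => pow_ne_zero _ hp.ne_zero h.symm
        rw [if_pos (dvd_zero _), if_pos (dvd_zero _), if_neg this]
      · by_cases h1 : p ^ (e + 1) ∣ q ^ (f + 1)
        · have hpq : p = q := by
            have : p ∣ q ^ (f + 1) := dvd_trans (dvd_pow_self p (Nat.succ_ne_zero e)) h1
            exact (Nat.prime_dvd_prime_iff_eq hp hq).1 (hp.dvd_of_dvd_pow this)
          subst hpq
          have h2 : e + 1 ≤ f + 1 := (Nat.pow_dvd_pow_iff_le_right hp.one_lt).1 h1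
          rw [if_pos h1]
          by_cases h3 : e = f
          · subst h3
            rw [if_neg (fun h => absurd ((Nat.pow_dvd_pow_iff_le_right hp.one_lt).1 h) (by omega)),
              if_pos rfl]
          · rw [if_pos (pow_dvd_pow p (by omega)), if_neg (fun h => h3 ?_)]
            have := Nat.pow_right_injective hp.two_le h
            omega
        · rw [if_neg h1, if_neg (fun h => h1 (dvd_trans (pow_dvd_pow p (by omega)) h)),
            if_neg (fun h => h1 ?_)]
          rw [h]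
    omega

theorem bound (ds : List ℕ) : ∃ k, ∀ d ∈ ds, d < 2 ^ (k + 1) := by
  induction ds with
  | nil => exact ⟨0, by simp⟩
  | cons d ds ih =>
    obtain ⟨k, hk⟩ := ih
    refine ⟨k + d, fun x hx => ?_⟩
    rcases List.mem_cons.1 hx with rfl | hx
    · exact lt_of_lt_of_le Nat.lt_two_pow_self (Nat.pow_le_pow_right (by norm_num) (by omega))
    · exact lt_of_lt_of_le (hk x hx) (Nat.pow_le_pow_right (by norm_num) (by omega))

theorem perm_of_S {ds ds' : List ℕ} (hg : ∀ d ∈ ds, Good d) (hg' : ∀ d ∈ ds', Good d)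
    (h : ∀ n, n ≠ 0 → S ds n = S ds' n) : ds.Perm ds' := by
  rw [List.perm_iff_count]
  intro c
  by_cases hc : Good c
  · rcases hc with rfl | ⟨p, e, hp, rfl⟩
    · obtain ⟨k, hk⟩ := bound (ds ++ ds')
      have h1 := dv_eq h Nat.prime_two k
      rw [dv_zero (fun d hd => hk d (List.mem_append_left _ hd)),
        dv_zero (fun d hd => hk d (List.mem_append_right _ hd))] at h1
      exact h1
    · have h1 := dv_pow hg hp e
      have h2 := dv_pow hg' hp e
      have h3 := dv_eq h hp e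
      have h4 := dv_eq h hp (e + 1)
      have h5 : e + 1 + 1 = e + 2 := rfl
      rw [h5] at h4
      omega
  · rw [List.count_eq_zero_of_not_mem (fun hm => hc (hg c hm)),
      List.count_eq_zero_of_not_mem (fun hm => hc (hg' c hm))]

theorem A_perm {ds ds' : List ℕ} (h : ds.Perm ds') : Nonempty (PG (A ds) ≃* PG (A ds')) := by
  induction h with
  | nil => exact ⟨MulEquiv.refl _⟩
  | cons d _ ih =>
    obtain ⟨i⟩ := ih
    obtain ⟨e⟩ := A_cons d _
    obtain ⟨e'⟩ := A_cons d _
    exact ⟨e.trans (((MulEquiv.refl _).prodCongr i).trans e'.symm)⟩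
  | swap x y l =>
    obtain ⟨e⟩ := A_cons y (x :: l)
    obtain ⟨e1⟩ := A_cons x l
    obtain ⟨e'⟩ := A_cons x (y :: l)
    obtain ⟨e1'⟩ := A_cons y l
    exact ⟨e.trans (((MulEquiv.refl _).prodCongr e1).trans
      ((MulEquiv.prodAssoc.symm.trans ((MulEquiv.prodComm.prodCongr (MulEquiv.refl _)).trans
        MulEquiv.prodAssoc)).trans (((MulEquiv.refl _).prodCongr e1'.symm).trans e'.symm)))⟩
  | trans _ _ ih1 ih2 =>
    obtain ⟨i⟩ := ih1
    obtain ⟨j⟩ := ih2
    exact ⟨i.trans j⟩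

/-! ### Existence -/

theorem cyc_gen (d : ℕ) (x : PG (cyc d)) : ∃ n : ℤ, gen (cyc d) 0 ^ n = x := by
  have h1 : (Subgroup.zpowers (gen (cyc d) 0)) = ⊤ := by
    rw [eq_top_iff, ← PresentedGroup.closure_range_of, Subgroup.closure_le]
    rintro _ ⟨i, rfl⟩
    have h2 : i = (0 : Fin 1) := Subsingleton.elim (α := Fin 1) _ _
    rw [h2]
    exact Subgroup.mem_zpowers _
  have h2 : x ∈ (Subgroup.zpowers (gen (cyc d) 0)) := h1 ▸ Subgroup.mem_top x
  exact Subgroup.mem_zpowers_iff.1 h2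

theorem A_good (d : ℕ) (G : Type) [Group G] (hG : IsCyclic G) (hd : Nat.card G = d) :
    Nonempty (G ≃* PG (cyc d)) := by
  obtain ⟨g, hg⟩ := hG
  have hgd : g ^ d = 1 := by
    rw [← hd]
    exact pow_card_eq_one'
  obtain ⟨F, hF⟩ := PG_lift (cyc d) (M := G)
    (fun i => if i = 0 then g else 1) (fun i (hi : 1 ≤ i) => if_neg (by omega)) (by
      intro w hw
      rw [List.mem_singleton.1 hw, ev_rp, ev_true, if_pos rfl]
      exact hgd)
  have hF0 : F (gen (cyc d) 0) = g := by rw [hF, if_pos rfl]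
  have hx := cyc_gen d
  have hgen : gen (cyc d) 0 ^ d = 1 := by
    have h3 : ev (gen (cyc d)) (rp d [(0, true)]) = 1 := PG_rel (cyc d) List.mem_cons_self
    rwa [ev_rp, ev_true] at h3
  refine ⟨(MulEquiv.ofBijective F ⟨?_, ?_⟩).symm⟩
  · rw [injective_iff_map_eq_one]
    intro x hx1
    obtain ⟨n, rfl⟩ := hx x
    rw [map_zpow, hF0] at hx1
    have h4 : (orderOf g : ℤ) ∣ n := orderOf_dvd_iff_zpow_eq_one.2 hx1
    have h5 : orderOf g = d := by
      rw [← hd]
      exact orderOf_eq_card_of_forall_mem_zpowers hg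
    rw [h5] at h4
    obtain ⟨m, rfl⟩ := h4
    rw [zpow_mul, zpow_natCast, hgen, one_zpow]
  · intro x
    obtain ⟨n, hn⟩ := Subgroup.mem_zpowers_iff.1 (hg x)
    exact ⟨gen (cyc d) 0 ^ n, by rw [map_zpow, hF0, hn]⟩

theorem A_pi (n : ℕ) : ∀ (d : Fin n → ℕ) (G : Fin n → Type) [∀ i, Group (G i)],
    (∀ i, IsCyclic (G i)) → (∀ i, Nat.card (G i) = d i) → (∀ i, d i = 1 ∨ Good (d i)) →
    ∃ ds : List ℕ, (∀ d ∈ ds, Good d) ∧ Nonempty ((∀ i, G i) ≃* PG (A ds)) := by
  induction n with
  | zero =>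
    intro d G _ _ _ _
    refine ⟨[], by simp, ⟨⟨⟨fun _ => 1, fun _ => 1, fun x => ?_, fun x => ?_⟩, fun x y => ?_⟩⟩⟩
    · funext i
      exact i.elim0
    · exact (PRODL.triv x).symm
    · exact (one_mul 1).symm
  | succ n ih =>
    intro d G _ h1 h2 h3
    obtain ⟨ds, hds, ⟨e⟩⟩ := ih (fun i => d i.succ) (fun i => G i.succ) (fun i => h1 i.succ)
      (fun i => h2 i.succ) (fun i => h3 i.succ)
    have f : (∀ i, G i) ≃* G 0 × (∀ i : Fin n, G i.succ) :=
      { toFun := fun x => (x 0, fun i => x i.succ)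
        invFun := fun x => Fin.cons (α := G) x.1 x.2
        left_inv := fun x => by
          funext i
          refine Fin.cases ?_ (fun j => ?_) i <;> rfl
        right_inv := fun x => rfl
        map_mul' := fun x y => rfl }
    rcases h3 0 with h4 | h4
    · refine ⟨ds, hds, ⟨f.trans ?_⟩⟩
      have h5 : Nat.card (G 0) = 1 := by rw [h2 0, h4]
      have h6 : ∀ x : G 0, x = 1 := by
        rw [Nat.card_eq_one_iff_unique] at h5
        intro x
        exact h5.1.elim _ _
      exact { toFun := fun x => e x.2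
              invFun := fun y => (1, e.symm y)
              left_inv := fun x => Prod.ext (h6 x.1).symm (e.symm_apply_apply x.2)
              right_inv := fun y => e.apply_symm_apply y
              map_mul' := fun x y => map_mul e x.2 y.2 }
    · refine ⟨d 0 :: ds, ?_, ?_⟩
      · intro x hx
        rcases List.mem_cons.1 hx with rfl | hx
        · exact h4
        · exact hds x hx
      · obtain ⟨g⟩ := A_good (d 0) (G 0) (h1 0) (h2 0)
        obtain ⟨k⟩ := A_cons (d 0) ds
        exact ⟨f.trans ((g.prodCongr e).trans k.symm)⟩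

theorem exists_A (G : Type) [CommGroup G] (hG : Group.FG G) :
    ∃ ds : List ℕ, (∀ d ∈ ds, Good d) ∧ Nonempty (G ≃* PG (A ds)) := by
  classical
  obtain ⟨ι, j, fι, fj, p, hp, e, ⟨f⟩⟩ := CommGroup.equiv_free_prod_prod_multiplicative_zmod G
  let K : j ⊕ ι → Type := fun x => Sum.elim (fun _ => Multiplicative ℤ)
    (fun i => Multiplicative (ZMod (p i ^ e i))) x
  letI : ∀ x, Group (K x) := fun x => by
    rcases x with x | x
    · exact (inferInstance : Group (Multiplicative ℤ))
    · exact (inferInstance : Group (Multiplicative (ZMod (p x ^ e x))))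
  let D : j ⊕ ι → ℕ := Sum.elim (fun _ => 0) (fun i => p i ^ e i)
  let σ : j ⊕ ι ≃ Fin (Fintype.card (j ⊕ ι)) := Fintype.equivFin _
  have hc : ∀ x, IsCyclic (K x) := by
    rintro (x | x)
    · exact (inferInstance : IsCyclic (Multiplicative ℤ))
    · exact (inferInstance : IsCyclic (Multiplicative (ZMod (p x ^ e x))))
  have hd : ∀ x, Nat.card (K x) = D x := by
    rintro (x | x)
    · show Nat.card (Multiplicative ℤ) = 0
      exact Nat.card_eq_zero_of_infinite
    · show Nat.card (Multiplicative (ZMod (p x ^ e x))) = p x ^ e x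
      rw [Nat.card_congr Multiplicative.toAdd, Nat.card_zmod]
  have hg : ∀ x, D x = 1 ∨ Good (D x) := by
    rintro (x | x)
    · exact Or.inr (Or.inl rfl)
    · rcases h : e x with _ | k
      · left
        show p x ^ e x = 1
        rw [h, pow_zero]
      · right
        exact Or.inr ⟨p x, k, hp x, by show p x ^ e x = _; rw [h]⟩
  obtain ⟨ds, hds, ⟨g⟩⟩ := A_pi _ (fun i => D (σ.symm i)) (fun i => K (σ.symm i))
    (fun i => hc _) (fun i => hd _) (fun i => hg _)
  refine ⟨ds, hds, ⟨f.trans (MulEquiv.trans ?_ g)⟩⟩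
  let k1 : ((j → Multiplicative ℤ) × ((i : ι) → Multiplicative (ZMod (p i ^ e i)))) ≃*
      (∀ x, K x) :=
    { toFun := fun y x => Sum.casesOn (motive := K) x y.1 y.2
      invFun := fun y => (fun x => y (Sum.inl x), fun x => y (Sum.inr x))
      left_inv := fun y => rfl
      right_inv := fun y => by
        funext x
        rcases x with x | x <;> rfl
      map_mul' := fun y z => by
        funext x
        rcases x with x | x <;> rfl }
  let k2 : (∀ x, K x) ≃* (∀ i, K (σ.symm i)) :=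
    { Equiv.piCongrLeft' K σ with map_mul' := fun y z => rfl }
  exact k1.trans k2

theorem ab_A (ds : List ℕ) : Ab (A ds) := by
  induction ds with
  | nil => exact fun x y => by rw [PRODL.triv x, PRODL.triv y]
  | cons d ds ih =>
    obtain ⟨e⟩ := A_cons d ds
    have hx := cyc_gen d
    intro x y
    apply e.injective
    rw [map_mul, map_mul]
    refine Prod.ext ?_ (ih _ _)
    obtain ⟨m, hm⟩ := hx (e x).1
    obtain ⟨n, hn⟩ := hx (e y).1
    rw [Prod.fst_mul, Prod.fst_mul, ← hm, ← hn, ← zpow_add, ← zpow_add, add_comm]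

theorem fg (p : Pres) : Group.FG (PG p) := by
  rw [Group.fg_iff]
  exact ⟨Set.range PresentedGroup.of, PresentedGroup.closure_range_of _, Set.finite_range _⟩

theorem ab_iff (p : Pres) : Ab p ↔ ∃ ds : List ℕ, Nonempty (PG p ≃* PG (A ds)) := by
  constructor
  · intro h
    letI : CommGroup (PG p) := { (inferInstance : Group (PG p)) with mul_comm := h }
    obtain ⟨ds, -, e⟩ := exists_A (PG p) (fg p)
    exact ⟨ds, e⟩
  · rintro ⟨ds, ⟨e⟩⟩ x y
    apply e.injective
    rw [map_mul, map_mul, ab_A ds]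

theorem ab_good (p : Pres) (h : Ab p) :
    ∃ ds : List ℕ, (∀ d ∈ ds, Good d) ∧ Nonempty (PG p ≃* PG (A ds)) := by
  letI : CommGroup (PG p) := { (inferInstance : Group (PG p)) with mul_comm := h }
  exact exists_A (PG p) (fg p)

theorem ab_re : REPred Ab := by
  refine REPred.of_eq (RE.ex (p := fun (p : Pres) (ds : List ℕ) =>
    Nonempty (PG p ≃* PG (A ds))) ?_) (fun p => (ab_iff p).symm)
  exact RE.comp iso_re (f := fun x : Pres × List ℕ => (x.1, A x.2))
    (Computable.fst.pair (A_pr.to_comp.comp Computable.snd))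

/-! ### The isomorphism problem -/

/-- greatest common divisor, by bounded search -/
def g (n d : ℕ) : ℕ := Nat.findGreatest (fun c => n % c = 0 ∧ d % c = 0) n

theorem g_eq {n : ℕ} (hn : n ≠ 0) (d : ℕ) : g n d = Nat.gcd n d := by
  unfold g
  rw [Nat.findGreatest_eq_iff]
  refine ⟨Nat.le_of_dvd (Nat.pos_of_ne_zero hn) (Nat.gcd_dvd_left n d), fun _ =>
    ⟨Nat.mod_eq_zero_of_dvd (Nat.gcd_dvd_left n d),
      Nat.mod_eq_zero_of_dvd (Nat.gcd_dvd_right n d)⟩, ?_⟩
  rintro c hc - ⟨h1, h2⟩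
  have := Nat.dvd_gcd (Nat.dvd_of_mod_eq_zero h1) (Nat.dvd_of_mod_eq_zero h2)
  exact absurd (Nat.le_of_dvd (Nat.pos_of_ne_zero (Nat.gcd_ne_zero_left hn)) this) (by omega)

theorem g_pr : Primrec₂ g := by
  unfold g
  refine Primrec.nat_findGreatest (f := fun x : ℕ × ℕ => x.1)
    (p := fun (x : ℕ × ℕ) c => x.1 % c = 0 ∧ x.2 % c = 0) Primrec.fst ?_
  refine PrimrecPred.and ?_ ?_
  · exact Primrec.eq.comp (Primrec.nat_mod.comp (Primrec.fst.comp Primrec.fst) Primrec.snd)
      (Primrec.const 0)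
  · exact Primrec.eq.comp (Primrec.nat_mod.comp (Primrec.snd.comp Primrec.fst) Primrec.snd)
      (Primrec.const 0)

/-- the value of the invariant -/
def S' (x : List ℕ × ℕ) : ℕ := x.1.foldr (fun d s => g (x.2 + 1) d * s) 1

theorem S'_eq (ds : List ℕ) (n : ℕ) : S' (ds, n) = S ds (n + 1) := by
  unfold S' S
  simp only [g_eq (Nat.succ_ne_zero n)]

theorem S'_pr : Primrec S' := by
  unfold S'
  refine Primrec.list_foldr (h := fun (x : List ℕ × ℕ) (y : ℕ × ℕ) => g (x.2 + 1) y.1 * y.2)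
    Primrec.fst (Primrec.const 1) ?_
  refine Primrec.nat_mul.comp (g_pr.comp (Primrec.succ.comp (Primrec.snd.comp Primrec.fst))
    (Primrec.fst.comp Primrec.snd)) (Primrec.snd.comp Primrec.snd)

/-- certificates of non-isomorphism -/
def R (a : Pres × Pres) : Prop :=
  ∃ w : (List ℕ × List ℕ) × ℕ, (Nonempty (PG a.1 ≃* PG (A w.1.1)) ∧
    Nonempty (PG a.2 ≃* PG (A w.1.2))) ∧ S' (w.1.1, w.2) ≠ S' (w.1.2, w.2)

theorem R_re : REPred R := by
  unfold R
  refine RE.ex (p := fun (a : Pres × Pres) (w : (List ℕ × List ℕ) × ℕ) =>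
    (Nonempty (PG a.1 ≃* PG (A w.1.1)) ∧ Nonempty (PG a.2 ≃* PG (A w.1.2))) ∧
      S' (w.1.1, w.2) ≠ S' (w.1.2, w.2)) ?_
  have w1 : Computable fun z : (Pres × Pres) × ((List ℕ × List ℕ) × ℕ) => z.2.1.1 :=
    Computable.fst.comp (Computable.fst.comp Computable.snd)
  have w2 : Computable fun z : (Pres × Pres) × ((List ℕ × List ℕ) × ℕ) => z.2.1.2 :=
    Computable.snd.comp (Computable.fst.comp Computable.snd)
  have w3 : Computable fun z : (Pres × Pres) × ((List ℕ × List ℕ) × ℕ) => z.2.2 :=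
    Computable.snd.comp Computable.snd
  refine RE.and (RE.and ?_ ?_) ?_
  · exact RE.comp iso_re (f := fun z : (Pres × Pres) × ((List ℕ × List ℕ) × ℕ) =>
      (z.1.1, A z.2.1.1)) ((Computable.fst.comp Computable.fst).pair (A_pr.to_comp.comp w1))
  · exact RE.comp iso_re (f := fun z : (Pres × Pres) × ((List ℕ × List ℕ) × ℕ) =>
      (z.1.2, A z.2.1.2)) ((Computable.snd.comp Computable.fst).pair (A_pr.to_comp.comp w2))
  · exact RE.ne (S'_pr.to_comp.comp (w1.pair w3)) (S'_pr.to_comp.comp (w2.pair w3))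

/-- the isomorphism problem is solvable for the finite presentations of abelian groups -/
theorem t : Solvable Ab := by
  refine SEARCH.solvable_of R_re ?_ ?_
  · rintro p q ⟨⟨⟨ds, ds'⟩, n⟩, ⟨⟨e⟩, ⟨e'⟩⟩, h⟩ ⟨i⟩
    apply h
    rw [S'_eq, S'_eq, ← inv_A, ← inv_A]
    exact inv_iso _ ((e.symm.trans i).trans e')
  · intro p q hp hq h
    obtain ⟨ds, hg, ⟨e⟩⟩ := ab_good p hp
    obtain ⟨ds', hg', ⟨e'⟩⟩ := ab_good q hq
    by_contra hc
    apply h
    have h1 : ds.Perm ds' := by
      refine perm_of_S hg hg' (fun n hn => ?_)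
      by_contra h2
      obtain ⟨m, rfl⟩ := Nat.exists_eq_succ_of_ne_zero hn
      exact hc ⟨((ds, ds'), m), ⟨⟨e⟩, ⟨e'⟩⟩, by
        show S' (ds, m) ≠ S' (ds', m)
        rw [S'_eq, S'_eq]; exact h2⟩
    obtain ⟨i⟩ := A_perm h1
    exact ⟨e.trans (i.trans e'.symm)⟩

end Pool.Agent.U181.IP.AbS
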