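import Pool.Agent.U181.IP.FinC

set_option autoImplicit false

/-!
# Finite groups as building blocks
-/

namespace Pool.Agent.U181.IP

open Pool.Agent.Q223.IS Pool.Agent.Q32.DP Pool.Agent.Helper926

/-- The presentations of the groups which are built from the groups in `C`, finite groups and finitely
presented abelian groups by finitely many direct products and free products of two groups. -/
inductive BuiltF (C : Pres → Prop) : Pres → Prop
  | base {p : Pres} : C p → BuiltF C p
  | finite {p : Pres} : Finite (PG p) → BuiltF C p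
  | abelian {p : Pres} : (∀ x y : PG p, x * y = y * x) → BuiltF C p
  | direct {a b p : Pres} : BuiltF C a → BuiltF C b → Nonempty (PG p ≃* PG a × PG b) → BuiltF C p
  | free {a b p : Pres} : BuiltF C a → BuiltF C b →
      Nonempty (PG p ≃* Monoid.Coprod (PG a) (PG b)) → BuiltF C p

theorem builtF_to (C : Pres → Prop) {p : Pres} (h : BuiltF C p) :
    Built (fun q => C q ∨ FinC.CF q) p := by
  induction h with
  | base h => exact Built.base (Or.inl h)
  | finite h => exact FinC.fin_built _ (fun _ hq => Or.inr hq) _ _ h le_rfl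
  | abelian h => exact Built.abel h
  | direct _ _ h iha ihb => exact Built.direct iha ihb h
  | free _ _ h iha ihb => exact Built.free iha ihb h

theorem nonAb_of_infinite {G : Type} [Group G] (hi : Infinite G) (hf : FinCen G) : NonAb G := by
  by_contra hc
  unfold NonAb at hc
  push Not at hc
  have h1 : (Set.univ : Set G).Finite := hf.subset (fun z _ g => hc z g)
  exact Set.infinite_univ h1

/-- the isomorphism problem for the union -/
theorem solv_union (C : Pres → Prop) (hC : REPred C) (hB : ∀ k, C k → Infinite (PG k))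
    (hS : Solvable C) : Solvable (fun q => C q ∨ FinC.CF q) := by
  obtain ⟨f, hf, hf'⟩ := hS
  let N : Pres × Pres → Prop := fun z => (C z.1 ∧ C z.2 ∧ false ∈ f (z.1, z.2)) ∨
    (FinC.CF z.1 ∧ FinC.CF z.2 ∧ FinC.R z) ∨ (C z.1 ∧ FinC.CF z.2) ∨ (FinC.CF z.1 ∧ C z.2)
  have hN : REPred N := by
    have h1 : REPred fun z : Pres × Pres => C z.1 := RE.comp hC Computable.fst
    have h2 : REPred fun z : Pres × Pres => C z.2 := RE.comp hC Computable.snd
    have h3 : REPred fun z : Pres × Pres => FinC.CF z.1 := RE.comp FinC.cf_re Computable.fst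
    have h4 : REPred fun z : Pres × Pres => FinC.CF z.2 := RE.comp FinC.cf_re Computable.snd
    exact RE.or (RE.and h1 (RE.and h2 (NONMATCH.re_mem hf false
      (Computable.fst.pair Computable.snd)))) (RE.or (RE.and h3 (RE.and h4 FinC.R_re))
        (RE.or (RE.and h1 h4) (RE.and h3 h2)))
  refine SEARCH.solvable_of hN ?_ ?_
  · rintro p q (⟨hp, hq, h⟩ | ⟨-, -, h⟩ | ⟨hp, hq⟩ | ⟨hp, hq⟩) ⟨e⟩
    · exact absurd (Part.mem_unique ((hf' p q hp hq).1 ⟨e⟩) h) (by decide)
    · exact FinC.R_sound h ⟨e⟩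
    · have h1 : Infinite (PG p) := hB p hp
      have h2 : Finite (PG q) := hq.1
      exact not_finite_iff_infinite.2 h1 (Finite.of_equiv _ e.symm.toEquiv)
    · have h1 : Infinite (PG q) := hB q hq
      have h2 : Finite (PG p) := hp.1
      exact not_finite_iff_infinite.2 h1 (Finite.of_equiv _ e.toEquiv)
  · rintro p q (hp | hp) (hq | hq) h
    · exact Or.inl ⟨hp, hq, (hf' p q hp hq).2 h⟩
    · exact Or.inr (Or.inr (Or.inl ⟨hp, hq⟩))
    · exact Or.inr (Or.inr (Or.inr ⟨hp, hq⟩))
    · exact Or.inr (Or.inl ⟨hp, hq, FinC.R_compl hp.1 hq.1 h⟩)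

theorem main (C : Pres → Prop) (hC : REPred C)
    (hB : ∀ k, C k → Infinite (PG k) ∧ FinCen (PG k) ∧ Indecomposable (PG k) ∧
      FreelyIndec (PG k)) (hS : Solvable C) : Solvable (BuiltF C) := by
  obtain ⟨f, hf, hf'⟩ := Cpl.built (fun q => C q ∨ FinC.CF q) (RE.or hC FinC.cf_re) (by
    rintro k (hk | hk)
    · obtain ⟨h1, h2, h3, h4⟩ := hB k hk
      exact ⟨⟨h2, nonAb_of_infinite h1 h2, h3⟩, h4⟩
    · exact ⟨⟨FinC.finCen_fin hk.1, hk.2.1, hk.2.2⟩, FinC.findec_fin hk.1 (nonAb_ne hk.2.1)⟩)
    (solv_union C hC (fun k hk => (hB k hk).1) hS)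
  exact ⟨f, hf, fun a b ha hb => hf' a b (builtF_to C ha) (builtF_to C hb)⟩

end Pool.Agent.U181.IP
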