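import Pool.Agent.H599R3.RH.Bs

/-!
# Groups acting on trees: free splittings, torsion allowed

The results of `Pool.Agent.H599R3.RH.Bs` without the assumption that the group is torsion-free. The
ping-pong lemma is used in a form which does not need a factor with three elements.
-/

set_option autoImplicit false

namespace Pool.Agent.U181.IP

open Pool.Agent.H599R3.RH Monoid
open scoped Function Pointwise

section pp

variable {ι : Type} {G : Type} [Group G] {H : ι → Type} [∀ i, Group (H i)]
  (f : ∀ i, H i →* G) {α : Type} [MulAction G α] (X : ι → Set α)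
  (hpp : Pairwise fun i j => ∀ h : H i, h ≠ 1 → f i h • X j ⊆ X i)

include hpp in
theorem not_mem_word {i j k : ι} (w : CoprodI.NeWord H i j) (hk : j ≠ k) (x0 : α)
    (hx0 : ∀ (k : ι), k ≠ i → ∀ h : H i, h ≠ 1 → x0 ∉ f i h • X k) :
    x0 ∉ CoprodI.lift f w.prod • X k := by
  induction w generalizing k with
  | singleton x hne_one =>
    have := hx0 k hk.symm x hne_one
    simpa using this
  | @append i j k' l w₁ hne w₂ hIw₁ hIw₂ =>
    intro hx
    apply hIw₁ hne hx0
    have h1 : CoprodI.lift f (CoprodI.NeWord.append w₁ hne w₂).prod • X k =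
        CoprodI.lift f w₁.prod • CoprodI.lift f w₂.prod • X k := by
      simp [mul_smul]
    rw [h1] at hx
    exact Set.smul_set_subset_smul_set_iff.mpr (CoprodI.lift_word_ping_pong f X hpp w₂ hk) hx

end pp

/-- the ping-pong lemma for two subgroups, with a point which is not in the image -/
theorem fp_of_pingpong {G : Type} [Group G] {α : Type} [MulAction G α] (A B : Subgroup G)
    (hA : ∃ a ∈ A, a ≠ 1) (hB : ∃ b ∈ B, b ≠ 1) (hgen : A ⊔ B = ⊤) (X Y : α → Prop)
    (x0 : α) (hX : X x0) (hY : ∃ y, Y y) (hd : ∀ x, X x → ¬ Y x)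
    (h1 : ∀ a ∈ A, a ≠ 1 → ∀ y, Y y → X (a • y))
    (h2 : ∀ b ∈ B, b ≠ 1 → ∀ x, X x → Y (b • x))
    (h3 : ∀ a ∈ A, ¬ Y (a⁻¹ • x0)) : Splits G := by
  let K : Bool → Subgroup G := fun b => if b then A else B
  let f : ∀ b, K b →* G := fun b => (K b).subtype
  let S : Bool → Set α := fun b => {x | if b then X x else Y x}
  have hne : ∀ i, (S i).Nonempty := by
    intro b
    cases b
    · exact hY
    · exact ⟨x0, hX⟩
  have hdis : Pairwise (Disjoint on S) := by
    intro b b' hbb
    cases b <;> cases b'
    · exact absurd rfl hbb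
    · rw [Function.onFun, Set.disjoint_left]
      intro x hx hx'
      exact hd x hx' hx
    · rw [Function.onFun, Set.disjoint_left]
      intro x hx hx'
      exact hd x hx hx'
    · exact absurd rfl hbb
  have hpp : Pairwise fun i j => ∀ h : K i, h ≠ 1 → f i h • S j ⊆ S i := by
    intro b b' hbb h hh
    cases b <;> cases b'
    · exact absurd rfl hbb
    · rintro _ ⟨x, hx, rfl⟩
      exact h2 h.1 h.2 (fun h0 => hh (Subtype.ext h0)) x hx
    · rintro _ ⟨x, hx, rfl⟩
      exact h1 h.1 h.2 (fun h0 => hh (Subtype.ext h0)) x hx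
    · exact absurd rfl hbb
  have hstr : ∀ (w : CoprodI.NeWord (fun b => K b) true false),
      CoprodI.lift f w.prod ≠ 1 := by
    intro w h
    have h5 : x0 ∉ CoprodI.lift f w.prod • S true := by
      refine not_mem_word f S hpp w (by decide) x0 ?_
      intro k hk h hh hx
      cases k
      · obtain ⟨y, hy, hyx⟩ := hx
        apply h3 h.1 h.2
        have : (h.1)⁻¹ • x0 = y := by
          rw [← hyx]
          exact inv_smul_smul h.1 y
        rw [this]
        exact hy
      · exact hk rfl
    rw [h, one_smul] at h5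
    exact h5 hX
  have hinj : Function.Injective (CoprodI.lift f) := by
    classical
    apply (injective_iff_map_eq_one (CoprodI.lift f)).mpr
    rw [(CoprodI.Word.equiv).forall_congr_left]
    intro w Heq
    dsimp [CoprodI.Word.equiv] at *
    have hw : w = CoprodI.Word.empty := by
      by_contra hnotempty
      obtain ⟨i, j, w, rfl⟩ := CoprodI.NeWord.of_word w hnotempty
      have Heq' : CoprodI.lift f w.prod = 1 := Heq
      cases i <;> cases j
      · exact CoprodI.lift_word_prod_nontrivial_of_head_eq_last f S hne hdis hpp w Heq'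
      · apply hstr w.inv
        rw [CoprodI.NeWord.inv_prod, map_inv, Heq', inv_one]
      · exact hstr w Heq'
      · exact CoprodI.lift_word_prod_nontrivial_of_head_eq_last f S hne hdis hpp w Heq'
    rw [hw, CoprodI.Word.prod_empty]
  let F : Monoid.Coprod A B →* G := Monoid.Coprod.lift A.subtype B.subtype
  let j : Monoid.Coprod A B →* Monoid.CoprodI (fun b => K b) :=
    Monoid.Coprod.lift (Monoid.CoprodI.of (M := fun b => K b) (i := true))
      (Monoid.CoprodI.of (M := fun b => K b) (i := false))
  let k : Monoid.CoprodI (fun b => K b) →* Monoid.Coprod A B :=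
    Monoid.CoprodI.lift (fun b => match b with
      | true => Monoid.Coprod.inl
      | false => Monoid.Coprod.inr)
  have hkj : k.comp j = MonoidHom.id _ := by
    apply Monoid.Coprod.hom_ext
    · ext x; simp [k, j]
    · ext x; simp [k, j]
  have hF : F = (Monoid.CoprodI.lift f).comp j := by
    apply Monoid.Coprod.hom_ext
    · ext x; simp [F, j, f]
    · ext x; simp [F, j, f]
  have hFi : Function.Injective F := by
    intro x y hxy
    rw [hF] at hxy
    have h3 : j x = j y := hinj hxy
    have h4 := congrArg k h3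
    have h5 : ∀ z, k (j z) = z := fun z => DFunLike.congr_fun hkj z
    rwa [h5, h5] at h4
  have hFs : Function.Surjective F := by
    rw [← MonoidHom.range_eq_top, eq_top_iff, ← hgen]
    apply sup_le
    · intro a ha
      exact ⟨Monoid.Coprod.inl ⟨a, ha⟩, by simp [F]⟩
    · intro b hb
      exact ⟨Monoid.Coprod.inr ⟨b, hb⟩, by simp [F]⟩
  refine ⟨A, B, inferInstance, inferInstance, ?_, ?_,
    ⟨(MulEquiv.ofBijective F ⟨hFi, hFs⟩).symm⟩⟩
  · obtain ⟨a, ha, ha1⟩ := hA
    exact ⟨⟨a, ha⟩, 1, fun h => ha1 (congrArg Subtype.val h)⟩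
  · obtain ⟨a, ha, ha1⟩ := hB
    exact ⟨⟨a, ha⟩, 1, fun h => ha1 (congrArg Subtype.val h)⟩

/-- infinite cyclic -/
def ICyc (G : Type) [Group G] : Prop :=
  ∃ t : G, (∀ g, ∃ n : ℤ, t ^ n = g) ∧ ∀ n : ℕ, n ≠ 0 → t ^ n ≠ 1

variable {G V E : Type} [Group G] [MulAction G V] [MulAction G E] {T : Tree G V E}

theorem bs_amalgam (e : E)
    (he : ∀ g : G, g • e = e → g = 1) (hc : ∀ t : G, ¬ Sim T e (t • T.d0 e) (T.d1 e)) :
    Splits G ∨ ∃ u, ∀ g : G, Sim T e (g • u) u := by
  have hgen : fixCl T e (T.d0 e) ⊔ fixCl T e (T.d1 e) = ⊤ := by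
    set Γ := fixCl T e (T.d0 e) ⊔ fixCl T e (T.d1 e) with hΓ
    have hA : fixCl T e (T.d0 e) ≤ Γ := le_sup_left
    have hB : fixCl T e (T.d1 e) ≤ Γ := le_sup_right
    have key0 : ∀ k : G, (∃ γ ∈ Γ, Sim T e (k • T.d0 e) (γ • T.d0 e) ∨
        Sim T e (k • T.d0 e) (γ • T.d1 e)) → k ∈ Γ := by
      rintro k ⟨γ, hγ, h | h⟩
      · have h2 := h.smul γ⁻¹
        rw [inv_smul_smul, smul_smul] at h2
        have := Γ.mul_mem hγ (hA h2)
        rwa [mul_inv_cancel_left] at this
      · have h2 := h.smul γ⁻¹
        rw [inv_smul_smul, smul_smul] at h2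
        exact absurd h2 (hc _)
    have key1 : ∀ k : G, (∃ γ ∈ Γ, Sim T e (k • T.d1 e) (γ • T.d0 e) ∨
        Sim T e (k • T.d1 e) (γ • T.d1 e)) → k ∈ Γ := by
      rintro k ⟨γ, hγ, h | h⟩
      · have h2 := (h.smul k⁻¹).symm
        rw [inv_smul_smul, smul_smul] at h2
        exact absurd h2 (hc _)
      · have h2 := h.smul γ⁻¹
        rw [inv_smul_smul, smul_smul] at h2
        have := Γ.mul_mem hγ (hB h2)
        rwa [mul_inv_cancel_left] at this
    have hall : ∀ v, ∃ γ ∈ Γ, Sim T e v (γ • T.d0 e) ∨ Sim T e v (γ • T.d1 e) := by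
      intro v
      apply T.all (Q := fun v => ∃ γ ∈ Γ, Sim T e v (γ • T.d0 e) ∨ Sim T e v (γ • T.d1 e))
        (u := T.d0 e)
      · intro e0
        by_cases h0 : ∃ k : G, k • e = e0
        · obtain ⟨k, rfl⟩ := h0
          rw [T.s0, T.s1]
          constructor
          · intro h
            exact ⟨k, key1 k h, Or.inl (Sim.refl _ _)⟩
          · intro h
            exact ⟨k, key0 k h, Or.inr (Sim.refl _ _)⟩
        · push Not at h0
          have h1 := sim_of_not (T := T) h0
          constructor
          · rintro ⟨γ, hγ, h⟩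
            exact ⟨γ, hγ, h.imp (fun h => h1.symm.trans h) (fun h => h1.symm.trans h)⟩
          · rintro ⟨γ, hγ, h⟩
            exact ⟨γ, hγ, h.imp (fun h => h1.trans h) (fun h => h1.trans h)⟩
      · exact ⟨1, Γ.one_mem, Or.inl (by rw [one_smul]; exact Sim.refl _ _)⟩
    rw [eq_top_iff]
    intro g _
    exact key0 g (hall _)
  by_cases hA : ∃ a ∈ fixCl T e (T.d0 e), a ≠ 1
  · by_cases hB : ∃ a ∈ fixCl T e (T.d1 e), a ≠ 1
    · left
      refine fp_of_pingpong _ _ hA hB hgen (fun v => ¬ side T e v) (fun v => side T e v)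
        (T.d0 e) (side0 T e) ⟨_, side1 T e⟩ (fun x h => h) ?_ ?_ (fun a ha => ?_)
      · intro a ha ha1 y hy
        have hne : a • e ≠ e := fun h => ha1 (he a h)
        have h1 := quad T hne (a • y)
        rw [side_smul] at h1
        have h2 : ¬ side T (a • e) (T.d0 e) := by
          rw [← ha a, side_smul]
          exact side0 T e
        have h3 : ¬ side T e (T.d0 (a • e)) := by
          rw [T.s0]
          have := ha 1
          rw [one_smul] at this
          rw [this]
          exact side0 T e
        tauto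
      · intro a ha ha1 y hy
        have hne : a • e ≠ e := fun h => ha1 (he a h)
        have h1 := quad T hne (a • y)
        rw [side_smul] at h1
        have h2 : side T (a • e) (T.d0 e) := by
          rw [← side_ne T hne.symm, ← ha a, side_smul]
          exact side1 T e
        have h3 : side T e (T.d0 (a • e)) := by
          rw [← side_ne T hne, T.s1]
          have := ha 1
          rw [one_smul] at this
          rw [this]
          exact side1 T e
        tauto
      · have h1 := (inv_mem ha : a⁻¹ ∈ fixCl T e (T.d0 e)) 1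
        rw [one_smul] at h1
        rw [h1]
        exact side0 T e
    · right
      push Not at hB
      refine ⟨T.d0 e, ?_⟩
      have : fixCl T e (T.d1 e) = ⊥ := by
        rw [eq_bot_iff]
        intro a ha
        exact hB a ha
      rw [this, sup_bot_eq] at hgen
      intro g
      rw [← mem_fixCl, hgen]
      trivial
  · right
    push Not at hA
    refine ⟨T.d1 e, ?_⟩
    have : fixCl T e (T.d0 e) = ⊥ := by
      rw [eq_bot_iff]
      intro a ha
      exact hA a ha
    rw [this, bot_sup_eq] at hgen
    intro g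
    rw [← mem_fixCl, hgen]
    trivial

theorem bs_hnn (e : E)
    (he : ∀ g : G, g • e = e → g = 1) (t : G) (ht : Sim T e (t • T.d0 e) (T.d1 e)) :
    Splits G ∨ ICyc G := by
  have hd01 : ¬ Sim T e (T.d0 e) (T.d1 e) := by
    have := not_sim (T := T) e 1
    simpa using this
  have ht' : Sim T e (t⁻¹ • T.d1 e) (T.d0 e) := by
    have := (ht.smul t⁻¹).symm
    rwa [inv_smul_smul] at this
  have htA : t ∉ fixCl T e (T.d0 e) := by
    intro h
    exact hd01 ((mem_fixCl.1 h).symm.trans ht)
  have ht1 : t ≠ 1 := by
    intro h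
    rw [h, one_smul] at ht
    exact hd01 ht
  have hgen : fixCl T e (T.d0 e) ⊔ Subgroup.zpowers t = ⊤ := by
    set Γ := fixCl T e (T.d0 e) ⊔ Subgroup.zpowers t with hΓ
    have hA : fixCl T e (T.d0 e) ≤ Γ := le_sup_left
    have hB : t ∈ Γ := (le_sup_right : Subgroup.zpowers t ≤ Γ) (Subgroup.mem_zpowers t)
    have key0 : ∀ k : G, (∃ γ ∈ Γ, Sim T e (k • T.d0 e) (γ • T.d0 e)) → k ∈ Γ := by
      rintro k ⟨γ, hγ, h⟩
      have h2 := h.smul γ⁻¹
      rw [inv_smul_smul, smul_smul] at h2
      have := Γ.mul_mem hγ (hA h2)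
      rwa [mul_inv_cancel_left] at this
    have key1 : ∀ k : G, (∃ γ ∈ Γ, Sim T e (k • T.d1 e) (γ • T.d0 e)) → k ∈ Γ := by
      rintro k ⟨γ, hγ, h⟩
      have h2 : Sim T e ((k * t) • T.d0 e) (γ • T.d0 e) := by
        rw [mul_smul]
        exact (ht.smul k).trans h
      have := Γ.mul_mem (key0 _ ⟨γ, hγ, h2⟩) (Γ.inv_mem hB)
      rwa [mul_inv_cancel_right] at this
    have hall : ∀ v, ∃ γ ∈ Γ, Sim T e v (γ • T.d0 e) := by
      intro v
      apply T.all (Q := fun v => ∃ γ ∈ Γ, Sim T e v (γ • T.d0 e)) (u := T.d0 e)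
      · intro e0
        by_cases h0 : ∃ k : G, k • e = e0
        · obtain ⟨k, rfl⟩ := h0
          rw [T.s0, T.s1]
          constructor
          · intro h
            exact ⟨k, key1 k h, Sim.refl _ _⟩
          · intro h
            refine ⟨k * t, Γ.mul_mem (key0 k h) hB, ?_⟩
            rw [mul_smul]
            exact (ht.smul k).symm
        · push Not at h0
          have h1 := sim_of_not (T := T) h0
          constructor
          · rintro ⟨γ, hγ, h⟩
            exact ⟨γ, hγ, h1.symm.trans h⟩
          · rintro ⟨γ, hγ, h⟩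
            exact ⟨γ, hγ, h1.trans h⟩
      · exact ⟨1, Γ.one_mem, by rw [one_smul]; exact Sim.refl _ _⟩
    rw [eq_top_iff]
    intro g _
    exact key0 g (hall _)
  have hne : t • e ≠ e := fun h => ht1 (he t h)
  have nest : ∀ v, side T (t • e) v → side T e v := by
    intro v hv
    have h1 := quad T hne v
    have h2 : ¬ side T (t • e) (T.d0 e) := by
      rw [← side_ne T hne.symm, ← ht t, side_smul]
      exact side0 T e
    have h3 : side T e (T.d0 (t • e)) := by
      rw [T.s0]
      have := ht 1
      rw [one_smul] at this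
      rw [this]
      exact side1 T e
    tauto
  have nest' : ∀ v, side T e v → side T (t⁻¹ • e) v := by
    intro v hv
    rw [← side_smul']
    apply nest
    rw [side_smul]
    exact hv
  by_cases hA : ∃ a ∈ fixCl T e (T.d0 e), a ≠ 1
  · left
    have s0t' : side T (t⁻¹ • e) (T.d0 e) := by
      rw [← ht' t⁻¹, side_smul]
      exact side1 T e
    refine fp_of_pingpong _ _ hA ⟨t, Subgroup.mem_zpowers t, ht1⟩ hgen
      (fun v => ¬ side T e v ∧ side T (t⁻¹ • e) v) (fun v => side T e v ∨ ¬ side T (t⁻¹ • e) v)
      (T.d0 e) ⟨side0 T e, s0t'⟩ ⟨T.d1 e, Or.inl (side1 T e)⟩ (by intro x h; tauto) ?_ ?_ ?_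
    · intro a ha ha1 y hy
      have hi : ∀ b : G, b ∈ fixCl T e (T.d0 e) → b ≠ t ∧ b * t ≠ 1 := by
        intro b hb
        refine ⟨fun h => htA (h ▸ hb), fun h => htA ?_⟩
        rw [← eq_inv_iff_mul_eq_one] at h
        rw [h] at hb
        have := inv_mem hb
        rwa [inv_inv] at this
      -- values at `d0 e`
      have v1 : ∀ k b : G, b ∈ fixCl T e (T.d0 e) →
          (side T (k • e) (b • T.d0 e) ↔ side T (k • e) (T.d0 e)) := fun k b hb => hb k
      have s00 : ¬ side T e (T.d0 e) := side0 T e
      have s0t : side T (t⁻¹ • e) (T.d0 e) := by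
        rw [← ht' t⁻¹, side_smul]
        exact side1 T e
      have sa0 : ¬ side T (a • e) (T.d0 e) := by
        rw [← ha a, side_smul]; exact side0 T e
      have sat : side T ((a * t⁻¹) • e) (T.d0 e) := by
        rw [← ha (a * t⁻¹), mul_smul, side_smul]
        exact s0t
      -- distinctness
      have n1 : a • e ≠ e := fun h => ha1 (he a h)
      have n2 : a • e ≠ t⁻¹ • e := by
        intro h
        have h2 : (t * a) • e = e := by rw [mul_smul, h, smul_inv_smul]
        have h3 := he _ h2
        have h4 : a * t = 1 := by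
          rw [mul_eq_one_iff_eq_inv] at h3
          rw [h3]; simp
        exact (hi a ha).2 h4
      have n3 : (a * t⁻¹) • e ≠ e := by
        intro h
        have h3 := he _ h
        rw [mul_inv_eq_one] at h3
        exact (hi a ha).1 h3
      have n4 : (a * t⁻¹) • e ≠ t⁻¹ • e := by
        intro h
        have h2 : (t * (a * t⁻¹)) • e = e := by rw [mul_smul, h, smul_inv_smul]
        have h3 := he _ h2
        apply ha1
        have : a = t⁻¹ * (t * (a * t⁻¹)) * t := by group
        rw [this, h3]; group
      -- `d0` of the edges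
      have c1 : ∀ k : G, side T (k • e) (T.d0 (a • e)) ↔ side T (k • e) (T.d0 e) := by
        intro k; rw [T.s0]; exact ha k
      have c2 : ∀ k : G, k • e ≠ t⁻¹ • e →
          (side T (k • e) (T.d0 (t⁻¹ • e)) ↔ side T (k • e) (T.d0 e)) := by
        intro k hk
        rw [← side_ne T hk.symm, T.s1]
        exact ht' k
      have c3 : ∀ k : G, k • e ≠ (a * t⁻¹) • e →
          (side T (k • e) (T.d0 ((a * t⁻¹) • e)) ↔ side T (k • e) (T.d0 e)) := by
        intro k hk
        rw [← side_ne T hk.symm, T.s1, mul_smul]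
        exact ((ht'.smul a).trans ha) k
      have c1' := c1 1
      have c1t := c1 t⁻¹
      have c2a := c2 a n2
      have c2t := c2 (a * t⁻¹) n4
      have c31 := c3 1 (by rw [one_smul]; exact n3.symm)
      have c3t := c3 t⁻¹ n4.symm
      rw [one_smul] at c1' c31
      have q1 := (quad T n1 (a • y)).imp (fun h hp => sa0 (h.1 hp))
        (fun h hp => s00 (c1'.1 (h.1 hp)))
      have q2 := (quad T n2 (a • y)).imp (fun h hp => sa0 (c2a.1 (h.1 hp)))
        (fun h => h.2 (c1t.2 s0t))
      have q3 := (quad T n3 (a • y)).imp (fun h => h.2 sat)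
        (fun h hp => s00 (c31.1 (h.1 hp)))
      have q4 := (quad T n4 (a • y)).imp (fun h => h.2 (c2t.2 sat))
        (fun h => h.2 (c3t.2 s0t))
      clear c2t c31 c3t c1' c1t c2a c1 c2 c3 n1 n2 n3 n4 sat sa0 s0t s00 v1 hi nest nest'
      have e1 : side T (a • e) (a • y) ↔ side T e y := side_smul T a e y
      have e2 : side T ((a * t⁻¹) • e) (a • y) ↔ side T (t⁻¹ • e) y := by
        rw [mul_smul]; exact side_smul T a _ y
      rcases hy with hy | hy
      · rw [← e1] at hy
        exact ⟨fun h => q1.elim (fun h' => h' hy) (fun h' => h' h),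
          q2.elim (fun h' => absurd hy h') id⟩
      · rw [← e2] at hy
        exact ⟨fun h => q3.elim hy (fun h' => h' h), q4.elim (fun h' => absurd h' hy) id⟩
    · rintro b ⟨n, rfl⟩ hb1 x ⟨hx1, hx2⟩
      beta_reduce at hb1 ⊢
      rcases n with n | n
      · -- nonnegative
        rw [Int.ofNat_eq_natCast, zpow_natCast] at hb1 ⊢
        obtain ⟨m, rfl⟩ : ∃ m, n = m + 1 := by
          cases n with
          | zero => exact absurd (pow_zero t) hb1
          | succ m => exact ⟨m, rfl⟩
        left
        clear hb1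
        induction m with
        | zero =>
          rw [zero_add, pow_one, side_smul']
          exact hx2
        | succ m ih =>
          rw [pow_succ', mul_smul, side_smul']
          exact nest' _ ih
      · right
        rw [zpow_negSucc, ← inv_pow]
        clear hb1
        induction n with
        | zero =>
          rw [zero_add, pow_one, side_smul]
          exact hx1
        | succ m ih =>
          rw [pow_succ', mul_smul, side_smul]
          exact fun h => ih (nest' _ h)
    · intro a ha
      have h1 := (inv_mem ha : a⁻¹ ∈ fixCl T e (T.d0 e)) 1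
      have h2 := (inv_mem ha : a⁻¹ ∈ fixCl T e (T.d0 e)) t⁻¹
      rw [one_smul] at h1
      rw [h1, h2]
      rintro (h | h)
      · exact side0 T e h
      · exact h s0t'
  · right
    push Not at hA
    have : fixCl T e (T.d0 e) = ⊥ := by
      rw [eq_bot_iff]
      intro a ha
      exact hA a ha
    rw [this, bot_sup_eq] at hgen
    refine ⟨t, fun g => ?_, ?_⟩
    · have h : g ∈ Subgroup.zpowers t := by rw [hgen]; trivial
      exact h
    · have hz : ¬ side T (t • e) (T.d1 e) := by
        have h1 := ht t
        rw [side_smul] at h1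
        rw [← h1]
        exact side0 T e
      have hz2 : ∀ n : ℕ, ¬ side T (t ^ (n + 1) • e) (T.d1 e) := by
        intro n
        have key : ∀ n : ℕ, ∀ v, side T (t ^ (n + 1) • e) v → side T (t • e) v := by
          intro n
          induction n with
          | zero => intro v hv; rwa [zero_add, pow_one] at hv
          | succ n ih =>
            intro v hv
            have h2 : side T (t ^ (n + 1) • e) (t⁻¹ • v) := by
              rw [side_smul', inv_inv, smul_smul, ← pow_succ']
              exact hv
            have h3 := nest _ (ih _ h2)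
            rwa [side_smul', inv_inv] at h3
        exact fun h => hz (key n _ h)
      intro n hn h
      obtain ⟨m, rfl⟩ := Nat.exists_eq_succ_of_ne_zero hn
      apply hz2 m
      rw [Nat.succ_eq_add_one] at h
      rw [h, one_smul]
      exact side1 T e


/-- **Bass-Serre theory** for an edge with trivial stabilizer. -/
theorem bs (e : E) (he : ∀ g : G, g • e = e → g = 1) :
    Splits G ∨ ICyc G ∨ ∃ u, ∀ g : G, Sim T e (g • u) u := by
  by_cases hc : ∃ t : G, Sim T e (t • T.d0 e) (T.d1 e)
  · obtain ⟨t, ht⟩ := hc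
    rcases bs_hnn e he t ht with h | h
    · exact Or.inl h
    · exact Or.inr (Or.inl h)
  · push Not at hc
    rcases bs_amalgam e he hc with h | h
    · exact Or.inl h
    · exact Or.inr (Or.inr h)

end Pool.Agent.U181.IP
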