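import Pool.Agent.U181.IP.Snd
import Pool.Agent.Q32.DP.COMPL
import Pool.Agent.Q32.DP.GEN

set_option autoImplicit false

/-!
# Completeness of the rules
-/

namespace Pool.Agent.U181.IP.Cpl

open Pool.Agent.Q223.IS Pool.Agent.Q32.DP Pool.Agent.U181.IP

section

variable (C : Pres → Prop) (f fA : Pres × Pres →. Bool) (Der : Fact → Prop)

/-- direct forms -/
theorem dstep (hA : Sol Ab fA)
    (hD : ∀ l e, (∀ x ∈ l, Der x) → StepR C f fA (l, e) → Der e) (n : ℕ)
    (h1 : ∀ p, FF C n p → Der (1, p, p))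
    (h2 : ∀ p q, FF C n p → FF C n q → ¬ Nonempty (PG p ≃* PG q) → Der (2, p, q)) :
    ∀ p q, DForm C n p → DForm C n q → ¬ Nonempty (PG p ≃* PG q) → Der (2, p, q) := by
  rintro p q ⟨a, L, hL, ha, ⟨e⟩⟩ ⟨a', L', hL', ha', ⟨e'⟩⟩ hne
  by_cases hm : Nonempty (PG a ≃* PG a')
  · obtain ⟨i⟩ := hm
    have hno : ¬ ∃ σ : Fin L.length ≃ Fin L'.length,
        ∀ i, Nonempty (PG (L.get i) ≃* PG (L'.get (σ i))) := by
      rintro ⟨σ, hσ⟩
      obtain ⟨j⟩ := ALG.pl_congr σ hσ
      exact hne ⟨e.trans ((i.prodCongr j).trans e'.symm)⟩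
    obtain ⟨l, hl, hlab⟩ := COMPL.labs (FF C n) Der h2 L L' hL hL' hno
    refine hD (L.map (fun k => (1, k, k)) ++ (L'.map (fun k => (1, k, k)) ++ l)) (2, p, q) ?_ ?_
    · intro x hx
      rcases List.mem_append.1 hx with h | h
      · obtain ⟨k, hk, rfl⟩ := List.mem_map.1 h
        exact h1 k (hL k hk)
      · rcases List.mem_append.1 h with h | h
        · obtain ⟨k, hk, rfl⟩ := List.mem_map.1 h
          exact h1 k (hL' k hk)
        · exact hl x h
    · right
      right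
      refine ⟨rfl, Or.inr (Or.inl ⟨((a, L), (a', L')), ⟨ha, ha'⟩, ?_, ?_, ⟨e⟩, ⟨e'⟩, Or.inr ?_⟩)⟩
      · intro k hk
        exact List.mem_append_left _ (List.mem_map.2 ⟨k, hk, rfl⟩)
      · intro k hk
        exact List.mem_append_right _ (List.mem_append_left _ (List.mem_map.2 ⟨k, hk, rfl⟩))
      · exact hlab _ (fun x hx => List.mem_append_right _ (List.mem_append_right _ hx))
  · refine hD (L.map (fun k => (1, k, k)) ++ L'.map (fun k => (1, k, k))) (2, p, q) ?_ ?_
    · intro x hx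
      rcases List.mem_append.1 hx with h | h
      · obtain ⟨k, hk, rfl⟩ := List.mem_map.1 h
        exact h1 k (hL k hk)
      · obtain ⟨k, hk, rfl⟩ := List.mem_map.1 h
        exact h1 k (hL' k hk)
    · right
      right
      refine ⟨rfl, Or.inr (Or.inl ⟨((a, L), (a', L')), ⟨ha, ha'⟩, ?_, ?_, ⟨e⟩, ⟨e'⟩,
        Or.inl ((hA.no ha ha').2 hm)⟩)⟩
      · intro k hk
        exact List.mem_append_left _ (List.mem_map.2 ⟨k, hk, rfl⟩)
      · intro k hk
        exact List.mem_append_right _ (List.mem_map.2 ⟨k, hk, rfl⟩)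

/-- free forms -/
theorem fstep (hD : ∀ l e, (∀ x ∈ l, Der x) → StepR C f fA (l, e) → Der e) (n : ℕ)
    (h1 : ∀ p, DD C n p → Der (0, p, p))
    (h2 : ∀ p q, DD C n p → DD C n q → ¬ Nonempty (PG p ≃* PG q) → Der (2, p, q)) :
    ∀ p q, FForm C n p → FForm C n q → ¬ Nonempty (PG p ≃* PG q) → Der (2, p, q) := by
  rintro p q ⟨m, L, hL, ⟨e⟩⟩ ⟨m', L', hL', ⟨e'⟩⟩ hne
  by_cases hm : m = m'
  · subst hm
    have hno : ¬ ∃ σ : Fin L.length ≃ Fin L'.length,
        ∀ i, Nonempty (PG (L.get i) ≃* PG (L'.get (σ i))) := by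
      rintro ⟨σ, hσ⟩
      obtain ⟨j⟩ := ALGF.coprodI_congr (fun i : Fin L.length => PG (L.get i))
        (fun j : Fin L'.length => PG (L'.get j)) σ hσ
      exact hne ⟨e.trans ((MulEquiv.coprodCongr j (MulEquiv.refl _)).trans e'.symm)⟩
    obtain ⟨l, hl, hlab⟩ := COMPL.labs (DD C n) Der h2 L L' hL hL' hno
    refine hD (L.map (fun k => (0, k, k)) ++ (L'.map (fun k => (0, k, k)) ++ l)) (2, p, q) ?_ ?_
    · intro x hx
      rcases List.mem_append.1 hx with h | h
      · obtain ⟨k, hk, rfl⟩ := List.mem_map.1 h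
        exact h1 k (hL k hk)
      · rcases List.mem_append.1 h with h | h
        · obtain ⟨k, hk, rfl⟩ := List.mem_map.1 h
          exact h1 k (hL' k hk)
        · exact hl x h
    · right
      right
      refine ⟨rfl, Or.inr (Or.inr ⟨((m, L), (m, L')), ?_, ?_, ⟨e⟩, ⟨e'⟩, Or.inr ?_⟩)⟩
      · intro k hk
        exact List.mem_append_left _ (List.mem_map.2 ⟨k, hk, rfl⟩)
      · intro k hk
        exact List.mem_append_right _ (List.mem_append_left _ (List.mem_map.2 ⟨k, hk, rfl⟩))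
      · exact hlab _ (fun x hx => List.mem_append_right _ (List.mem_append_right _ hx))
  · refine hD (L.map (fun k => (0, k, k)) ++ L'.map (fun k => (0, k, k))) (2, p, q) ?_ ?_
    · intro x hx
      rcases List.mem_append.1 hx with h | h
      · obtain ⟨k, hk, rfl⟩ := List.mem_map.1 h
        exact h1 k (hL k hk)
      · obtain ⟨k, hk, rfl⟩ := List.mem_map.1 h
        exact h1 k (hL' k hk)
    · right
      right
      refine ⟨rfl, Or.inr (Or.inr ⟨((m, L), (m', L')), ?_, ?_, ⟨e⟩, ⟨e'⟩, Or.inl hm⟩)⟩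
      · intro k hk
        exact List.mem_append_left _ (List.mem_map.2 ⟨k, hk, rfl⟩)
      · intro k hk
        exact List.mem_append_right _ (List.mem_map.2 ⟨k, hk, rfl⟩)

theorem c_dd (n : ℕ) {p : Pres} (h : C p) : DD C n p := by
  cases n with
  | zero => rw [DD]; exact h
  | succ n => rw [DD]; exact Or.inl h

theorem c_ff (n : ℕ) {p : Pres} (h : C p) : FF C n p := by
  cases n with
  | zero => rw [FF]; exact h
  | succ n => rw [FF]; exact Or.inl h

theorem all (hf : Sol C f) (hA : Sol Ab fA)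
    (hD : ∀ l e, (∀ x ∈ l, Der x) → StepR C f fA (l, e) → Der e) (n : ℕ) :
    (∀ p, DD C n p → Der (0, p, p)) ∧ (∀ p, FF C n p → Der (1, p, p)) ∧
    (∀ p q, DD C n p → DD C n q → ¬ Nonempty (PG p ≃* PG q) → Der (2, p, q)) ∧
    (∀ p q, FF C n p → FF C n q → ¬ Nonempty (PG p ≃* PG q) → Der (2, p, q)) := by
  have c0 : ∀ p, C p → Der (0, p, p) := fun p hp =>
    hD [] (0, p, p) (by simp) (Or.inl ⟨rfl, rfl, Or.inl hp⟩)
  have c1 : ∀ p, C p → Der (1, p, p) := fun p hp =>
    hD [] (1, p, p) (by simp) (Or.inr (Or.inl ⟨rfl, rfl, Or.inl hp⟩))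
  have c2 : ∀ p q, C p → C q → ¬ Nonempty (PG p ≃* PG q) → Der (2, p, q) := fun p q hp hq h =>
    hD [] (2, p, q) (by simp) (Or.inr (Or.inr ⟨rfl, Or.inl ⟨hp, hq, (hf p q hp hq).2 h⟩⟩))
  induction n with
  | zero =>
    refine ⟨?_, ?_, ?_, ?_⟩
    · intro p hp
      rw [DD] at hp
      exact c0 p hp
    · intro p hp
      rw [FF] at hp
      exact c1 p hp
    · intro p q hp hq
      rw [DD] at hp hq
      exact c2 p q hp hq
    · intro p q hp hq
      rw [FF] at hp hq
      exact c2 p q hp hq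
  | succ n ih =>
    obtain ⟨a0, a1, b0, b1⟩ := ih
    have toD : ∀ p, DD C (n + 1) p → DForm C n p := by
      intro p hp
      rw [DD] at hp
      rcases hp with hp | ⟨a, L, hL, ha, -, he⟩
      · refine ⟨REDD.Tc, [p], ?_, ab_Tc, ⟨(d1 p).symm⟩⟩
        intro k hk
        rw [List.mem_singleton.1 hk]
        exact c_ff C n hp
      · exact ⟨a, L, hL, ha, he⟩
    have toF : ∀ p, FF C (n + 1) p → FForm C n p := by
      intro p hp
      rw [FF] at hp
      rcases hp with hp | ⟨m, L, hL, -, he⟩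
      · refine ⟨0, [p], ?_, COMPL.oneF p⟩
        intro k hk
        rw [List.mem_singleton.1 hk]
        exact c_dd C n hp
      · exact ⟨m, L, hL, he⟩
    refine ⟨?_, ?_, ?_, ?_⟩
    · intro p hp
      rw [DD] at hp
      rcases hp with hp | ⟨a, L, hL, ha, h2, he⟩
      · exact c0 p hp
      · refine hD (L.map (fun k => (1, k, k))) (0, p, p) ?_ ?_
        · intro x hx
          obtain ⟨k, hk, rfl⟩ := List.mem_map.1 hx
          exact a1 k (hL k hk)
        · exact Or.inl ⟨rfl, rfl, Or.inr ⟨(a, L), (big_iff hA ha).2 h2, ha,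
            fun k hk => List.mem_map.2 ⟨k, hk, rfl⟩, he⟩⟩
    · intro p hp
      rw [FF] at hp
      rcases hp with hp | ⟨m, L, hL, h2, he⟩
      · exact c1 p hp
      · refine hD (L.map (fun k => (0, k, k))) (1, p, p) ?_ ?_
        · intro x hx
          obtain ⟨k, hk, rfl⟩ := List.mem_map.1 hx
          exact a0 k (hL k hk)
        · exact Or.inr (Or.inl ⟨rfl, rfl, Or.inr ⟨(m, L), h2,
            fun k hk => List.mem_map.2 ⟨k, hk, rfl⟩, he⟩⟩)
    · intro p q hp hq hne
      exact dstep C f fA Der hA hD n a1 b1 p q (toD p hp) (toD q hq) hne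
    · intro p q hp hq hne
      exact fstep C f fA Der hD n a0 b0 p q (toF p hp) (toF q hq) hne

theorem t (hf : Sol C f) (hA : Sol Ab fA)
    (hD : ∀ l e, (∀ x ∈ l, Der x) → StepR C f fA (l, e) → Der e) :
    ∀ n p q, DForm C n p → DForm C n q → ¬ Nonempty (PG p ≃* PG q) → Der (2, p, q) := by
  intro n p q hp hq hne
  obtain ⟨a0, a1, b0, b1⟩ := all C f fA Der hf hA hD n
  exact dstep C f fA Der hA hD n a1 b1 p q hp hq hne

end

/-- The isomorphism problem is solvable on the class `Built C`. -/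
theorem built (C : Pres → Prop) (hC : REPred C) (hB : ∀ k, C k → Base k) (hS : Solvable C) :
    Solvable (Built C) := by
  obtain ⟨f, hf, hf'⟩ := hS
  obtain ⟨fA, hfA, hfA'⟩ := AbS.t
  obtain ⟨hre, hmono⟩ := Step.t C f fA hC hf hfA
  obtain ⟨Der, hDre, hDcl, hDind⟩ := GEN.t Fact (StepR C f fA) hre hmono
  have hsound : ∀ p q, Der (2, p, q) → ¬ Nonempty (PG p ≃* PG q) := fun p q h =>
    (hDind (Mean C) (Snd.t C f fA hB hf' hfA') _ h).2.2 rfl
  have hcompl := t C f fA Der hf' hfA' hDcl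
  have hDF : ∀ n m, n ≤ m → ∀ p, DForm C n p → DForm C m p := by
    rintro n m h p ⟨a, L, h1, h2⟩
    exact ⟨a, L, fun k hk => (mono C h).2 k (h1 k hk), h2⟩
  have hiff : ∀ p q, Built C p → Built C q → ¬ Nonempty (PG p ≃* PG q) → Der (2, p, q) := by
    intro p q hp hq h
    obtain ⟨n, hn⟩ := nf C p hp
    obtain ⟨m, hm⟩ := nf C q hq
    exact hcompl (max n m) p q (hDF n _ (le_max_left _ _) p hn) (hDF m _ (le_max_right _ _) q hm) h
  have hN : REPred fun z : Pres × Pres => Der (2, z.1, z.2) := by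
    have hc : Computable fun z : Pres × Pres => ((2, z.1, z.2) : Fact) :=
      (Primrec.pair (Primrec.const 2) (Primrec.pair Primrec.fst Primrec.snd)).to_comp
    exact Pool.Agent.Helper926.RE.comp (p := Der) hDre hc
  exact SEARCH.solvable_of hN (fun p q h => hsound p q h) (fun p q hp hq h => hiff p q hp hq h)

end Pool.Agent.U181.IP.Cpl
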