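import Pool.Agent.U181.IP.FinT
import Pool.Agent.Helper270.Cop

set_option autoImplicit false

/-!
# Finite groups: computability
-/

namespace Pool.Agent.U181.IP.FinC

open Pool.Agent.Q223.IS Pool.Agent.Q32.DP Pool.Agent.U181.IP Pool.Agent.U181.IP.FinT
  Pool.Agent.Helper926 Pool.Agent.Helper926.RE

theorem pow_pr : Primrec₂ fun m k : ℕ => m ^ k := by
  have h := Primrec.nat_rec (f := fun _ : ℕ => 1) (g := fun (m : ℕ) (y : ℕ × ℕ) => y.2 * m)
    (Primrec.const 1) (Primrec.nat_mul.comp (Primrec.snd.comp Primrec.snd) Primrec.fst)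
  refine h.of_eq fun m k => ?_
  induction k with
  | zero => rfl
  | succ k ih =>
    rw [pow_succ, ← ih]

section

variable {α : Type*} [Primcodable α]

theorem dg_pr {f g h : α → ℕ} (hf : Primrec f) (hg : Primrec g) (hh : Primrec h) :
    Primrec fun x => dg (f x) (g x) (h x) :=
  Primrec.nat_mod.comp (Primrec.nat_div.comp hg (pow_pr.comp hf hh)) hf

theorem ml_pr {f : α → ℕ × ℕ} {g h : α → ℕ} (hf : Primrec f) (hg : Primrec g) (hh : Primrec h) :
    Primrec fun x => ml (f x) (g x) (h x) :=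
  dg_pr (Primrec.fst.comp hf) (Primrec.snd.comp hf)
    (Primrec.nat_add.comp (Primrec.nat_mul.comp hg (Primrec.fst.comp hf)) hh)

@[fun_prop] theorem cdg {f g h : α → ℕ} (hf : Computable f) (hg : Computable g)
    (hh : Computable h) : Computable fun x => dg (f x) (g x) (h x) :=
  (dg_pr (f := fun x : ℕ × ℕ × ℕ => x.1) (g := fun x => x.2.1) (h := fun x => x.2.2)
    Primrec.fst (Primrec.fst.comp Primrec.snd) (Primrec.snd.comp Primrec.snd)).to_comp.comp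
      (hf.pair (hg.pair hh))

@[fun_prop] theorem cml {f : α → ℕ × ℕ} {g h : α → ℕ} (hf : Computable f) (hg : Computable g)
    (hh : Computable h) : Computable fun x => ml (f x) (g x) (h x) :=
  (ml_pr (f := fun x : (ℕ × ℕ) × ℕ × ℕ => x.1) (g := fun x => x.2.1) (h := fun x => x.2.2)
    Primrec.fst (Primrec.fst.comp Primrec.snd) (Primrec.snd.comp Primrec.snd)).to_comp.comp
      (hf.pair (hg.pair hh))

@[fun_prop] theorem cpow {f g : α → ℕ} (hf : Computable f) (hg : Computable g) :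
    Computable fun x => f x ^ g x := pow_pr.to_comp.comp hf hg

end

theorem K_pr : Primrec K := by
  unfold K
  refine Primrec.pair Primrec.fst ?_
  refine Primrec.list_flatMap (f := fun t : ℕ × ℕ => List.range t.1)
    (g := fun (t : ℕ × ℕ) i => (List.range t.1).map fun j =>
      [(i, true), (j, true), (ml t i j, false)]) (Primrec.list_range.comp Primrec.fst) ?_
  refine Primrec.list_map (f := fun x : (ℕ × ℕ) × ℕ => List.range x.1.1)
    (g := fun x j => [(x.2, true), (j, true), (ml x.1 x.2 j, false)])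
    (Primrec.list_range.comp (Primrec.fst.comp Primrec.fst)) ?_
  show Primrec fun y : ((ℕ × ℕ) × ℕ) × ℕ =>
    [(y.1.2, true), (y.2, true), (ml y.1.1 y.1.2 y.2, false)]
  have hi : Primrec fun y : ((ℕ × ℕ) × ℕ) × ℕ => y.1.2 := Primrec.snd.comp Primrec.fst
  have ht : Primrec fun y : ((ℕ × ℕ) × ℕ) × ℕ => y.1.1 := Primrec.fst.comp Primrec.fst
  exact Primrec.list_cons.comp (Primrec.pair hi (Primrec.const true))
    (Primrec.list_cons.comp (Primrec.pair Primrec.snd (Primrec.const true))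
      (Primrec.list_cons.comp (Primrec.pair (ml_pr ht hi Primrec.snd) (Primrec.const false))
        (Primrec.const [])))

theorem cp_ex {α : Type*} [Primcodable α] {p : α → ℕ → Prop}
    (hp : ComputablePred fun x : α × ℕ => p x.1 x.2)
    {f : α → ℕ} (hf : Computable f) : ComputablePred fun a => ∃ i, i < f a ∧ p a i :=
  cp_ex_lt hp hf

theorem valid_cp : ComputablePred Valid := by
  unfold Valid
  refine cp_and (cp_lt (by fun_prop) (by fun_prop)) (cp_and ?_ ?_)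
  · refine cp_all_lt (p := fun (t : ℕ × ℕ) i => ∀ j < t.1, ∀ k < t.1,
      ml t (ml t i j) k = ml t i (ml t j k)) ?_ (by fun_prop)
    refine cp_all_lt (p := fun (x : (ℕ × ℕ) × ℕ) j => ∀ k < x.1.1,
      ml x.1 (ml x.1 x.2 j) k = ml x.1 x.2 (ml x.1 j k)) ?_ (by fun_prop)
    refine cp_all_lt (p := fun (x : ((ℕ × ℕ) × ℕ) × ℕ) k =>
      ml x.1.1 (ml x.1.1 x.1.2 x.2) k = ml x.1.1 x.1.2 (ml x.1.1 x.2 k)) ?_ (by fun_prop)
    exact cp_eq (by fun_prop) (by fun_prop)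
  · refine cp_ex (p := fun (t : ℕ × ℕ) o => (∀ i < t.1, ml t o i = i) ∧
      (∀ i < t.1, ∃ j, j < t.1 ∧ ml t j i = o)) ?_ (by fun_prop)
    refine cp_and ?_ ?_
    · refine cp_all_lt (p := fun (x : (ℕ × ℕ) × ℕ) i => ml x.1 x.2 i = i) ?_ (by fun_prop)
      exact cp_eq (by fun_prop) (by fun_prop)
    · refine cp_all_lt (p := fun (x : (ℕ × ℕ) × ℕ) i => ∃ j, j < x.1.1 ∧ ml x.1 j i = x.2) ?_
        (by fun_prop)
      refine cp_ex (p := fun (x : ((ℕ × ℕ) × ℕ) × ℕ) j => ml x.1.1 j x.2 = x.1.2) ?_ (by fun_prop)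
      exact cp_eq (by fun_prop) (by fun_prop)

theorem nonab_cp : ComputablePred NonAbT := by
  unfold NonAbT
  refine cp_ex (p := fun (t : ℕ × ℕ) i => ∃ j, j < t.1 ∧ ml t i j ≠ ml t j i) ?_ (by fun_prop)
  refine cp_ex (p := fun (x : (ℕ × ℕ) × ℕ) j => ml x.1 x.2 j ≠ ml x.1 j x.2) ?_ (by fun_prop)
  exact cp_not (cp_eq (by fun_prop) (by fun_prop))

theorem iso_cp : ComputablePred fun x : (ℕ × ℕ) × (ℕ × ℕ) => IsoT x.1 x.2 := by
  unfold IsoT
  refine cp_and (cp_eq (by fun_prop) (by fun_prop)) ?_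
  refine cp_ex (p := fun (x : (ℕ × ℕ) × (ℕ × ℕ)) c =>
    (∀ i < x.1.1, ∀ j < x.1.1,
      dg x.1.1 c (ml x.1 i j) = ml x.2 (dg x.1.1 c i) (dg x.1.1 c j)) ∧
    ∀ i < x.1.1, ∀ j < x.1.1, dg x.1.1 c i = dg x.1.1 c j → i = j) ?_ (by fun_prop)
  refine cp_and ?_ ?_
  · refine cp_all_lt (p := fun (y : ((ℕ × ℕ) × (ℕ × ℕ)) × ℕ) i => ∀ j < y.1.1.1,
      dg y.1.1.1 y.2 (ml y.1.1 i j) = ml y.1.2 (dg y.1.1.1 y.2 i) (dg y.1.1.1 y.2 j)) ?_
      (by fun_prop)
    refine cp_all_lt (p := fun (z : (((ℕ × ℕ) × (ℕ × ℕ)) × ℕ) × ℕ) j =>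
      dg z.1.1.1.1 z.1.2 (ml z.1.1.1 z.2 j) =
        ml z.1.1.2 (dg z.1.1.1.1 z.1.2 z.2) (dg z.1.1.1.1 z.1.2 j)) ?_ (by fun_prop)
    exact cp_eq (by fun_prop) (by fun_prop)
  · refine cp_all_lt (p := fun (y : ((ℕ × ℕ) × (ℕ × ℕ)) × ℕ) i => ∀ j < y.1.1.1,
      dg y.1.1.1 y.2 i = dg y.1.1.1 y.2 j → i = j) ?_ (by fun_prop)
    refine cp_all_lt (p := fun (z : (((ℕ × ℕ) × (ℕ × ℕ)) × ℕ) × ℕ) j =>
      dg z.1.1.1.1 z.1.2 z.2 = dg z.1.1.1.1 z.1.2 j → z.2 = j) ?_ (by fun_prop)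
    exact cp_imp (cp_eq (by fun_prop) (by fun_prop)) (cp_eq (by fun_prop) (by fun_prop))

theorem ind_cp : ComputablePred IndT := by
  unfold IndT
  refine cp_and (cp_lt (by fun_prop) (by fun_prop)) ?_
  refine cp_all_lt (p := fun (t : ℕ × ℕ) c =>
    (∀ i < t.1, ∀ j < t.1, dg t.1 c (ml t i j) = ml t (dg t.1 c i) (dg t.1 c j)) →
    (∀ i < t.1, dg t.1 c (dg t.1 c i) = dg t.1 c i) →
    (∀ i < t.1, ∀ k < t.1, ml t (dg t.1 c k) (dg t.1 c k) = dg t.1 c k →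
      ml t (dg t.1 c i) k = ml t k (dg t.1 c i)) →
    (∀ i < t.1, dg t.1 c i = i) ∨ ∀ i < t.1, ml t (dg t.1 c i) (dg t.1 c i) = dg t.1 c i) ?_
    (by fun_prop)
  refine cp_imp ?_ (cp_imp ?_ (cp_imp ?_ (cp_or ?_ ?_)))
  · refine cp_all_lt (p := fun (y : (ℕ × ℕ) × ℕ) i => ∀ j < y.1.1,
      dg y.1.1 y.2 (ml y.1 i j) = ml y.1 (dg y.1.1 y.2 i) (dg y.1.1 y.2 j)) ?_ (by fun_prop)
    refine cp_all_lt (p := fun (z : ((ℕ × ℕ) × ℕ) × ℕ) j =>
      dg z.1.1.1 z.1.2 (ml z.1.1 z.2 j) =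
        ml z.1.1 (dg z.1.1.1 z.1.2 z.2) (dg z.1.1.1 z.1.2 j)) ?_ (by fun_prop)
    exact cp_eq (by fun_prop) (by fun_prop)
  · refine cp_all_lt (p := fun (y : (ℕ × ℕ) × ℕ) i =>
      dg y.1.1 y.2 (dg y.1.1 y.2 i) = dg y.1.1 y.2 i) ?_ (by fun_prop)
    exact cp_eq (by fun_prop) (by fun_prop)
  · refine cp_all_lt (p := fun (y : (ℕ × ℕ) × ℕ) i => ∀ k < y.1.1,
      ml y.1 (dg y.1.1 y.2 k) (dg y.1.1 y.2 k) = dg y.1.1 y.2 k →
      ml y.1 (dg y.1.1 y.2 i) k = ml y.1 k (dg y.1.1 y.2 i)) ?_ (by fun_prop)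
    refine cp_all_lt (p := fun (z : ((ℕ × ℕ) × ℕ) × ℕ) k =>
      ml z.1.1 (dg z.1.1.1 z.1.2 k) (dg z.1.1.1 z.1.2 k) = dg z.1.1.1 z.1.2 k →
      ml z.1.1 (dg z.1.1.1 z.1.2 z.2) k = ml z.1.1 k (dg z.1.1.1 z.1.2 z.2)) ?_ (by fun_prop)
    exact cp_imp (cp_eq (by fun_prop) (by fun_prop)) (cp_eq (by fun_prop) (by fun_prop))
  · refine cp_all_lt (p := fun (y : (ℕ × ℕ) × ℕ) i => dg y.1.1 y.2 i = i) ?_ (by fun_prop)
    exact cp_eq (by fun_prop) (by fun_prop)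
  · refine cp_all_lt (p := fun (y : (ℕ × ℕ) × ℕ) i =>
      ml y.1 (dg y.1.1 y.2 i) (dg y.1.1 y.2 i) = dg y.1.1 y.2 i) ?_ (by fun_prop)
    exact cp_eq (by fun_prop) (by fun_prop)

/-! ### The classes -/

/-- finite, nonabelian, directly indecomposable -/
def CF (p : Pres) : Prop := Finite (PG p) ∧ NonAb (PG p) ∧ Indecomposable (PG p)

theorem nonAb_iff {G H : Type} [Group G] [Group H] (e : G ≃* H) : NonAb G ↔ NonAb H :=
  ⟨nonAb_iso e, nonAb_iso e.symm⟩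

theorem indec_iff' {G H : Type} [Group G] [Group H] (e : G ≃* H) :
    Indecomposable G ↔ Indecomposable H :=
  ⟨Struct.indec_iso e, Struct.indec_iso e.symm⟩

theorem cf_iff (p : Pres) : CF p ↔ ∃ t : ℕ × ℕ, Valid t ∧ NonAbT t ∧ IndT t ∧
    Nonempty (PG p ≃* PG (K t)) := by
  constructor
  · rintro ⟨h1, h2, h3⟩
    obtain ⟨t, ht⟩ := exists_tab (PG p)
    obtain ⟨e⟩ := K_iso ht
    exact ⟨t, valid_of ht, (nonab_iff ht).1 h2, (ind_iff ht).1 h3, ⟨e.symm⟩⟩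
  · rintro ⟨t, h1, h2, h3, ⟨e⟩⟩
    obtain ⟨G, _, ht⟩ := tab_of h1
    obtain ⟨f⟩ := K_iso ht
    have g := e.trans f
    have h4 := (nonAb_iff g).2 ((nonab_iff ht).2 h2)
    have h5 := (indec_iff' g).2 ((ind_iff ht).2 h3)
    obtain ⟨k, -⟩ := ht
    exact ⟨Finite.of_equiv _ (g.toEquiv.trans k).symm, h4, h5⟩

theorem cf_re : REPred CF := by
  refine REPred.of_eq (RE.ex (p := fun (p : Pres) (t : ℕ × ℕ) => Valid t ∧ NonAbT t ∧ IndT t ∧
    Nonempty (PG p ≃* PG (K t))) ?_) (fun p => (cf_iff p).symm)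
  refine RE.and (RE.comp valid_cp.to_re Computable.snd) (RE.and
    (RE.comp nonab_cp.to_re Computable.snd) (RE.and (RE.comp ind_cp.to_re Computable.snd) ?_))
  exact RE.comp iso_re (f := fun x : Pres × (ℕ × ℕ) => (x.1, K x.2))
    (Computable.fst.pair (K_pr.to_comp.comp Computable.snd))

/-- certificates of non-isomorphism of finite groups -/
def R (a : Pres × Pres) : Prop :=
  ∃ w : (ℕ × ℕ) × (ℕ × ℕ), (Valid w.1 ∧ Valid w.2) ∧ (Nonempty (PG a.1 ≃* PG (K w.1)) ∧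
    Nonempty (PG a.2 ≃* PG (K w.2))) ∧ ¬ IsoT w.1 w.2

theorem R_re : REPred R := by
  unfold R
  refine RE.ex (p := fun (a : Pres × Pres) (w : (ℕ × ℕ) × (ℕ × ℕ)) =>
    (Valid w.1 ∧ Valid w.2) ∧ (Nonempty (PG a.1 ≃* PG (K w.1)) ∧
    Nonempty (PG a.2 ≃* PG (K w.2))) ∧ ¬ IsoT w.1 w.2) ?_
  refine RE.and (RE.and ?_ ?_) (RE.and (RE.and ?_ ?_) ?_)
  · exact RE.comp valid_cp.to_re (f := fun x : (Pres × Pres) × ((ℕ × ℕ) × (ℕ × ℕ)) => x.2.1)
      (by fun_prop)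
  · exact RE.comp valid_cp.to_re (f := fun x : (Pres × Pres) × ((ℕ × ℕ) × (ℕ × ℕ)) => x.2.2)
      (by fun_prop)
  · exact RE.comp iso_re (f := fun x : (Pres × Pres) × ((ℕ × ℕ) × (ℕ × ℕ)) => (x.1.1, K x.2.1))
      ((Computable.fst.comp Computable.fst).pair
        (K_pr.to_comp.comp (Computable.fst.comp Computable.snd)))
  · exact RE.comp iso_re (f := fun x : (Pres × Pres) × ((ℕ × ℕ) × (ℕ × ℕ)) => (x.1.2, K x.2.2))
      ((Computable.snd.comp Computable.fst).pair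
        (K_pr.to_comp.comp (Computable.snd.comp Computable.snd)))
  · exact RE.comp (cp_not iso_cp).to_re Computable.snd

theorem R_sound {p q : Pres} (h : R (p, q)) : ¬ Nonempty (PG p ≃* PG q) := by
  obtain ⟨⟨t, t'⟩, ⟨h1, h2⟩, ⟨⟨e⟩, ⟨e'⟩⟩, h⟩ := h
  rintro ⟨i⟩
  obtain ⟨G, _, ht⟩ := tab_of h1
  obtain ⟨G', _, ht'⟩ := tab_of h2
  obtain ⟨f⟩ := K_iso ht
  obtain ⟨f'⟩ := K_iso ht'
  have e1 : PG p ≃* PG (K t) := e
  have e1' : PG q ≃* PG (K t') := e'
  exact h ((iso_iff ht ht').1 ⟨(e1.trans f).symm.trans (i.trans (e1'.trans f'))⟩)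

theorem R_compl {p q : Pres} (hp : Finite (PG p)) (hq : Finite (PG q))
    (h : ¬ Nonempty (PG p ≃* PG q)) : R (p, q) := by
  obtain ⟨t, ht⟩ := exists_tab (PG p)
  obtain ⟨t', ht'⟩ := exists_tab (PG q)
  obtain ⟨e⟩ := K_iso ht
  obtain ⟨e'⟩ := K_iso ht'
  exact ⟨(t, t'), ⟨valid_of ht, valid_of ht'⟩, ⟨⟨e.symm⟩, ⟨e'.symm⟩⟩,
    fun hi => h ((iso_iff ht ht').2 hi)⟩

/-- a nontrivial finite group is freely indecomposable -/
theorem findec_fin {G : Type} [Group G] (hf : Finite G) (h : ∃ g : G, g ≠ 1) : FreelyIndec G := by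
  refine ⟨h, fun A B _ _ ⟨e⟩ => ?_⟩
  by_contra hcon
  rw [not_or] at hcon
  obtain ⟨h1, h2⟩ := hcon
  push Not at h1 h2
  obtain ⟨a, ha⟩ := h1
  obtain ⟨b, hb⟩ := h2
  haveI : Finite (Monoid.Coprod A B) := Finite.of_equiv _ e.toEquiv
  haveI : Nonempty (Pool.Agent.Helper270.Cop.X A B) := ⟨⟨(a, b), ha, hb⟩⟩
  have h3 := Finite.of_injective _
    (Pool.Agent.Helper270.Cop.commHom_inj (M := A) (N := B))
  exact not_finite (FreeGroup (Pool.Agent.Helper270.Cop.X A B))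

theorem finCen_fin {G : Type} [Group G] (hf : Finite G) : FinCen G := Set.toFinite _

theorem exists_code (G : Type) [Group G] [Finite G] : ∃ p : Pres, Nonempty (PG p ≃* G) := by
  obtain ⟨t, ht⟩ := exists_tab G
  exact ⟨K t, K_iso ht⟩

/-- every finite group is built from nonabelian directly indecomposable finite groups -/
theorem fin_built (C : Pres → Prop) (hC : ∀ p, CF p → C p) : ∀ (n : ℕ) (p : Pres),
    Finite (PG p) → Nat.card (PG p) ≤ n → Built C p := by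
  intro n
  induction n with
  | zero =>
    intro p hp h
    haveI := hp
    have := Nat.card_pos (α := PG p)
    omega
  | succ n ih =>
    intro p hp h
    haveI := hp
    by_cases hab : NonAb (PG p)
    · by_cases hI : Indecomposable (PG p)
      · exact Built.base (hC p ⟨hp, hab, hI⟩)
      · have h0 : ∃ g : PG p, g ≠ 1 := nonAb_ne hab
        unfold Indecomposable at hI
        push Not at hI
        obtain ⟨A, B, iA, iB, ⟨e⟩, ⟨a, ha⟩, ⟨b, hb⟩⟩ := hI h0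
        haveI : Finite (A × B) := Finite.of_equiv _ e.toEquiv
        haveI : Finite A := Finite.of_injective (fun a : A => ((a, 1) : A × B))
          (fun x y h => congrArg Prod.fst h)
        haveI : Finite B := Finite.of_injective (fun b : B => ((1, b) : A × B))
          (fun x y h => congrArg Prod.snd h)
        haveI : Nontrivial A := ⟨a, 1, ha⟩
        haveI : Nontrivial B := ⟨b, 1, hb⟩
        have hc : Nat.card (PG p) = Nat.card A * Nat.card B := by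
          rw [← Nat.card_prod]
          exact Nat.card_congr e.toEquiv
        have hA := Finite.one_lt_card (α := A)
        have hB := Finite.one_lt_card (α := B)
        obtain ⟨ca, ⟨ea⟩⟩ := exists_code A
        obtain ⟨cb, ⟨eb⟩⟩ := exists_code B
        have h1 : Nat.card A ≤ n := by nlinarith
        have h2 : Nat.card B ≤ n := by nlinarith
        refine Built.direct (ih ca (Finite.of_equiv _ ea.symm.toEquiv) ?_)
          (ih cb (Finite.of_equiv _ eb.symm.toEquiv) ?_) ⟨e.trans (ea.symm.prodCongr eb.symm)⟩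
        · rw [Nat.card_congr ea.toEquiv]
          exact h1
        · rw [Nat.card_congr eb.toEquiv]
          exact h2
    · unfold NonAb at hab
      push Not at hab
      exact Built.abel hab

end Pool.Agent.U181.IP.FinC
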