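import Pool.Agent.U181.IP.Cpl
import Mathlib.Algebra.BigOperators.Fin

set_option autoImplicit false

/-!
# Multiplication tables of finite groups, coded by numbers
-/

namespace Pool.Agent.U181.IP.FinT

open Pool.Agent.Q223.IS Pool.Agent.Q32.DP Pool.Agent.U181.IP Pool.Agent.Helper926

/-- digits of a number -/
def dg (m c k : ℕ) : ℕ := c / m ^ k % m

/-- the multiplication of a table -/
def ml (t : ℕ × ℕ) (i j : ℕ) : ℕ := dg t.1 t.2 (i * t.1 + j)

theorem dg_fun {m n : ℕ} (F : Fin n → Fin m) (k : ℕ) (hk : k < n) :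
    dg m (finFunctionFinEquiv F) k = F ⟨k, hk⟩ := by
  have h := congrFun (finFunctionFinEquiv.symm_apply_apply F) ⟨k, hk⟩
  rw [← congrArg Fin.val h]
  rfl

/-- `t` is a table of the group -/
def Tab (t : ℕ × ℕ) (G : Type) [Group G] : Prop :=
  ∃ e : G ≃ Fin t.1, ∀ x y, (e (x * y) : ℕ) = ml t (e x) (e y)

theorem exists_tab (G : Type) [Group G] [Finite G] : ∃ t, Tab t G := by
  let m := Nat.card G
  let e : G ≃ Fin m := Finite.equivFin G
  have hm : 0 < m := Nat.card_pos
  let F : Fin (m * m) → Fin m := fun k => e (e.symm ⟨k / m, Nat.div_lt_of_lt_mul k.2⟩ *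
    e.symm ⟨k % m, Nat.mod_lt _ hm⟩)
  refine ⟨(m, (finFunctionFinEquiv F : ℕ)), e, fun x y => ?_⟩
  have hlt : (e x : ℕ) * m + (e y : ℕ) < m * m := by
    have h1 := (e x).2
    have h2 := (e y).2
    calc (e x : ℕ) * m + (e y : ℕ) < (e x : ℕ) * m + m := by omega
      _ = ((e x : ℕ) + 1) * m := by ring
      _ ≤ m * m := Nat.mul_le_mul_right m h1
  show _ = dg m (finFunctionFinEquiv F) ((e x : ℕ) * m + (e y : ℕ))
  rw [dg_fun F _ hlt]
  show _ = ((e (e.symm ⟨((e x : ℕ) * m + (e y : ℕ)) / m, _⟩ *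
    e.symm ⟨((e x : ℕ) * m + (e y : ℕ)) % m, _⟩) : Fin m) : ℕ)
  have e1 : ((e x : ℕ) * m + (e y : ℕ)) / m = e x := by
    rw [mul_comm, Nat.mul_add_div hm, Nat.div_eq_of_lt (e y).2, add_zero]
  have e2 : ((e x : ℕ) * m + (e y : ℕ)) % m = e y := by
    rw [mul_comm, Nat.mul_add_mod, Nat.mod_eq_of_lt (e y).2]
  have f1 : ∀ h, e.symm ⟨((e x : ℕ) * m + (e y : ℕ)) / m, h⟩ = x := by
    intro h
    rw [Equiv.symm_apply_eq]
    exact Fin.ext e1
  have f2 : ∀ h, e.symm ⟨((e x : ℕ) * m + (e y : ℕ)) % m, h⟩ = y := by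
    intro h
    rw [Equiv.symm_apply_eq]
    exact Fin.ext e2
  rw [f1, f2]

/-- the presentation given by the table -/
def K (t : ℕ × ℕ) : Pres := (t.1, (List.range t.1).flatMap fun i => (List.range t.1).map fun j =>
  [(i, true), (j, true), (ml t i j, false)])

theorem ev_false {M : Type} [Group M] (x : ℕ → M) (i : ℕ) : ev x [(i, false)] = (x i)⁻¹ := by
  have h := ev_inv x [(i, true)]
  rw [ev_true] at h
  rw [← h]
  rfl

theorem ev_rel {M : Type} [Group M] (x : ℕ → M) (i j k : ℕ) :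
    ev x [(i, true), (j, true), (k, false)] = x i * x j * (x k)⁻¹ := by
  rw [ev_cons, ev_cons x (j, true), ev_true, ev_true, ev_false, mul_assoc]

theorem mem_K {t : ℕ × ℕ} {w : Wd} : w ∈ (K t).2 ↔ ∃ i j, i < t.1 ∧ j < t.1 ∧
    w = [(i, true), (j, true), (ml t i j, false)] := by
  unfold K
  simp only [List.mem_flatMap, List.mem_range, List.mem_map]
  constructor
  · rintro ⟨i, hi, j, hj, rfl⟩
    exact ⟨i, j, hi, hj, rfl⟩
  · rintro ⟨i, j, hi, hj, rfl⟩
    exact ⟨i, hi, j, hj, rfl⟩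

theorem K_iso {t : ℕ × ℕ} {G : Type} [Group G] (h : Tab t G) : Nonempty (PG (K t) ≃* G) := by
  obtain ⟨e, he⟩ := h
  let x : ℕ → G := fun i => if h : i < t.1 then e.symm ⟨i, h⟩ else 1
  have hx : ∀ g : G, x (e g) = g := by
    intro g
    show (if h : (e g : ℕ) < t.1 then e.symm ⟨(e g : ℕ), h⟩ else 1) = g
    rw [dif_pos (e g).2]
    exact e.symm_apply_apply g
  have hx' : ∀ i, i < t.1 → (e (x i) : ℕ) = i := by
    intro i hi
    show ((e (if h : i < t.1 then e.symm ⟨i, h⟩ else 1) : Fin t.1) : ℕ) = i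
    rw [dif_pos hi, e.apply_symm_apply]
  obtain ⟨F, hF⟩ := PG_lift (K t) (M := G) x (fun i hi => dif_neg (not_lt.2 hi)) (by
    intro w hw
    obtain ⟨i, j, hi, hj, rfl⟩ := mem_K.1 hw
    rw [ev_rel]
    have h1 : x (ml t i j) = x i * x j := by
      rw [← hx (x i * x j), he, hx' i hi, hx' j hj]
    rw [h1, mul_inv_cancel])
  let P : G →* PG (K t) := MonoidHom.mk' (fun g => gen (K t) (e g)) (by
    intro g h
    have h1 := PG_rel (K t) (mem_K.2 ⟨(e g : ℕ), (e h : ℕ), (e g).2, (e h).2, rfl⟩)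
    rw [ev_rel, mul_inv_eq_one] at h1
    show gen (K t) (e (g * h)) = _
    rw [he]
    exact h1.symm)
  refine ⟨MonoidHom.toMulEquiv F P ?_ ?_⟩
  · apply PG_ext
    intro i
    rw [MonoidHom.comp_apply, hF]
    by_cases hi : i < t.1
    · show gen (K t) (e (x i)) = gen (K t) i
      rw [hx' i hi]
    · have h1 : x i = 1 := dif_neg hi
      rw [h1, map_one]
      exact (gen_big (K t) (not_lt.1 hi)).symm
  · ext g
    rw [MonoidHom.comp_apply]
    show F (gen (K t) (e g)) = g
    rw [hF, hx]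

/-- the axioms of a group -/
def Valid (t : ℕ × ℕ) : Prop := 0 < t.1 ∧
  (∀ i < t.1, ∀ j < t.1, ∀ k < t.1, ml t (ml t i j) k = ml t i (ml t j k)) ∧
  ∃ o, o < t.1 ∧ (∀ i < t.1, ml t o i = i) ∧ (∀ i < t.1, ∃ j, j < t.1 ∧ ml t j i = o)

theorem valid_of {t : ℕ × ℕ} {G : Type} [Group G] (h : Tab t G) : Valid t := by
  obtain ⟨e, he⟩ := h
  have hs : ∀ i, i < t.1 → ∃ g, (e g : ℕ) = i := fun i hi =>
    ⟨e.symm ⟨i, hi⟩, by rw [e.apply_symm_apply]⟩
  refine ⟨Nat.pos_of_ne_zero (fun h => ?_), ?_, (e 1 : ℕ), (e 1).2, ?_, ?_⟩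
  · have := (e 1).2
    omega
  · intro i hi j hj k hk
    obtain ⟨x, rfl⟩ := hs i hi
    obtain ⟨y, rfl⟩ := hs j hj
    obtain ⟨z, rfl⟩ := hs k hk
    rw [← he, ← he, ← he, ← he, mul_assoc]
  · intro i hi
    obtain ⟨x, rfl⟩ := hs i hi
    rw [← he, one_mul]
  · intro i hi
    obtain ⟨x, rfl⟩ := hs i hi
    exact ⟨e x⁻¹, (e x⁻¹).2, by rw [← he, inv_mul_cancel]⟩

theorem tab_of {t : ℕ × ℕ} (h : Valid t) : ∃ (G : Type) (_ : Group G), Tab t G := by
  obtain ⟨h0, h1, o, ho, h2, h3⟩ := h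
  have hlt : ∀ i j, ml t i j < t.1 := fun i j => Nat.mod_lt _ h0
  choose v hv hv' using h3
  letI : Mul (Fin t.1) := ⟨fun i j => ⟨ml t i j, hlt i j⟩⟩
  letI : One (Fin t.1) := ⟨⟨o, ho⟩⟩
  letI : Inv (Fin t.1) := ⟨fun i => ⟨v i i.2, hv i i.2⟩⟩
  letI : Group (Fin t.1) := Group.ofLeftAxioms
    (fun i j k => Fin.ext (h1 i i.2 j j.2 k k.2)) (fun i => Fin.ext (h2 i i.2))
    (fun i => Fin.ext (hv' i i.2))
  exact ⟨Fin t.1, inferInstance, Equiv.refl _, fun x y => rfl⟩

/-- isomorphism of tables -/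
def IsoT (t t' : ℕ × ℕ) : Prop := t.1 = t'.1 ∧ ∃ c, c < t.1 ^ t.1 ∧
  (∀ i < t.1, ∀ j < t.1, dg t.1 c (ml t i j) = ml t' (dg t.1 c i) (dg t.1 c j)) ∧
  ∀ i < t.1, ∀ j < t.1, dg t.1 c i = dg t.1 c j → i = j

theorem iso_iff {t t' : ℕ × ℕ} {G H : Type} [Group G] [Group H] (h : Tab t G) (h' : Tab t' H) :
    Nonempty (G ≃* H) ↔ IsoT t t' := by
  have hv := valid_of h
  obtain ⟨e, he⟩ := h
  obtain ⟨e', he'⟩ := h'
  obtain ⟨m, a⟩ := t
  obtain ⟨m', b⟩ := t'
  have hs : ∀ i, i < m → ∃ g, (e g : ℕ) = i := fun i hi =>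
    ⟨e.symm ⟨i, hi⟩, by rw [e.apply_symm_apply]⟩
  constructor
  · rintro ⟨φ⟩
    have hm : m = m' := Fin.equiv_iff_eq.1 ⟨(e.symm.trans φ.toEquiv).trans e'⟩
    subst hm
    let F : Fin m → Fin m := fun i => e' (φ (e.symm i))
    have hF : ∀ g, dg m (finFunctionFinEquiv F) (e g) = e' (φ g) := by
      intro g
      rw [dg_fun F _ (e g).2]
      show ((e' (φ (e.symm (e g))) : Fin m) : ℕ) = _
      rw [e.symm_apply_apply]
    refine ⟨rfl, (finFunctionFinEquiv F : ℕ), (finFunctionFinEquiv F).2, ?_, ?_⟩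
    · intro i hi j hj
      obtain ⟨x, rfl⟩ := hs i hi
      obtain ⟨y, rfl⟩ := hs j hj
      show dg m (finFunctionFinEquiv F) (ml (m, a) (e x) (e y)) =
        ml (m, b) (dg m (finFunctionFinEquiv F) (e x)) (dg m (finFunctionFinEquiv F) (e y))
      rw [← he, hF, hF, hF, map_mul, he']
    · intro i hi j hj hij
      obtain ⟨x, rfl⟩ := hs i hi
      obtain ⟨y, rfl⟩ := hs j hj
      have h1 : dg m (finFunctionFinEquiv F) (e x) = dg m (finFunctionFinEquiv F) (e y) := hij
      rw [hF, hF] at h1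
      have h2 := φ.injective (e'.injective (Fin.ext h1))
      rw [h2]
  · rintro ⟨hm, c, -, h1, h2⟩
    have hm : m = m' := hm
    subst hm
    have hlt : ∀ k, dg m c k < m := fun k => Nat.mod_lt _ hv.1
    let f : G →* H := MonoidHom.mk' (fun g => e'.symm ⟨dg m c (e g), hlt _⟩) (by
      intro x y
      rw [Equiv.symm_apply_eq]
      apply Fin.ext
      rw [he', e'.apply_symm_apply, e'.apply_symm_apply]
      show dg m c (e (x * y)) = ml (m, b) (dg m c (e x)) (dg m c (e y))
      rw [he]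
      exact h1 _ (e x).2 _ (e y).2)
    have hf : Function.Injective f := by
      intro x y hxy
      have h3 := congrArg Fin.val (e'.symm.injective hxy)
      exact e.injective (Fin.ext (h2 _ (e x).2 _ (e y).2 h3))
    haveI : Finite H := Finite.of_equiv _ e'.symm
    have hc : Nat.card H ≤ Nat.card G := by
      rw [Nat.card_congr e', Nat.card_congr e]
    exact ⟨MulEquiv.ofBijective f (hf.bijective_of_nat_card_le hc)⟩

/-- the table is not commutative -/
def NonAbT (t : ℕ × ℕ) : Prop := ∃ i, i < t.1 ∧ ∃ j, j < t.1 ∧ ml t i j ≠ ml t j i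

theorem nonab_iff {t : ℕ × ℕ} {G : Type} [Group G] (h : Tab t G) : NonAb G ↔ NonAbT t := by
  obtain ⟨e, he⟩ := h
  have hs : ∀ i, i < t.1 → ∃ g, (e g : ℕ) = i := fun i hi =>
    ⟨e.symm ⟨i, hi⟩, by rw [e.apply_symm_apply]⟩
  constructor
  · rintro ⟨x, y, hxy⟩
    refine ⟨e x, (e x).2, e y, (e y).2, fun h => hxy ?_⟩
    rw [← he, ← he] at h
    exact e.injective (Fin.ext h)
  · rintro ⟨i, hi, j, hj, h⟩
    obtain ⟨x, rfl⟩ := hs i hi
    obtain ⟨y, rfl⟩ := hs j hj
    refine ⟨x, y, fun hxy => h ?_⟩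
    rw [← he, ← he, hxy]

/-- direct indecomposability in terms of normal idempotents -/
theorem indec_iff (G : Type) [Group G] : Indecomposable G ↔ (∃ g : G, g ≠ 1) ∧
    ∀ φ : G →* G, (∀ x, φ (φ x) = φ x) → (∀ x k, φ k = 1 → φ x * k = k * φ x) →
      (∀ x, φ x = x) ∨ ∀ x, φ x = 1 := by
  constructor
  · rintro ⟨h0, h1⟩
    refine ⟨h0, fun φ hi hc => ?_⟩
    have hk : ∀ x, φ (x * (φ x)⁻¹) = 1 := by
      intro x
      rw [map_mul, map_inv, hi, mul_inv_cancel]
    have e : φ.range × φ.ker ≃* G :=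
      { toFun := fun z => z.2.1 * z.1.1
        invFun := fun x => (⟨φ x, x, rfl⟩, ⟨x * (φ x)⁻¹, hk x⟩)
        left_inv := by
          rintro ⟨⟨_, x, rfl⟩, ⟨k, hk⟩⟩
          have hk' : φ k = 1 := hk
          refine Prod.ext (Subtype.ext ?_) (Subtype.ext ?_)
          · show φ (k * φ x) = φ x
            rw [map_mul, hk', one_mul, hi]
          · show k * φ x * (φ (k * φ x))⁻¹ = k
            rw [map_mul, hk', one_mul, hi, mul_inv_cancel_right]
        right_inv := fun x => inv_mul_cancel_right x (φ x)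
        map_mul' := by
          rintro ⟨⟨_, x, rfl⟩, ⟨k, hk⟩⟩ ⟨⟨_, y, rfl⟩, ⟨l, hl⟩⟩
          have hl' : φ l = 1 := hl
          show k * l * (φ x * φ y) = k * φ x * (l * φ y)
          rw [mul_assoc, mul_assoc, ← mul_assoc l, ← mul_assoc (φ x), hc x l hl'] }
    rcases h1 _ _ ⟨e.symm⟩ with h2 | h2
    · exact Or.inr fun x => congrArg Subtype.val (h2 ⟨φ x, x, rfl⟩)
    · left
      intro x
      have h3 := congrArg Subtype.val (h2 ⟨x * (φ x)⁻¹, hk x⟩)
      exact (mul_inv_eq_one.1 h3).symm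
  · rintro ⟨h0, h1⟩
    refine ⟨h0, fun A B _ _ ⟨e⟩ => ?_⟩
    let φ : G →* G := e.symm.toMonoidHom.comp ((MonoidHom.inl A B).comp
      ((MonoidHom.fst A B).comp e.toMonoidHom))
    have hφ : ∀ x, φ x = e.symm ((e x).1, 1) := fun x => rfl
    rcases h1 φ (fun x => by rw [hφ, hφ, e.apply_symm_apply]) (fun x k hk => by
      rw [hφ] at hk ⊢
      apply e.injective
      rw [map_mul, map_mul, e.apply_symm_apply]
      have h2 : (e k).1 = 1 := by
        have h3 := congrArg e hk
        rw [e.apply_symm_apply, map_one] at h3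
        exact congrArg Prod.fst h3
      refine Prod.ext ?_ ?_
      · show (e x).1 * (e k).1 = (e k).1 * (e x).1
        rw [h2, mul_one, one_mul]
      · show 1 * (e k).2 = (e k).2 * 1
        rw [mul_one, one_mul]) with h2 | h2
    · right
      intro b
      have h3 := h2 (e.symm (1, b))
      rw [hφ, e.apply_symm_apply] at h3
      exact (congrArg Prod.snd (e.symm.injective h3)).symm
    · left
      intro a
      have h3 := h2 (e.symm (a, 1))
      rw [hφ, e.apply_symm_apply, ← map_one e.symm] at h3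
      exact congrArg Prod.fst (e.symm.injective h3)

/-- the table is directly indecomposable -/
def IndT (t : ℕ × ℕ) : Prop := 1 < t.1 ∧ ∀ c < t.1 ^ t.1,
  (∀ i < t.1, ∀ j < t.1, dg t.1 c (ml t i j) = ml t (dg t.1 c i) (dg t.1 c j)) →
  (∀ i < t.1, dg t.1 c (dg t.1 c i) = dg t.1 c i) →
  (∀ i < t.1, ∀ k < t.1, ml t (dg t.1 c k) (dg t.1 c k) = dg t.1 c k →
    ml t (dg t.1 c i) k = ml t k (dg t.1 c i)) →
  (∀ i < t.1, dg t.1 c i = i) ∨ ∀ i < t.1, ml t (dg t.1 c i) (dg t.1 c i) = dg t.1 c i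

theorem ind_iff {t : ℕ × ℕ} {G : Type} [Group G] (h : Tab t G) : Indecomposable G ↔ IndT t := by
  have hv := valid_of h
  obtain ⟨e, he⟩ := h
  obtain ⟨m, a⟩ := t
  have hs : ∀ i, i < m → ∃ g, (e g : ℕ) = i := fun i hi =>
    ⟨e.symm ⟨i, hi⟩, by rw [e.apply_symm_apply]⟩
  have hlt : ∀ c k, dg m c k < m := fun c k => Nat.mod_lt _ hv.1
  have hone : ∀ x : G, ml (m, a) (e x) (e x) = e x ↔ x = 1 := by
    intro x
    rw [← he]
    constructor
    · intro h
      exact mul_eq_left.1 (e.injective (Fin.ext h))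
    · rintro rfl
      rw [mul_one]
  rw [indec_iff]
  unfold IndT
  refine and_congr ?_ ?_
  · constructor
    · rintro ⟨g, hg⟩
      show 1 < m
      by_contra h
      have hm : m = 1 := by
        have := hv.1
        show m = 1
        have h0 : 0 < m := this
        omega
      subst hm
      exact hg (e.injective (Subsingleton.elim _ _))
    · intro h
      have h' : 1 < m := h
      by_contra hc
      push Not at hc
      have h3 : e.symm ⟨0, by omega⟩ = e.symm ⟨1, h'⟩ := (hc _).trans (hc _).symm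
      have h4 := congrArg Fin.val (e.symm.injective h3)
      simp at h4
  · constructor
    · intro H c _ h1 h2 h3
      let φ : G →* G := MonoidHom.mk' (fun g => e.symm ⟨dg m c (e g), hlt _ _⟩) (by
        intro x y
        rw [Equiv.symm_apply_eq]
        apply Fin.ext
        rw [he (e.symm _) (e.symm _), e.apply_symm_apply, e.apply_symm_apply]
        show dg m c (e (x * y)) = _
        rw [he]
        exact h1 _ (e x).2 _ (e y).2)
      have hφ : ∀ g, (e (φ g) : ℕ) = dg m c (e g) := by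
        intro g
        show ((e (e.symm ⟨dg m c (e g), hlt _ _⟩) : Fin m) : ℕ) = _
        rw [e.apply_symm_apply]
      rcases H φ (fun x => by
          apply e.injective
          apply Fin.ext
          rw [hφ, hφ]
          exact h2 _ (e x).2) (fun x k hk => by
          apply e.injective
          apply Fin.ext
          rw [he, he, hφ]
          refine h3 _ (e x).2 _ (e k).2 ?_
          show ml (m, a) (dg m c (e k)) (dg m c (e k)) = dg m c (e k)
          rw [← hφ, (hone _).2 hk]) with h4 | h4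
      · left
        intro i hi
        obtain ⟨x, rfl⟩ := hs i hi
        show dg m c (e x) = e x
        rw [← hφ, h4]
      · right
        intro i hi
        obtain ⟨x, rfl⟩ := hs i hi
        show ml (m, a) (dg m c (e x)) (dg m c (e x)) = dg m c (e x)
        rw [← hφ, (hone _).2 (h4 x)]
    · intro H φ h1 h2
      let F : Fin m → Fin m := fun i => e (φ (e.symm i))
      have hF : ∀ g, dg m (finFunctionFinEquiv F) (e g) = e (φ g) := by
        intro g
        rw [dg_fun F _ (e g).2]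
        show ((e (φ (e.symm (e g))) : Fin m) : ℕ) = _
        rw [e.symm_apply_apply]
      have k1 : ∀ i < (m, a).1, ∀ j < (m, a).1,
          dg (m, a).1 (finFunctionFinEquiv F) (ml (m, a) i j) =
            ml (m, a) (dg (m, a).1 (finFunctionFinEquiv F) i)
              (dg (m, a).1 (finFunctionFinEquiv F) j) := by
        intro i hi j hj
        obtain ⟨x, rfl⟩ := hs i hi
        obtain ⟨y, rfl⟩ := hs j hj
        show dg m (finFunctionFinEquiv F) (ml (m, a) (e x) (e y)) =
          ml (m, a) (dg m (finFunctionFinEquiv F) (e x)) (dg m (finFunctionFinEquiv F) (e y))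
        rw [← he, hF, hF, hF, map_mul, he]
      have k2 : ∀ i < (m, a).1, dg (m, a).1 (finFunctionFinEquiv F)
          (dg (m, a).1 (finFunctionFinEquiv F) i) = dg (m, a).1 (finFunctionFinEquiv F) i := by
        intro i hi
        obtain ⟨x, rfl⟩ := hs i hi
        show dg m (finFunctionFinEquiv F) (dg m (finFunctionFinEquiv F) (e x)) =
          dg m (finFunctionFinEquiv F) (e x)
        rw [hF, hF, h1]
      have k3 : ∀ i < (m, a).1, ∀ k < (m, a).1, ml (m, a) (dg (m, a).1 (finFunctionFinEquiv F) k)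
          (dg (m, a).1 (finFunctionFinEquiv F) k) = dg (m, a).1 (finFunctionFinEquiv F) k →
          ml (m, a) (dg (m, a).1 (finFunctionFinEquiv F) i) k =
            ml (m, a) k (dg (m, a).1 (finFunctionFinEquiv F) i) := by
        intro i hi k hk
        obtain ⟨x, rfl⟩ := hs i hi
        obtain ⟨y, rfl⟩ := hs k hk
        show ml (m, a) (dg m (finFunctionFinEquiv F) (e y)) (dg m (finFunctionFinEquiv F) (e y))
          = dg m (finFunctionFinEquiv F) (e y) →
          ml (m, a) (dg m (finFunctionFinEquiv F) (e x)) (e y) =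
            ml (m, a) (e y) (dg m (finFunctionFinEquiv F) (e x))
        rw [hF, hF, hone]
        intro h4
        rw [← he, ← he, h2 x y h4]
      rcases H (finFunctionFinEquiv F : ℕ) (finFunctionFinEquiv F).2 k1 k2 k3 with h3 | h3
      · left
        intro x
        have h4 : dg m (finFunctionFinEquiv F) (e x) = e x := h3 _ (e x).2
        rw [hF] at h4
        exact e.injective (Fin.ext h4)
      · right
        intro x
        have h4 : ml (m, a) (dg m (finFunctionFinEquiv F) (e x)) (dg m (finFunctionFinEquiv F) (e x))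
          = dg m (finFunctionFinEquiv F) (e x) := h3 _ (e x).2
        rw [hF] at h4
        exact (hone _).1 h4

end Pool.Agent.U181.IP.FinT
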