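import Pool.Agent.Q32.DP.KS

/-!
# A Fitting lemma for groups with finite centre

Let `K` be a directly indecomposable group with finite centre which is not abelian, and let `θ`, `θ'`
be endomorphisms of `K` with commuting images and `x = θ x * θ' x` for all `x`. Then `θ` or `θ'` is an
automorphism.
-/

set_option autoImplicit false

namespace Pool.Agent.U181.IP

open Pool.Agent.Q32.DP Function

/-- the centre is finite -/
def FinCen (G : Type) [Group G] : Prop := {z : G | ∀ g, z * g = g * z}.Finite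

/-- not abelian -/
def NonAb (G : Type) [Group G] : Prop := ∃ x y : G, x * y ≠ y * x

section iter

variable {K : Type} [Group K]

/-- iterates of an endomorphism -/
def itr (f : K →* K) : ℕ → (K →* K)
  | 0 => MonoidHom.id K
  | n + 1 => f.comp (itr f n)

theorem itr_apply (f : K →* K) (n : ℕ) (x : K) : itr f n x = f^[n] x := by
  induction n with
  | zero => rfl
  | succ n ih => rw [iterate_succ_apply', ← ih]; rfl

/-- an endomorphism with central values in a finite centre has an idempotent power -/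
theorem idem_pow (ψ : K →* K) (hc : ∀ x y, ψ x * y = y * ψ x) (hf : FinCen K) :
    ∃ N : ℕ, 1 ≤ N ∧ ∀ x, ψ^[N] (ψ^[N] x) = ψ^[N] x := by
  let Z : Set K := {z : K | ∀ g, z * g = g * z}
  have hZ : ∀ x, ψ x ∈ Z := fun x g => hc x g
  have : Finite Z := hf
  let F : ℕ → Z → Z := fun n z => ⟨ψ^[n] z.1, by
    cases n with
    | zero => exact z.2
    | succ n => rw [iterate_succ_apply']; exact hZ _⟩
  obtain ⟨a, b, hab, hF⟩ := Finite.exists_ne_map_eq_of_infinite F
  wlog hlt : a < b generalizing a b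
  · exact this b a hab.symm hF.symm (lt_of_le_of_ne (not_lt.1 hlt) hab.symm)
  obtain ⟨d, rfl⟩ : ∃ d, b = a + d := ⟨b - a, by omega⟩
  have hd : 1 ≤ d := by omega
  have h1 : ∀ z ∈ Z, ψ^[a + d] z = ψ^[a] z := by
    intro z hz
    have := congrArg Subtype.val (congrFun hF ⟨z, hz⟩)
    exact this.symm
  have h2 : ∀ m, a ≤ m → ∀ z ∈ Z, ψ^[m + d] z = ψ^[m] z := by
    intro m hm z hz
    obtain ⟨c, rfl⟩ : ∃ c, m = c + a := ⟨m - a, by omega⟩
    rw [add_assoc, iterate_add_apply, h1 z hz, ← iterate_add_apply]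
  have h3 : ∀ k m, a ≤ m → ∀ z ∈ Z, ψ^[m + k * d] z = ψ^[m] z := by
    intro k
    induction k with
    | zero => intro m _ z _; simp
    | succ k ih =>
      intro m hm z hz
      rw [Nat.succ_mul, ← add_assoc, h2 _ (by omega) z hz, ih m hm z hz]
  refine ⟨(a + 1) * d, by nlinarith, fun x => ?_⟩
  obtain ⟨n, hn⟩ : ∃ n, (a + 1) * d = n + 1 := ⟨(a + 1) * d - 1, by
    have : 1 ≤ (a + 1) * d := by nlinarith
    omega⟩
  have hna : a ≤ n := by
    have : a + 1 ≤ (a + 1) * d := by nlinarith
    omega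
  rw [← iterate_add_apply]
  have e1 : (a + 1) * d + (a + 1) * d = (n + (a + 1) * d) + 1 := by omega
  rw [e1, iterate_succ_apply, h3 _ _ hna _ (hZ x), ← iterate_succ_apply, Nat.succ_eq_add_one, ← hn]

end iter

section fit

variable {K : Type} [Group K] (θ θ' : K →* K) (h1 : ∀ x, θ x * θ' x = x)
  (h2 : ∀ x y, θ x * θ' y = θ' y * θ x)

include h1 in
theorem fit_comm (x : K) : θ (θ' x) = θ' (θ x) := by
  have e1 : θ (θ x) * θ (θ' x) = θ x := by rw [← map_mul, h1]
  have e2 := h1 (θ x)
  exact mul_left_cancel (e1.trans e2.symm)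

include h1 in
theorem fit_iter (i j : ℕ) (x : K) : θ^[i] (θ'^[j] x) = θ'^[j] (θ^[i] x) := by
  have hc : Function.Commute θ θ' := fun x => fit_comm θ θ' h1 x
  exact (hc.iterate_iterate i j) x

include h1 in
theorem fit_span (n : ℕ) (z : K) (S : Subgroup K) (hS : ∀ i j, i + j = n → θ^[i] (θ'^[j] z) ∈ S) :
    z ∈ S := by
  induction n with
  | zero => simpa using hS 0 0 rfl
  | succ n ih =>
    apply ih
    intro i j hij
    rw [← h1 (θ^[i] (θ'^[j] z))]
    refine S.mul_mem ?_ ?_
    · have := hS (i + 1) j (by omega)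
      rwa [iterate_succ_apply'] at this
    · have := hS i (j + 1) (by omega)
      rw [fit_iter θ θ' h1, iterate_succ_apply', ← fit_iter θ θ' h1] at this
      exact this

include h1 h2 in
theorem fit_central (x y : K) : θ (θ' x) * y = y * θ (θ' x) := by
  have e1 : θ (θ' x) * θ y = θ y * θ (θ' x) := by
    rw [fit_comm θ θ' h1]
    exact (h2 y (θ x)).symm
  have e2 : θ (θ' x) * θ' y = θ' y * θ (θ' x) := h2 (θ' x) y
  calc θ (θ' x) * y = θ (θ' x) * (θ y * θ' y) := by rw [h1]
    _ = (θ y * θ' y) * θ (θ' x) := by rw [← mul_assoc, e1, mul_assoc, e2, mul_assoc]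
    _ = y * θ (θ' x) := by rw [h1]

include h1 h2 in
theorem fit_nilp (hf : FinCen K) (hna : NonAb K) (hI : Indecomposable K) :
    ∃ N : ℕ, 1 ≤ N ∧ ∀ x, θ^[N] (θ'^[N] x) = 1 := by
  obtain ⟨N, hN, hid⟩ := idem_pow (θ.comp θ') (fit_central θ θ' h1 h2) hf
  refine ⟨N, hN, fun x => ?_⟩
  have hc : Function.Commute θ θ' := fun x => fit_comm θ θ' h1 x
  have hit : ∀ x, (θ.comp θ')^[N] x = θ^[N] (θ'^[N] x) := by
    intro x
    have := congrFun (hc.comp_iterate N) x
    exact this
  rw [← hit]
  have hcen : ∀ x y, itr (θ.comp θ') N x * y = y * itr (θ.comp θ') N x := by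
    intro x y
    rw [itr_apply]
    obtain ⟨m, rfl⟩ : ∃ m, N = m + 1 := ⟨N - 1, by omega⟩
    rw [iterate_succ_apply']
    exact fit_central θ θ' h1 h2 _ y
  have hs := KS.split (itr (θ.comp θ') N) (by
    intro x
    rw [itr_apply, itr_apply]
    exact hid x) (fun x y _ => hcen x y)
  rcases hI.2 _ _ hs with h | h
  · have := congrArg Subtype.val (h ⟨itr (θ.comp θ') N x, x, rfl⟩)
    rw [← itr_apply]
    exact this
  · exfalso
    obtain ⟨a, b, hab⟩ := hna
    apply hab
    have hinj : Injective (itr (θ.comp θ') N) := by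
      rw [injective_iff_map_eq_one]
      intro y hy
      exact congrArg Subtype.val (h ⟨y, hy⟩)
    apply hinj
    rw [map_mul, map_mul, hcen]

include h1 h2 in
/-- the Fitting lemma -/
theorem fitting (hf : FinCen K) (hna : NonAb K) (hI : Indecomposable K) :
    Bijective θ ∨ Bijective θ' := by
  obtain ⟨N, hN, hnil⟩ := fit_nilp θ θ' h1 h2 hf hna hI
  have hc := fit_iter θ θ' h1
  -- the kernels
  have hker : ∀ z, θ^[N] z = 1 → θ'^[N] z = 1 → z = 1 := by
    intro z hz hz'
    have : z ∈ (⊥ : Subgroup K) := by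
      refine fit_span θ θ' h1 (N + N) z ⊥ (fun i j hij => ?_)
      rw [Subgroup.mem_bot]
      by_cases hi : N ≤ i
      · obtain ⟨c, rfl⟩ : ∃ c, i = c + N := ⟨i - N, by omega⟩
        rw [iterate_add_apply, hc N j, hz, iterate_map_one, iterate_map_one]
      · obtain ⟨c, rfl⟩ : ∃ c, j = c + N := ⟨j - N, by omega⟩
        rw [iterate_add_apply, hz', iterate_map_one, iterate_map_one]
    simpa using this
  -- the ranges
  have hran : ∀ z, z ∈ (itr θ N).range ⊔ (itr θ' N).range := by
    intro z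
    refine fit_span θ θ' h1 (N + N) z _ (fun i j hij => ?_)
    by_cases hi : N ≤ i
    · obtain ⟨c, rfl⟩ : ∃ c, i = N + c := ⟨i - N, by omega⟩
      refine (le_sup_left : (itr θ N).range ≤ _) ?_
      rw [iterate_add_apply, ← itr_apply]
      exact ⟨_, rfl⟩
    · obtain ⟨c, rfl⟩ : ∃ c, j = N + c := ⟨j - N, by omega⟩
      refine (le_sup_right : (itr θ' N).range ≤ _) ?_
      rw [hc, iterate_add_apply, ← itr_apply]
      exact ⟨_, rfl⟩
  have hcomm : ∀ (a : (itr θ N).range) (b : (itr θ' N).range), Commute (a : K) (b : K) := by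
    rintro ⟨_, x, rfl⟩ ⟨_, y, rfl⟩
    obtain ⟨m, rfl⟩ : ∃ m, N = m + 1 := ⟨N - 1, by omega⟩
    exact h2 _ _
  let Φ : (itr θ N).range × (itr θ' N).range →* K :=
    MonoidHom.noncommCoprod (itr θ N).range.subtype (itr θ' N).range.subtype hcomm
  have hΦi : Injective Φ := by
    rw [injective_iff_map_eq_one]
    rintro ⟨⟨a, x, rfl⟩, ⟨b, y, rfl⟩⟩ hab
    have h3 : itr θ N x * itr θ' N y = 1 := hab
    have h4 : itr θ N x = (itr θ' N y)⁻¹ := eq_inv_of_mul_eq_one_left h3
    have h5 : itr θ N x = 1 := by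
      apply hker
      · rw [h4, ← map_inv, itr_apply]
        exact hnil _
      · rw [itr_apply, ← hc]
        exact hnil _
    have h6 : itr θ' N y = 1 := by
      rw [h5, one_mul] at h3
      exact h3
    exact Prod.ext (Subtype.ext h5) (Subtype.ext h6)
  have hΦs : Surjective Φ := by
    intro z
    have h3 : (itr θ N).range ⊔ (itr θ' N).range ≤ Φ.range := by
      apply sup_le
      · rintro a ha
        exact ⟨(⟨a, ha⟩, 1), mul_one a⟩
      · rintro a ha
        exact ⟨(1, ⟨a, ha⟩), one_mul a⟩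
    exact h3 (hran z)
  have hbij : ∀ f : K →* K, Bijective (f^[N]) → Bijective f := by
    intro f hb
    obtain ⟨m, rfl⟩ : ∃ m, N = m + 1 := ⟨N - 1, by omega⟩
    refine ⟨fun x y hxy => ?_, fun x => ?_⟩
    · apply hb.1
      rw [iterate_succ_apply, iterate_succ_apply, hxy]
    · obtain ⟨y, hy⟩ := hb.2 x
      rw [iterate_succ_apply'] at hy
      exact ⟨_, hy⟩
  rcases hI.2 _ _ ⟨(MulEquiv.ofBijective Φ ⟨hΦi, hΦs⟩).symm⟩ with h | h
  · right
    have hθ : ∀ x, θ^[N] x = 1 := by
      intro x
      rw [← itr_apply]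
      exact congrArg Subtype.val (h ⟨_, x, rfl⟩)
    apply hbij
    refine ⟨?_, ?_⟩
    · have : Injective (itr θ' N) := by
        rw [injective_iff_map_eq_one]
        intro z hz
        rw [itr_apply] at hz
        exact hker z (hθ z) hz
      intro x y hxy
      rw [← itr_apply, ← itr_apply] at hxy
      exact this hxy
    · intro z
      have h3 : (itr θ N).range = ⊥ := by
        rw [eq_bot_iff]
        rintro _ ⟨x, rfl⟩
        rw [itr_apply, hθ]
        exact one_mem _
      have h4 := hran z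
      rw [h3, bot_sup_eq] at h4
      obtain ⟨y, hy⟩ := h4
      exact ⟨y, by rw [← itr_apply]; exact hy⟩
  · left
    have hθ : ∀ x, θ'^[N] x = 1 := by
      intro x
      rw [← itr_apply]
      exact congrArg Subtype.val (h ⟨_, x, rfl⟩)
    apply hbij
    refine ⟨?_, ?_⟩
    · have : Injective (itr θ N) := by
        rw [injective_iff_map_eq_one]
        intro z hz
        rw [itr_apply] at hz
        exact hker z hz (hθ z)
      intro x y hxy
      rw [← itr_apply, ← itr_apply] at hxy
      exact this hxy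
    · intro z
      have h3 : (itr θ' N).range = ⊥ := by
        rw [eq_bot_iff]
        rintro _ ⟨x, rfl⟩
        rw [itr_apply, hθ]
        exact one_mem _
      have h4 := hran z
      rw [h3, sup_bot_eq] at h4
      obtain ⟨y, hy⟩ := h4
      exact ⟨y, by rw [← itr_apply]; exact hy⟩

end fit

end Pool.Agent.U181.IP
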