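import Pool.Agent.U181.IP.Fit

/-!
# The theorem of Krull, Remak and Schmidt for an abelian factor and nonabelian directly indecomposable
factors with finite centre
-/

set_option autoImplicit false

namespace Pool.Agent.U181.IP

open Pool.Agent.Q32.DP Function

section exch

variable {K M P Q : Type} [Group K] [Group M] [Group P] [Group Q]

/-- to the first factor and back -/
def th1 (e : K × M ≃* P × Q) : K →* K where
  toFun x := (e.symm ((e (x, 1)).1, 1)).1
  map_one' := by
    have : e ((1 : K), (1 : M)) = 1 := map_one e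
    rw [this]
    have h2 : e.symm ((1 : P × Q).1, 1) = 1 := map_one e.symm
    rw [h2]
    rfl
  map_mul' x y := by
    have h1 : e ((x * y, 1) : K × M) = e (x, 1) * e (y, 1) := by
      rw [← map_mul, Prod.mk_mul_mk, mul_one]
    have h2 : (((e (x, 1)).1 * (e (y, 1)).1, 1) : P × Q) = ((e (x, 1)).1, 1) * ((e (y, 1)).1, 1) := by
      rw [Prod.mk_mul_mk, mul_one]
    rw [h1, Prod.fst_mul, h2, map_mul]
    rfl

/-- to the second factor and back -/
def th2 (e : K × M ≃* P × Q) : K →* K := th1 (e.trans MulEquiv.prodComm)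

theorem th2_apply (e : K × M ≃* P × Q) (x : K) : th2 e x = (e.symm (1, (e (x, 1)).2)).1 := rfl

theorem th_mul (e : K × M ≃* P × Q) (x : K) : th1 e x * th2 e x = x := by
  rw [th2_apply]
  change (e.symm ((e (x, 1)).1, 1)).1 * (e.symm (1, (e (x, 1)).2)).1 = x
  rw [← Prod.fst_mul, ← map_mul, Prod.mk_mul_mk, mul_one, one_mul, Prod.mk.eta,
    MulEquiv.symm_apply_apply]

theorem th_comm (e : K × M ≃* P × Q) (x y : K) : th1 e x * th2 e y = th2 e y * th1 e x := by
  rw [th2_apply]
  change (e.symm ((e (x, 1)).1, 1)).1 * (e.symm (1, (e (y, 1)).2)).1 =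
    (e.symm (1, (e (y, 1)).2)).1 * (e.symm ((e (x, 1)).1, 1)).1
  rw [← Prod.fst_mul, ← map_mul, ← Prod.fst_mul, ← map_mul, Prod.mk_mul_mk, Prod.mk_mul_mk, mul_one,
    one_mul, one_mul, mul_one]

/-- exchange -/
theorem exch (e : K × M ≃* P × Q) (hb : Bijective (th1 e)) :
    ∃ (R : Type) (_ : Group R), Nonempty (P ≃* K × R) ∧ Nonempty (M ≃* R × Q) := by
  let v : P →* K := (MonoidHom.fst K M).comp ((e.symm : P × Q →* K × M).comp (MonoidHom.inl P Q))
  let u : K →* P := (MonoidHom.fst P Q).comp ((e : K × M →* P × Q).comp (MonoidHom.inl K M))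
  have hvu : ∀ x, v (u x) = th1 e x := fun x => rfl
  have hcomm : ∀ (k : K) (r : v.ker), Commute (u k) (r : P) := by
    rintro k ⟨r, hr⟩
    have h1 : e.symm (r, 1) = (1, (e.symm (r, 1)).2) := Prod.ext hr rfl
    have h2 : (k, (1 : M)) * e.symm (r, 1) = e.symm (r, 1) * (k, 1) := by
      rw [h1, Prod.mk_mul_mk, Prod.mk_mul_mk, mul_one, one_mul, one_mul, mul_one]
    have h3 := congrArg e h2
    rw [map_mul, map_mul, MulEquiv.apply_symm_apply] at h3
    exact congrArg Prod.fst h3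
  refine ⟨v.ker, inferInstance, ⟨MulEquiv.symm (MulEquiv.ofBijective
    (MonoidHom.noncommCoprod u v.ker.subtype hcomm) ⟨?_, ?_⟩)⟩, ⟨MulEquiv.symm
    (MulEquiv.ofBijective ((MonoidHom.snd K M).comp ((e.symm : P × Q →* K × M).comp
      (v.ker.subtype.prodMap (MonoidHom.id Q)))) ⟨?_, ?_⟩)⟩⟩
  · rw [injective_iff_map_eq_one]
    rintro ⟨k, ⟨r, hr⟩⟩ h
    have h1 : u k * r = 1 := h
    have h2 : th1 e k = 1 := by
      have h3 := congrArg v h1
      rw [map_mul, hvu, map_one, (show v r = 1 from hr), mul_one] at h3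
      exact h3
    have h3 : k = 1 := hb.1 (h2.trans (map_one _).symm)
    subst h3
    rw [map_one, one_mul] at h1
    exact Prod.ext rfl (Subtype.ext h1)
  · intro p
    obtain ⟨k, hk⟩ := hb.2 (v p)
    have hr : (u k)⁻¹ * p ∈ v.ker := by
      rw [MonoidHom.mem_ker, map_mul, map_inv, hvu, hk, inv_mul_cancel]
    refine ⟨(k, ⟨(u k)⁻¹ * p, hr⟩), ?_⟩
    change u k * ((u k)⁻¹ * p) = p
    rw [mul_inv_cancel_left]
  · rw [injective_iff_map_eq_one]
    rintro ⟨⟨r, hr⟩, q⟩ h
    have h1 : (e.symm (r, q)).2 = 1 := h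
    have h2 : e.symm (r, q) = ((e.symm (r, q)).1, 1) := Prod.ext rfl h1
    have h3 : (r, q) = e ((e.symm (r, q)).1, 1) := by rw [← h2, MulEquiv.apply_symm_apply]
    have h4 : r = u (e.symm (r, q)).1 := congrArg Prod.fst h3
    have h5 : th1 e (e.symm (r, q)).1 = 1 := by
      rw [← hvu, ← h4]
      exact hr
    have h6 : (e.symm (r, q)).1 = 1 := hb.1 (h5.trans (map_one _).symm)
    have h7 : (r, q) = 1 := by
      rw [h3, h6]
      exact map_one e
    have h8 : q = 1 := congrArg Prod.snd h7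
    exact Prod.ext (Subtype.ext (congrArg Prod.fst h7)) h8
  · intro m
    obtain ⟨k, hk⟩ := hb.2 (v (e (1, m)).1)
    have hr : (e (1, m)).1 * (u k)⁻¹ ∈ v.ker := by
      rw [MonoidHom.mem_ker, map_mul, map_inv, hvu, hk, mul_inv_cancel]
    refine ⟨(⟨(e (1, m)).1 * (u k)⁻¹, hr⟩, (e (1, m)).2 * ((e (k, 1)).2)⁻¹), ?_⟩
    change (e.symm ((e (1, m)).1 * (u k)⁻¹, (e (1, m)).2 * ((e (k, 1)).2)⁻¹)).2 = m
    have h1 : ((e (1, m)).1 * (u k)⁻¹, (e (1, m)).2 * ((e (k, 1)).2)⁻¹) =
        e (1, m) * (e (k, 1))⁻¹ := rfl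
    rw [h1, map_mul, map_inv, MulEquiv.symm_apply_apply, MulEquiv.symm_apply_apply, Prod.snd_mul,
      Prod.snd_inv]
    simp

/-- a factor as in the lemma of Fitting can be exchanged with one of two groups -/
theorem exch2 (hf : FinCen K) (hna : NonAb K) (hI : Indecomposable K) (e : K × M ≃* P × Q) :
    (∃ (R : Type) (_ : Group R), Nonempty (P ≃* K × R) ∧ Nonempty (M ≃* R × Q)) ∨
    (∃ (R : Type) (_ : Group R), Nonempty (Q ≃* K × R) ∧ Nonempty (M ≃* R × P)) := by
  rcases fitting (th1 e) (th2 e) (th_mul e) (th_comm e) hf hna hI with h | h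
  · exact Or.inl (exch e h)
  · exact Or.inr (exch (e.trans MulEquiv.prodComm) h)

end exch

section fin

/-- reindexing -/
def pc {m n : ℕ} (L : Fin n → Type) [∀ j, Group (L j)] {f g : Fin m → Fin n}
    (h : f = g) : (∀ i, L (f i)) ≃* (∀ i, L (g i)) := by
  subst h
  exact MulEquiv.refl _

/-- splitting off the first factor -/
def consP {n : ℕ} (L : Fin (n + 1) → Type) [∀ j, Group (L j)] :
    (∀ j, L j) ≃* L 0 × (∀ i : Fin n, L i.succ) where
  toFun x := (x 0, fun i => x i.succ)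
  invFun y := Fin.cons y.1 y.2
  left_inv x := by
    funext i
    refine Fin.cases rfl (fun j => rfl) i
  right_inv y := rfl
  map_mul' x y := rfl

/-- a trivial direct factor -/
def trivL {R Q : Type} [Group R] [Group Q] (h : ∀ r : R, r = 1) : R × Q ≃* Q where
  toFun := fun x => x.2
  invFun := fun x => (1, x)
  left_inv := fun _ => Prod.ext (h _).symm rfl
  right_inv := fun _ => rfl
  map_mul' := fun _ _ => rfl

theorem no_ab {K R Q : Type} [Group K] [Group R] [Group Q] (hna : NonAb K)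
    (hQ : ∀ x y : Q, x * y = y * x) (e : K × R ≃* Q) : False := by
  obtain ⟨x, y, hxy⟩ := hna
  apply hxy
  have h1 : ((x, 1) : K × R) * (y, 1) = (y, 1) * (x, 1) := by
    apply e.injective
    rw [map_mul, map_mul, hQ]
  exact congrArg Prod.fst h1

theorem ab_zero {A' : Type} [Group A'] (hA : ∀ x y : A', x * y = y * x) (L : Fin 0 → Type)
    [∀ j, Group (L j)] (x y : A' × (∀ j, L j)) : x * y = y * x :=
  Prod.ext (hA _ _) (funext fun i => i.elim0)

theorem exch_fin : ∀ (n : ℕ) (K M A' : Type) [Group K] [Group M] [Group A']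
    (L : Fin (n + 1) → Type) [∀ j, Group (L j)], FinCen K → NonAb K → Indecomposable K →
    (∀ x y : A', x * y = y * x) → (∀ j, Indecomposable (L j)) →
    Nonempty (K × M ≃* A' × (∀ j, L j)) →
    ∃ j : Fin (n + 1), Nonempty (L j ≃* K) ∧
      Nonempty (M ≃* A' × (∀ i : Fin n, L (j.succAbove i))) := by
  intro n
  induction n with
  | zero =>
    intro K M A' _ _ _ L _ hf hna hI hA hL he
    obtain ⟨e⟩ := he
    have e1 : A' × (∀ j, L j) ≃* L 0 × (A' × (∀ i : Fin 0, L i.succ)) :=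
      ((MulEquiv.refl A').prodCongr (consP L)).trans
        (MulEquiv.prodAssoc.symm.trans ((MulEquiv.prodComm.prodCongr (MulEquiv.refl _)).trans
          MulEquiv.prodAssoc))
    rcases exch2 hf hna hI (e.trans e1) with ⟨R, iR, ⟨a⟩, ⟨b⟩⟩ | ⟨R, iR, ⟨a⟩, ⟨b⟩⟩
    · have hR : ∀ r : R, r = 1 := by
        rcases (hL 0).2 K R ⟨a⟩ with h | h
        · obtain ⟨x, y, hxy⟩ := hna
          exact absurd (by rw [h x, h y]) hxy
        · exact h
      refine ⟨0, ⟨a.trans (MulEquiv.prodComm.trans (trivL hR))⟩, ⟨(b.trans (trivL hR)).trans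
        ((MulEquiv.refl _).prodCongr (pc L (funext fun i => i.elim0)))⟩⟩
    · exact (no_ab hna (ab_zero hA (fun i : Fin 0 => L i.succ)) a.symm).elim
  | succ n ih =>
    intro K M A' _ _ _ L _ hf hna hI hA hL he
    obtain ⟨e⟩ := he
    have e1 : ∀ (m : ℕ) (L : Fin (m + 1) → Type) [∀ j, Group (L j)],
        Nonempty (A' × (∀ j, L j) ≃* L 0 × (A' × (∀ i : Fin m, L i.succ))) := fun m L _ =>
      ⟨((MulEquiv.refl A').prodCongr (consP L)).trans
        (MulEquiv.prodAssoc.symm.trans ((MulEquiv.prodComm.prodCongr (MulEquiv.refl _)).trans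
          MulEquiv.prodAssoc))⟩
    obtain ⟨e2⟩ := e1 (n + 1) L
    rcases exch2 hf hna hI (e.trans e2) with ⟨R, iR, ⟨a⟩, ⟨b⟩⟩ | ⟨R, iR, ⟨a⟩, ⟨b⟩⟩
    · have hR : ∀ r : R, r = 1 := by
        rcases (hL 0).2 K R ⟨a⟩ with h | h
        · obtain ⟨x, y, hxy⟩ := hna
          exact absurd (by rw [h x, h y]) hxy
        · exact h
      refine ⟨0, ⟨a.trans (MulEquiv.prodComm.trans (trivL hR))⟩, ⟨(b.trans (trivL hR)).trans
        ((MulEquiv.refl _).prodCongr (pc L (funext fun i => by rw [Fin.zero_succAbove])))⟩⟩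
    · obtain ⟨j, ⟨c⟩, ⟨d⟩⟩ := ih K R A' (fun i => L i.succ) hf hna hI hA (fun j => hL _) ⟨a.symm⟩
      refine ⟨j.succ, ⟨c⟩, ⟨?_⟩⟩
      have f1 : M ≃* L 0 × (A' × (∀ i : Fin n, L (j.succAbove i).succ)) :=
        b.trans (MulEquiv.prodComm.trans ((MulEquiv.refl _).prodCongr d))
      have f2 : L 0 × (A' × (∀ i : Fin n, L (j.succAbove i).succ)) ≃*
          A' × (L 0 × (∀ i : Fin n, L (j.succAbove i).succ)) :=
        MulEquiv.prodAssoc.symm.trans ((MulEquiv.prodComm.prodCongr (MulEquiv.refl _)).trans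
          MulEquiv.prodAssoc)
      let g : Fin (n + 1) → Fin (n + 2) := Fin.cons 0 (fun i => (j.succAbove i).succ)
      have f3 : (L 0 × (∀ i : Fin n, L (j.succAbove i).succ)) ≃* (∀ i, L (g i)) :=
        (consP (fun i => L (g i))).symm
      exact (f1.trans f2).trans ((MulEquiv.refl _).prodCongr (f3.trans (pc L (by
        funext i
        refine Fin.cases ?_ (fun i => ?_) i
        · exact (Fin.succ_succAbove_zero j).symm
        · exact (Fin.succ_succAbove_succ j i).symm))))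

/-- nonabelian, directly indecomposable, with finite centre -/
def DFac (G : Type) [Group G] : Prop := FinCen G ∧ NonAb G ∧ Indecomposable G

/-- **Krull, Remak, Schmidt** -/
theorem krs : ∀ (m n : ℕ) (A A' : Type) [Group A] [Group A'] (K : Fin m → Type) (L : Fin n → Type)
    [∀ i, Group (K i)] [∀ j, Group (L j)], (∀ x y : A, x * y = y * x) →
    (∀ x y : A', x * y = y * x) → (∀ i, DFac (K i)) → (∀ j, DFac (L j)) →
    Nonempty (A × (∀ i, K i) ≃* A' × (∀ j, L j)) →
    Nonempty (A ≃* A') ∧ ∃ σ : Fin m ≃ Fin n, ∀ i, Nonempty (K i ≃* L (σ i)) := by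
  intro m
  induction m with
  | zero =>
    intro n A A' _ _ K L _ _ hA hA' hK hL he
    obtain ⟨e⟩ := he
    cases n with
    | zero =>
      have t1 : ∀ (B : Type) [Group B] (N : Fin 0 → Type) [∀ i, Group (N i)],
          Nonempty (B × (∀ i, N i) ≃* B) := fun B _ N _ =>
        ⟨MulEquiv.prodComm.trans (trivL (fun r => funext fun i => i.elim0))⟩
      obtain ⟨a⟩ := t1 A K
      obtain ⟨b⟩ := t1 A' L
      exact ⟨⟨a.symm.trans (e.trans b)⟩, Equiv.refl _, fun i => i.elim0⟩
    | succ n =>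
      exfalso
      have e1 : L 0 × (A' × (∀ i : Fin n, L i.succ)) ≃* A' × (∀ j, L j) :=
        (((MulEquiv.refl A').prodCongr (consP L)).trans
        (MulEquiv.prodAssoc.symm.trans ((MulEquiv.prodComm.prodCongr (MulEquiv.refl _)).trans
          MulEquiv.prodAssoc))).symm
      exact no_ab (hL 0).2.1 (ab_zero hA K) (e1.trans e.symm)
  | succ m ih =>
    intro n A A' _ _ K L _ _ hA hA' hK hL he
    obtain ⟨e⟩ := he
    have e1 : K 0 × (A × (∀ i : Fin m, K i.succ)) ≃* A × (∀ j, K j) :=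
      (((MulEquiv.refl A).prodCongr (consP K)).trans
        (MulEquiv.prodAssoc.symm.trans ((MulEquiv.prodComm.prodCongr (MulEquiv.refl _)).trans
          MulEquiv.prodAssoc))).symm
    cases n with
    | zero => exact (no_ab (hK 0).2.1 (ab_zero hA' L) (e1.trans e)).elim
    | succ n =>
      obtain ⟨j, ⟨c⟩, ⟨d⟩⟩ := exch_fin n (K 0) (A × (∀ i : Fin m, K i.succ)) A' L (hK 0).1
        (hK 0).2.1 (hK 0).2.2 hA' (fun j => (hL j).2.2) ⟨e1.trans e⟩
      obtain ⟨h1, σ, hσ⟩ := ih n A A' (fun i => K i.succ) (fun i => L (j.succAbove i)) hA hA'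
        (fun i => hK _) (fun i => hL _) ⟨d⟩
      refine ⟨h1, ((finSuccEquiv' 0).trans (Equiv.optionCongr σ)).trans (finSuccEquiv' j).symm, ?_⟩
      intro i
      refine Fin.cases ?_ (fun i => ?_) i
      · have : (((finSuccEquiv' 0).trans (Equiv.optionCongr σ)).trans (finSuccEquiv' j).symm)
            (0 : Fin (m + 1)) = j := by simp
        rw [this]
        exact ⟨c.symm⟩
      · have : (((finSuccEquiv' 0).trans (Equiv.optionCongr σ)).trans (finSuccEquiv' j).symm)
            i.succ = j.succAbove (σ i) := by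
          have h0 : finSuccEquiv' (0 : Fin (m + 1)) i.succ = some i := by
            have := finSuccEquiv'_succAbove (0 : Fin (m + 1)) i
            rwa [Fin.zero_succAbove] at this
          simp [h0]
        rw [this]
        exact hσ i

end fin

end Pool.Agent.U181.IP
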