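import Pool.Agent.U181.IP.Bs
import Pool.Agent.Q281.KG.Kurosh

/-!
# Freely indecomposable subgroups of free products, torsion allowed

The theorem of Kurosh for subgroups which are not free products and not infinite cyclic.
-/

set_option autoImplicit false

namespace Pool.Agent.U181.IP

open Pool.Agent.H599R3.RH Monoid

section

variable {G V E : Type} [Group G] [MulAction G V] [MulAction G E] {T : Tree G V E}

/-- translates of `e` between `τ` and `u` -/
def SS (T : Tree G V E) (e : E) (τ u : V) : Set E := {f | (∃ k : G, k • e = f) ∧ f ∈ sep T τ u}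

/-- those between `τ` and `f` -/
def PP (T : Tree G V E) (e : E) (τ u : V) (f : E) : Set E :=
  {f' | f' ∈ SS T e τ u ∧ f' ≠ f ∧ ¬ (side T f' τ ↔ side T f' (T.d0 f))}

theorem fin_PP (e : E) (τ u : V) (f : E) : (PP T e τ u f).Finite :=
  (fin_sep T τ u).subset fun _ h => h.1.2

theorem PP_total {e : E} {τ u : V} {f1 f2 : E} (h1 : f1 ∈ SS T e τ u) (h2 : f2 ∈ SS T e τ u)
    (hne : f1 ≠ f2) : (f1 ∈ PP T e τ u f2 ∨ f2 ∈ PP T e τ u f1) ∧
      ¬ (f1 ∈ PP T e τ u f2 ∧ f2 ∈ PP T e τ u f1) := by
  have q1 := quad T hne τ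
  have q2 := quad T hne u
  have s1 : ¬ (side T f1 τ ↔ side T f1 u) := h1.2
  have s2 : ¬ (side T f2 τ ↔ side T f2 u) := h2.2
  constructor
  · by_cases h : side T f1 τ ↔ side T f1 (T.d0 f2)
    · right
      refine ⟨h2, hne.symm, ?_⟩
      intro h'
      rcases q2 with q2 | q2
      · exact s1 (h.trans q2.symm)
      · exact s2 (h'.trans q2.symm)
    · left
      exact ⟨h1, hne, h⟩
  · rintro ⟨a, b⟩
    rcases q1 with q1 | q1
    · exact a.2.2 q1
    · exact b.2.2 q1

theorem PP_trans {e : E} {τ u : V} {f' f1 f2 : E} (h1 : f' ∈ PP T e τ u f1)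
    (h2 : f1 ∈ PP T e τ u f2) : f' ∈ PP T e τ u f2 := by
  have hne' : f' ≠ f2 := by
    rintro rfl
    exact (PP_total h1.1 h2.1 h1.2.1).2 ⟨h1, h2⟩
  refine ⟨h1.1, hne', ?_⟩
  have hn : ¬ f1 ∈ PP T e τ u f' := fun h => (PP_total h1.1 h2.1 h1.2.1).2 ⟨h1, h⟩
  have a1 : side T f1 τ ↔ side T f1 (T.d0 f') := by
    by_contra h
    exact hn ⟨h2.1, h1.2.1.symm, h⟩
  have q := quad T h1.2.1.symm (T.d0 f2)
  have a2 := h2.2.2
  have a3 := h1.2.2
  clear hn h1 h2
  tauto

theorem PP_lt {e : E} {τ u : V} {f1 f2 : E} (h : f1 ∈ PP T e τ u f2) :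
    (PP T e τ u f1).ncard < (PP T e τ u f2).ncard := by
  apply Set.ncard_lt_ncard _ (fin_PP e τ u f2)
  refine ⟨fun f hf => PP_trans hf h, fun hsub => ?_⟩
  exact (hsub h).2.1 rfl

theorem SS_smul {e : E} {τ u : V} {h : G} (hτ : h • τ = τ) (hu : ∀ g : G, Sim T e (g • u) u)
    {f : E} (hf : f ∈ SS T e τ u) : h • f ∈ SS T e τ u := by
  obtain ⟨⟨k, rfl⟩, hf⟩ := hf
  refine ⟨⟨h * k, mul_smul _ _ _⟩, ?_⟩
  have h0 : h⁻¹ • τ = τ := by rw [inv_smul_eq_iff, hτ]
  have e1 : side T (h • k • e) τ ↔ side T (k • e) τ := by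
    have := side_smul T h (k • e) (h⁻¹ • τ)
    rwa [smul_inv_smul, h0] at this
  have e2 : side T (h • k • e) u ↔ side T (k • e) u := by
    have := side_smul T h (k • e) (h⁻¹ • u)
    rw [smul_inv_smul] at this
    exact this.trans (hu _ k)
  show ¬ (side T (h • k • e) τ ↔ side T (h • k • e) u)
  rw [e1, e2]
  exact hf

theorem PP_smul {e : E} {τ u : V} {h : G} (hτ : h • τ = τ) (hu : ∀ g : G, Sim T e (g • u) u)
    (f : E) : (PP T e τ u f).ncard ≤ (PP T e τ u (h • f)).ncard := by
  have h0 : h⁻¹ • τ = τ := by rw [inv_smul_eq_iff, hτ]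
  refine Set.ncard_le_ncard_of_injOn (fun x => h • x) ?_ (fun x _ y _ hxy => smul_left_cancel h hxy)
    (fin_PP e τ u (h • f))
  rintro f' ⟨h1, h2, h3⟩
  refine ⟨SS_smul hτ hu h1, fun hh => h2 (smul_left_cancel h hh), ?_⟩
  have e1 : side T (h • f') τ ↔ side T f' τ := by
    have := side_smul T h f' (h⁻¹ • τ)
    rwa [smul_inv_smul, h0] at this
  show ¬ (side T (h • f') τ ↔ side T (h • f') (T.d0 (h • f)))
  rw [e1, T.s0, side_smul]
  exact h3

theorem step1 (hs : ¬ Splits G) (hc : ¬ ICyc G) (e : E) (he : ∀ g : G, g • e = e → g = 1)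
    (τ : V) (h : G) (h1 : h ≠ 1) (hτ : h • τ = τ) (g : G) : Sim T e (g • τ) τ := by
  obtain ⟨u, hu⟩ := ((bs (T := T) e he).resolve_left hs).resolve_left hc
  have hτu : Sim T e τ u := by
    by_contra hcon
    unfold Sim at hcon
    push Not at hcon
    obtain ⟨k, hk⟩ := hcon
    have hk' : ¬ (side T (k • e) τ ↔ side T (k • e) u) := by tauto
    have hS : k • e ∈ SS T e τ u := ⟨⟨k, rfl⟩, hk'⟩
    have hS' := SS_smul hτ hu hS
    have h0 : h⁻¹ • τ = τ := by rw [inv_smul_eq_iff, hτ]
    have c1 := PP_smul hτ hu (k • e)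
    have c2 := PP_smul h0 hu (h • k • e)
    rw [inv_smul_smul] at c2
    have heq : h • k • e = k • e := by
      by_contra hne
      rcases (PP_total hS' hS hne).1 with h3 | h3
      · have := PP_lt h3
        omega
      · have := PP_lt h3
        omega
    apply h1
    have h4 := he (k⁻¹ * h * k) (by rw [mul_smul, mul_smul, heq, inv_smul_smul])
    have h5 : h = k * (k⁻¹ * h * k) * k⁻¹ := by group
    rw [h5, h4]
    group
  exact ((hτu.smul g).trans (hu g)).trans hτu.symm

/-- points of a convex class and separating edges -/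
theorem free_case (T : Tree G V E)
    (hf : ∀ (v : V) (g : G), g • v = v → g = 1) (v0 : V) (g0 : G) (hg0 : g0 ≠ 1) :
    Splits G ∨ ICyc G := by
  classical
  by_contra hcon
  push Not at hcon
  obtain ⟨hs, hc⟩ := hcon
  -- minimal pair
  have hex : ∃ n, ∃ (v : V) (g : G), g ≠ 1 ∧ (sep T v (g • v)).ncard = n :=
    ⟨_, v0, g0, hg0, rfl⟩
  obtain ⟨v, g, hg1, hn⟩ := Nat.find_spec hex
  have hmin : ∀ (v' : V) (g' : G), g' ≠ 1 → (sep T v (g • v)).ncard ≤ (sep T v' (g' • v')).ncard := by
    intro v' g' hg'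
    rw [hn]
    exact Nat.find_min' hex ⟨v', g', hg', rfl⟩
  have hne : ∃ e, ¬ (side T e v ↔ side T e (g • v)) := by
    by_contra h
    push Not at h
    have := eq_of_unsep T (u := v) (v := g • v) (by intro e; have := h e; tauto)
    exact hg1 (hf v g this.symm)
  obtain ⟨e, he⟩ := hne
  have hefree : ∀ k : G, k • e = e → k = 1 := by
    intro k hk
    apply hf (T.d0 e)
    rw [← T.s0, hk]
  obtain ⟨u, hu⟩ := ((bs (T := T) e hefree).resolve_left hs).resolve_left hc
  -- nearest point of the class of `u`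
  have hex2 : ∃ n, ∃ y : V, Sim T e y u ∧ (sep T v y).ncard = n := ⟨_, u, Sim.refl _ _, rfl⟩
  obtain ⟨y, hy, hny⟩ := Nat.find_spec hex2
  have hymin : ∀ y', Sim T e y' u → (sep T v y).ncard ≤ (sep T v y').ncard := by
    intro y' hy'
    rw [hny]
    exact Nat.find_min' hex2 ⟨y', hy', rfl⟩
  have claimN : ∀ f ∈ sep T v y, ∀ k, Sim T e k u → (side T f k ↔ side T f y) := by
    intro f hfs k hk
    by_contra hky
    -- endpoint of `f` on the side of `v`
    have hfO : ∀ k' : G, k' • e ≠ f := by
      rintro k' rfl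
      exact hky ((hk.trans hy.symm) k')
    obtain ⟨z, hz1, hz2⟩ : ∃ z, (side T f z ↔ side T f v) ∧
        ∀ s, s ≠ f → (side T s z ↔ side T s (T.d0 f)) := by
      by_cases hfv : side T f v
      · exact ⟨T.d1 f, by simp [side1 T f, hfv], fun s hs' => side_ne T hs'.symm⟩
      · exact ⟨T.d0 f, by simp [side0 T f, hfv], fun s _ => Iff.rfl⟩
    have hzsim : Sim T e z u := by
      intro k'
      have hne' : k' • e ≠ f := hfO k'
      rw [hz2 _ hne']
      have q1 := quad T hne' y
      have q2 := quad T hne' k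
      have h3 := hk k'
      have h4 := hy k'
      clear * - q1 q2 h3 h4 hky
      tauto
    have hlt : (sep T v z).ncard < (sep T v y).ncard := by
      apply Set.ncard_lt_ncard _ (fin_sep T v y)
      refine ⟨?_, ?_⟩
      · intro s hsz
        have hsf : s ≠ f := by
          rintro rfl
          exact hsz hz1.symm
        simp only [sep, Set.mem_setOf_eq] at hsz hfs ⊢
        have q1 := quad T hsf v
        have q2 := quad T hsf y
        have h3 := hz2 s hsf
        clear * - q1 q2 h3 hsz hfs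
        tauto
      · intro hsub
        have := hsub hfs
        exact this hz1.symm
    have := hymin z hzsim
    omega
  have hgy : Sim T e (g • y) u := ((hy.smul g).trans (hu g))
  have hgy' : Sim T e (g⁻¹ • y) u := ((hy.smul g⁻¹).trans (hu g⁻¹))
  have hlt : (sep T y (g • y)).ncard < (sep T v (g • v)).ncard := by
    apply Set.ncard_lt_ncard _ (fin_sep T v (g • v))
    refine ⟨?_, ?_⟩
    · intro f hfy
      by_contra hfv
      simp only [sep, Set.mem_setOf_eq, not_not] at hfy hfv
      by_cases h1 : f ∈ sep T v y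
      · have := claimN f h1 (g • y) hgy
        tauto
      · have h2 : g⁻¹ • f ∈ sep T v y := by
          simp only [sep, Set.mem_setOf_eq, not_not] at h1 ⊢
          rw [← side_smul', ← side_smul']
          tauto
        have := claimN _ h2 (g⁻¹ • y) hgy'
        rw [side_smul, ← side_smul'] at this
        tauto
    · intro hsub
      have h1 : e ∈ sep T y (g • y) := hsub he
      apply h1
      have := (hy.trans hgy.symm) 1
      rwa [one_smul] at this
  have := hmin y g hg1
  omega


end

section tree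

open Pool.Agent.Q281.KG

variable {C D A : Type} [Group C] [Group D] [Group A]

/-- **Kurosh theorem for indecomposable subgroups of free products** -/
theorem kurosh (f : A →* Coprod C D) (hf : Function.Injective f)
    (hs : ¬ Splits A) (hc : ¬ ICyc A) (hnt : ∃ g0 : A, g0 ≠ 1) :
    (∃ g, ∀ x, ∃ c : C, f x = g * Coprod.inl c * g⁻¹) ∨
    (∃ g, ∀ x, ∃ d : D, f x = g * Coprod.inr d * g⁻¹) := by
  let iV := actV f
  let iE := actE f
  have hE : ∀ (x : A) (e : Coprod C D), x • e = f x * e := fun _ _ => rfl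
  have hVl : ∀ (x : A) (g : Coprod C D), x • (Sum.inl (g : Coprod C D ⧸ LC C D) : Vx C D) =
    Sum.inl ((f x * g : Coprod C D) : Coprod C D ⧸ LC C D) := fun _ _ => rfl
  have hVr : ∀ (x : A) (g : Coprod C D), x • (Sum.inr (g : Coprod C D ⧸ RD C D) : Vx C D) =
    Sum.inr ((f x * g : Coprod C D) : Coprod C D ⧸ RD C D) := fun _ _ => rfl
  have he : ∀ (e : Coprod C D) (x : A), x • e = e → x = 1 := by
    intro e x h
    apply hf
    rw [hE] at h
    rw [map_one]
    exact mul_eq_right.1 h
  by_cases hfix : ∃ (v : Vx C D) (x : A), x ≠ 1 ∧ x • v = v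
  · obtain ⟨v, x, hx1, hx⟩ := hfix
    have hall : ∀ y : A, y • v = v := by
      intro y
      apply eq_of_unsep (tree f)
      intro e
      have := step1 (T := tree f) hs hc e (he e) v x hx1 hx y 1
      rwa [one_smul] at this
    rcases v with v | v
    · left
      induction v using QuotientGroup.induction_on with
      | H g =>
        refine ⟨g, fun y => ?_⟩
        have h1 := hall y
        rw [hVl] at h1
        have h2 := (QuotientGroup.eq.1 (Sum.inl_injective h1).symm)
        obtain ⟨c, hc⟩ := h2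
        exact ⟨c, by rw [hc]; group⟩
    · right
      induction v using QuotientGroup.induction_on with
      | H g =>
        refine ⟨g, fun y => ?_⟩
        have h1 := hall y
        rw [hVr] at h1
        have h2 := (QuotientGroup.eq.1 (Sum.inr_injective h1).symm)
        obtain ⟨c, hc⟩ := h2
        exact ⟨c, by rw [hc]; group⟩
  · exfalso
    push Not at hfix
    obtain ⟨g0, hg0⟩ := hnt
    rcases free_case (tree f) (fun v g hg => by
      by_contra h
      exact hfix v g h hg) (Sum.inl ((1 : Coprod C D) : Coprod C D ⧸ LC C D)) g0 hg0 with h | h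
    · exact hs h
    · exact hc h


end tree

end Pool.Agent.U181.IP
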