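import Pool.Agent.Q32.DP.KSF
import Pool.Agent.U181.IP.Kur

set_option autoImplicit false

/-!
# Uniqueness of free decompositions, torsion allowed (after `Pool.Agent.Q32.DP.KSF`)
-/

namespace Pool.Agent.U181.IP

open Monoid Pool.Agent.H599R3.RH Pool.Agent.Q32.DP
open Pool.Agent.Q32.DP.KSF (fwd tl bwd bwd_fwd)

/-- nontrivial, freely indecomposable, not infinite cyclic -/
def Good (A : Type) [Group A] : Prop :=
  ¬ Splits A ∧ ¬ ICyc A ∧ ∃ a : A, a ≠ 1

theorem Good.ne {A : Type} [Group A] (h : Good A) : ∃ a : A, a ≠ 1 := h.2.2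

/-- the theorem of Kurosh with the homomorphism to the factor -/
theorem kur {A C D : Type} [Group A] [Group C] [Group D] (hA : Good A) (f : A →* Coprod C D)
    (hf : Function.Injective f) :
    (∃ (g : Coprod C D) (u : A →* C), ∀ x, f x = g * Coprod.inl (u x) * g⁻¹) ∨
    (∃ (g : Coprod C D) (u : A →* D), ∀ x, f x = g * Coprod.inr (u x) * g⁻¹) := by
  rcases Pool.Agent.U181.IP.kurosh f hf hA.1 hA.2.1 hA.2.2 with ⟨g, hg⟩ | ⟨g, hg⟩
  · left
    refine ⟨g, ⟨⟨fun x => Coprod.fst (g⁻¹ * f x * g), by simp⟩, fun x y => ?_⟩, fun x => ?_⟩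
    · change Coprod.fst (g⁻¹ * f (x * y) * g) =
        Coprod.fst (g⁻¹ * f x * g) * Coprod.fst (g⁻¹ * f y * g)
      rw [← map_mul, map_mul f]
      congr 1
      group
    · obtain ⟨c, hc⟩ := hg x
      have h1 : Coprod.fst (g⁻¹ * f x * g) = c := by
        rw [hc, show g⁻¹ * (g * Coprod.inl c * g⁻¹) * g = Coprod.inl c by group,
          Coprod.fst_apply_inl]
      change f x = g * Coprod.inl (Coprod.fst (g⁻¹ * f x * g)) * g⁻¹
      rw [h1]
      exact hc
  · right
    refine ⟨g, ⟨⟨fun x => Coprod.snd (g⁻¹ * f x * g), by simp⟩, fun x y => ?_⟩, fun x => ?_⟩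
    · change Coprod.snd (g⁻¹ * f (x * y) * g) =
        Coprod.snd (g⁻¹ * f x * g) * Coprod.snd (g⁻¹ * f y * g)
      rw [← map_mul, map_mul f]
      congr 1
      group
    · obtain ⟨c, hc⟩ := hg x
      have h1 : Coprod.snd (g⁻¹ * f x * g) = c := by
        rw [hc, show g⁻¹ * (g * Coprod.inr c * g⁻¹) * g = Coprod.inr c by group,
          Coprod.snd_apply_inr]
      change f x = g * Coprod.inr (Coprod.snd (g⁻¹ * f x * g)) * g⁻¹
      rw [h1]
      exact hc

theorem inj_of {A C Γ : Type} [Group A] [Group C] [Group Γ] (f : A →* Γ)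
    (hf : Function.Injective f) (g : Γ) (ι : C →* Γ) (u : A →* C)
    (h : ∀ x, f x = g * ι (u x) * g⁻¹) : Function.Injective u := by
  intro x y hxy
  apply hf
  rw [h, h, hxy]

/-- the location of good subgroups in free products of finite families -/
theorem locI : ∀ (n : ℕ) (K : Fin n → Type) [∀ i, Group (K i)] (A : Type) [Group A], Good A →
    ∀ f : A →* CoprodI K, Function.Injective f →
    ∃ (i : Fin n) (g : CoprodI K) (u : A →* K i), ∀ x, f x = g * CoprodI.of (u x) * g⁻¹ := by
  intro n
  induction n with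
  | zero =>
    intro K _ A _ hA f hf
    exfalso
    obtain ⟨a, ha⟩ := hA.ne
    apply ha
    apply hf
    have h1 : ∀ z : CoprodI K, z = 1 := by
      intro z
      induction z using CoprodI.induction_on with
      | one => rfl
      | of i x => exact i.elim0
      | mul x y hx hy => rw [hx, hy, mul_one]
    rw [h1 (f a), h1 (f 1)]
  | succ n ih =>
    intro K _ A _ hA f hf
    have hfi : Function.Injective (fwd K) := fun x y hxy => by
      rw [← bwd_fwd K x, hxy, bwd_fwd]
    have hcf : Function.Injective ((fwd K).comp f) := fun x y hxy => hf (hfi hxy)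
    rcases kur hA ((fwd K).comp f) hcf with ⟨g, u, hu⟩ | ⟨g, u, hu⟩
    · refine ⟨0, bwd K g, u, fun x => ?_⟩
      have h1 : f x = bwd K (fwd K (f x)) := (bwd_fwd K _).symm
      have h2 : fwd K (f x) = g * Coprod.inl (u x) * g⁻¹ := hu x
      rw [h1, h2, map_mul, map_mul, map_inv]
      congr 2
    · have hui : Function.Injective u := inj_of _ hcf g Coprod.inr u hu
      obtain ⟨i, g', u', hu'⟩ := ih (fun i : Fin n => K i.succ) A hA u hui
      refine ⟨i.succ, bwd K g * tl K g', u', fun x => ?_⟩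
      have h1 : f x = bwd K (fwd K (f x)) := (bwd_fwd K _).symm
      have h2 : fwd K (f x) = g * Coprod.inr (u x) * g⁻¹ := hu x
      have h3 : bwd K (Coprod.inr (u x)) = tl K (u x) := by
        unfold bwd
        exact Coprod.lift_apply_inr _ _ _
      have h4 : tl K (CoprodI.of (M := fun i : Fin n => K i.succ) (i := i) (u' x)) =
          CoprodI.of (M := K) (i := i.succ) (u' x) := by
        unfold tl
        exact CoprodI.lift_of _ _
      rw [h1, h2, map_mul, map_mul, map_inv, h3, hu' x, map_mul, map_mul, map_inv, h4]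
      group

/-- good groups do not embed in free groups of finite rank -/
theorem nofree (s : ℕ) (A : Type) [Group A] (hA : Good A) (f : A →* FreeGroup (Fin s))
    (hf : Function.Injective f) : False := by
  obtain ⟨i, g, u, hu⟩ := locI s (fun _ => FreeGroup Unit) A hA
    ((freeGroupEquivCoprodI : FreeGroup (Fin s) ≃* _).toMonoidHom.comp f)
    ((freeGroupEquivCoprodI : FreeGroup (Fin s) ≃* _).injective.comp hf)
  have hui : Function.Injective u := inj_of _
    ((freeGroupEquivCoprodI : FreeGroup (Fin s) ≃* _).injective.comp hf) g _ u hu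
  have hc : IsCyclic (FreeGroup Unit) := by
    refine ⟨⟨FreeGroup.of (), fun x => ?_⟩⟩
    change ∃ n : ℤ, (FreeGroup.of () : FreeGroup Unit) ^ n = x
    induction x using FreeGroup.induction_on with
    | C1 => exact ⟨0, by simp⟩
    | of x => exact ⟨1, by simp⟩
    | inv_of x _ => exact ⟨-1, by simp⟩
    | mul x y hx hy =>
      obtain ⟨a, ha⟩ := hx
      obtain ⟨b, hb⟩ := hy
      exact ⟨a + b, by rw [zpow_add, ha, hb]⟩
  have hcA : IsCyclic A := isCyclic_of_injective u hui
  obtain ⟨t, ht⟩ := IsCyclic.exists_generator (α := A)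
  refine hA.2.1 ⟨t, fun g => (Subgroup.mem_zpowers_iff).1 (ht g), fun n hn h => ?_⟩
  obtain ⟨a, ha⟩ := hA.ne
  have h1 : (u t) ^ n = 1 := by rw [← map_pow, h, map_one]
  have h2 : u t = 1 := (pow_eq_one_iff_left hn).1 h1
  have h3 : t = 1 := hui (h2.trans (map_one u).symm)
  apply ha
  obtain ⟨m, hm⟩ := (Subgroup.mem_zpowers_iff).1 (ht a)
  rw [← hm, h3, one_zpow]

/-- the big group -/
abbrev GG (s : ℕ) {m : ℕ} (K : Fin m → Type) [∀ i, Group (K i)] : Type :=
  Coprod (CoprodI K) (FreeGroup (Fin s))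

/-- the inclusion of a factor -/
def kap (s : ℕ) {m : ℕ} (K : Fin m → Type) [∀ i, Group (K i)] (i : Fin m) : K i →* GG s K :=
  (Coprod.inl : CoprodI K →* GG s K).comp CoprodI.of

/-- the retraction -/
def ret (s : ℕ) {m : ℕ} (K : Fin m → Type) [∀ i, Group (K i)] (i : Fin m) : GG s K →* K i :=
  Coprod.lift (CoprodI.lift (Pi.mulSingle (M := fun j => K j →* K i) i (MonoidHom.id (K i)))) 1

section
variable (s : ℕ) {m : ℕ} (K : Fin m → Type) [∀ i, Group (K i)]

theorem ret_kap (i : Fin m) (x : K i) : ret s K i (kap s K i x) = x := by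
  unfold ret kap
  rw [MonoidHom.comp_apply, Coprod.lift_apply_inl, CoprodI.lift_of, Pi.mulSingle_eq_same]
  rfl

theorem ret_kap_ne (i j : Fin m) (h : j ≠ i) (x : K j) : ret s K i (kap s K j x) = 1 := by
  unfold ret kap
  rw [MonoidHom.comp_apply, Coprod.lift_apply_inl, CoprodI.lift_of, Pi.mulSingle_eq_of_ne h]
  rfl

theorem kap_inj (i : Fin m) : Function.Injective (kap s K i) := fun x y h => by
  rw [← ret_kap s K i x, h, ret_kap]

/-- location of good subgroups of the big group -/
theorem loc (A : Type) [Group A] (hA : Good A) (f : A →* GG s K) (hf : Function.Injective f) :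
    ∃ (i : Fin m) (g : GG s K) (u : A →* K i), ∀ x, f x = g * kap s K i (u x) * g⁻¹ := by
  rcases kur hA f hf with ⟨g, u, hu⟩ | ⟨g, u, hu⟩
  · have hui : Function.Injective u := inj_of f hf g Coprod.inl u hu
    obtain ⟨i, g', u', hu'⟩ := locI m K A hA u hui
    refine ⟨i, g * Coprod.inl g', u', fun x => ?_⟩
    rw [hu x, hu' x, map_mul, map_mul, map_inv]
    unfold kap
    rw [MonoidHom.comp_apply]
    group
  · exact (nofree s A hA u (inj_of f hf g Coprod.inr u hu)).elim

/-- a factor inside a conjugate of a factor -/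
theorem key (i i' : Fin m) (w : GG s K) (z : K i →* K i')
    (hz : ∀ x, kap s K i x = w * kap s K i' (z x) * w⁻¹) (hne : ∃ x : K i, x ≠ 1) :
    i' = i ∧ Function.Surjective z := by
  have h1 : i' = i := by
    by_contra h
    obtain ⟨x, hx⟩ := hne
    apply hx
    have h2 := congrArg (ret s K i) (hz x)
    rw [ret_kap, map_mul, map_mul, ret_kap_ne s K i i' h, mul_one, ← map_mul, mul_inv_cancel,
      map_one] at h2
    exact h2
  refine ⟨h1, ?_⟩
  subst h1
  intro t
  refine ⟨ret s K i' w * t * (ret s K i' w)⁻¹, ?_⟩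
  have h2 := congrArg (ret s K i') (hz (ret s K i' w * t * (ret s K i' w)⁻¹))
  rw [ret_kap, map_mul, map_mul, ret_kap, map_inv] at h2
  have h3 := mul_right_cancel h2
  exact (mul_left_cancel h3).symm

/-- homomorphisms to a group which kill the factors -/
def homs (M : Type) [Group M] :
    {φ : GG s K →* M // ∀ i x, φ (kap s K i x) = 1} ≃ (Fin s → M) where
  toFun φ := fun a => φ.1 (Coprod.inr (FreeGroup.of a))
  invFun c := ⟨Coprod.lift 1 (FreeGroup.lift c), fun i x => by
    unfold kap
    rw [MonoidHom.comp_apply, Coprod.lift_apply_inl]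
    rfl⟩
  left_inv φ := by
    apply Subtype.ext
    apply Coprod.hom_ext
    · apply CoprodI.ext_hom
      intro i
      ext x
      have h1 := φ.2 i x
      unfold kap at h1
      rw [MonoidHom.comp_apply] at h1
      simp only [MonoidHom.comp_apply, Coprod.lift_apply_inl]
      rw [h1]
      rfl
    · ext a
      simp
  right_inv c := by
    funext a
    simp

end

/-- uniqueness of free decompositions -/
theorem ksf (s s' m n : ℕ) (K : Fin m → Type) (L : Fin n → Type)
    [∀ i, Group (K i)] [∀ j, Group (L j)]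
    (hK : ∀ i, FreelyIndec (K i) ∧ ¬ ICyc (K i)) (hL : ∀ j, FreelyIndec (L j) ∧ ¬ ICyc (L j))
    (he : Nonempty (Monoid.Coprod (Monoid.CoprodI K) (FreeGroup (Fin s)) ≃*
      Monoid.Coprod (Monoid.CoprodI L) (FreeGroup (Fin s')))) :
    s = s' ∧ ∃ σ : Fin m ≃ Fin n, ∀ i, Nonempty (K i ≃* L (σ i)) := by
  obtain ⟨e⟩ := he
  have good : ∀ (A : Type) [Group A], FreelyIndec A ∧ ¬ ICyc A → Good A := by
    intro A _ h
    refine ⟨?_, h.2, h.1.1⟩
    rintro ⟨B, C, iB, iC, hB, hC, hi⟩
    rcases h.1.2 B C hi with h1 | h1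
    · obtain ⟨b, hb⟩ := exists_ne (1 : B)
      exact hb (h1 b)
    · obtain ⟨b, hb⟩ := exists_ne (1 : C)
      exact hb (h1 b)
  have gK : ∀ i, Good (K i) := fun i => good (K i) (hK i)
  have gL : ∀ j, Good (L j) := fun j => good (L j) (hL j)
  have h1 : ∀ i, ∃ (j : Fin n) (g : GG s' L) (u : K i →* L j),
      ∀ x, e (kap s K i x) = g * kap s' L j (u x) * g⁻¹ := fun i =>
    loc s' L (K i) (gK i) (e.toMonoidHom.comp (kap s K i)) (e.injective.comp (kap_inj s K i))
  have h2 : ∀ j, ∃ (i : Fin m) (g : GG s K) (u : L j →* K i),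
      ∀ x, e.symm (kap s' L j x) = g * kap s K i (u x) * g⁻¹ := fun j =>
    loc s K (L j) (gL j) (e.symm.toMonoidHom.comp (kap s' L j))
      (e.symm.injective.comp (kap_inj s' L j))
  choose σ g u hu using h1
  choose τ h v hv using h2
  have c1 : ∀ i, τ (σ i) = i ∧ Function.Surjective ((v (σ i)).comp (u i)) := by
    intro i
    refine key s K i (τ (σ i)) (e.symm (g i) * h (σ i)) ((v (σ i)).comp (u i)) (fun x => ?_)
      (gK i).ne
    have h3 : kap s K i x = e.symm (e (kap s K i x)) := (e.symm_apply_apply _).symm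
    rw [h3, hu, map_mul, map_mul, map_inv, hv, MonoidHom.comp_apply]
    group
  have c2 : ∀ j, σ (τ j) = j ∧ Function.Surjective ((u (τ j)).comp (v j)) := by
    intro j
    refine key s' L j (σ (τ j)) (e (h j) * g (τ j)) ((u (τ j)).comp (v j)) (fun x => ?_)
      (gL j).ne
    have h3 : kap s' L j x = e (e.symm (kap s' L j x)) := (e.apply_symm_apply _).symm
    rw [h3, hv, map_mul, map_mul, map_inv, hu, MonoidHom.comp_apply]
    group
  have ui : ∀ i, Function.Injective (u i) := fun i =>
    inj_of (e.toMonoidHom.comp (kap s K i)) (e.injective.comp (kap_inj s K i)) (g i)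
      (kap s' L (σ i)) (u i) (hu i)
  have vi : ∀ j, Function.Injective (v j) := fun j =>
    inj_of (e.symm.toMonoidHom.comp (kap s' L j)) (e.symm.injective.comp (kap_inj s' L j)) (h j)
      (kap s K (τ j)) (v j) (hv j)
  refine ⟨?_, ⟨⟨σ, τ, fun i => (c1 i).1, fun j => (c2 j).1⟩, fun i => ?_⟩⟩
  · -- the ranks
    let M := Multiplicative (ZMod 2)
    have E : {φ : GG s K →* M // ∀ i x, φ (kap s K i x) = 1} ≃
        {φ : GG s' L →* M // ∀ j x, φ (kap s' L j x) = 1} :=
      { toFun := fun φ => ⟨φ.1.comp e.symm.toMonoidHom, fun j x => by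
          change φ.1 (e.symm (kap s' L j x)) = 1
          rw [hv, map_mul, map_mul, φ.2, mul_one, ← map_mul, mul_inv_cancel, map_one]⟩
        invFun := fun φ => ⟨φ.1.comp e.toMonoidHom, fun j x => by
          change φ.1 (e (kap s K j x)) = 1
          rw [hu, map_mul, map_mul, φ.2, mul_one, ← map_mul, mul_inv_cancel, map_one]⟩
        left_inv := fun φ => by
          apply Subtype.ext
          refine MonoidHom.ext fun x => ?_
          change φ.1 (e.symm (e x)) = φ.1 x
          rw [e.symm_apply_apply]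
        right_inv := fun φ => by
          apply Subtype.ext
          refine MonoidHom.ext fun x => ?_
          change φ.1 (e (e.symm x)) = φ.1 x
          rw [e.apply_symm_apply] }
    have E2 : (Fin s → M) ≃ (Fin s' → M) := (homs s K M).symm.trans (E.trans (homs s' L M))
    have h3 := Fintype.card_congr E2
    have h4 : Fintype.card M = 2 := ZMod.card 2
    rw [Fintype.card_fun, Fintype.card_fun, Fintype.card_fin, Fintype.card_fin, h4] at h3
    exact Nat.pow_right_injective le_rfl h3
  · refine ⟨MulEquiv.ofBijective (u i) ⟨ui i, fun y => ?_⟩⟩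
    obtain ⟨x, hx⟩ := (c1 i).2 (v (σ i) y)
    exact ⟨x, vi (σ i) hx⟩

end Pool.Agent.U181.IP
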