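import Pool.Agent.U181.IP.Stm
import Pool.Agent.Q32.DP.REDD
import Pool.Agent.Q32.DP.PROD2

set_option autoImplicit false

/-!
# Normal forms of the groups built by direct and free products
-/

namespace Pool.Agent.U181.IP

open Pool.Agent.Q223.IS Pool.Agent.Q32.DP Pool.Agent.Q32.DP.Struct Monoid

theorem ab_Tc : Ab REDD.Tc := fun x y => by rw [REDD.triv x, REDD.triv y]

theorem ab_Zc : Ab REDD.Zc := by
  obtain ⟨e⟩ := REDD.cyc
  intro x y
  apply e.injective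
  rw [map_mul, map_mul, mul_comm]

/-- One direct factor. -/
def d1 (k : Pres) : PG REDD.Tc × PL [k] ≃* PG k :=
  (NF.trivProd REDD.triv).trans ((Red.consE k []).trans (NF.prodTriv NF.pl0))

/-- No direct factor, rank one. -/
theorem dz : Nonempty (PG REDD.Zc × PL [] ≃* Multiplicative ℤ) := by
  obtain ⟨e⟩ := REDD.cyc
  exact ⟨(NF.prodTriv NF.pl0).trans e⟩

theorem df0 : ∀ x : PG REDD.Tc × PL [], x = 1 := fun _ => Prod.ext (REDD.triv _) (NF.pl0 _)

theorem D_to_F {C : Pres → Prop} {n : ℕ} {p : Pres} (h : DForm C n p) : ∃ n', FForm C n' p := by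
  obtain ⟨a, L, hL, ha, ⟨e⟩⟩ := h
  by_cases h2 : BigD a L
  · have hp : DD C (n + 1) p := Or.inr ⟨a, L, hL, ha, h2, ⟨e⟩⟩
    exact ⟨n + 1, 0, [p], NF.mem_one hp, ⟨(NF.f1 p).symm⟩⟩
  · rcases L with _ | ⟨k, _ | ⟨k', L⟩⟩
    · by_cases ht : Triv a
      · have h0 : ∀ x : PG a × PL [], x = 1 := fun x => Prod.ext (ht _) (NF.pl0 _)
        exact ⟨0, 0, [], by simp, ⟨e.trans (NF.trivTriv h0 NF.fl0)⟩⟩
      · have hi : ICyc (PG a) := by
          by_contra hi
          exact h2 (Or.inl ⟨rfl, ht, hi⟩)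
        obtain ⟨c⟩ := iCyc_iff.1 hi
        obtain ⟨f⟩ := NF.fz
        exact ⟨0, 1, [], by simp, ⟨e.trans ((NF.prodTriv NF.pl0).trans (c.trans f.symm))⟩⟩
    · have ht : Triv a := by
        by_contra ht
        exact h2 (Or.inr (Or.inl ⟨by simp, ht⟩))
      have hk : FF C n k := hL k List.mem_cons_self
      have e' : PG p ≃* PG k := e.trans ((NF.trivProd ht).trans ((Red.consE k []).trans
        (NF.prodTriv NF.pl0)))
      rcases n with _ | n
      · exact ⟨0, 0, [k], NF.mem_one hk, ⟨e'.trans (NF.f1 k).symm⟩⟩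
      · rcases hk with hk | ⟨s, L', hL', -, ⟨f⟩⟩
        · exact ⟨0, 0, [k], NF.mem_one hk, ⟨e'.trans (NF.f1 k).symm⟩⟩
        · exact ⟨n, s, L', hL', ⟨e'.trans f⟩⟩
    · exact absurd (Or.inr (Or.inr (by simp))) h2

theorem F_to_D {C : Pres → Prop} {n : ℕ} {p : Pres} (h : FForm C n p) : ∃ n', DForm C n' p := by
  obtain ⟨m, L, hL, ⟨e⟩⟩ := h
  by_cases h2 : 2 ≤ m + L.length
  · have hp : FF C (n + 1) p := Or.inr ⟨m, L, hL, h2, ⟨e⟩⟩
    exact ⟨n + 1, REDD.Tc, [p], NF.mem_one hp, ab_Tc, ⟨(d1 p).symm⟩⟩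
  · rcases L with _ | ⟨k, _ | ⟨k', L⟩⟩
    · rcases m with _ | _ | m
      · exact ⟨0, REDD.Tc, [], by simp, ab_Tc, ⟨e.trans (NF.trivTriv NF.fl0 df0)⟩⟩
      · obtain ⟨f⟩ := NF.fz
        obtain ⟨d⟩ := dz
        exact ⟨0, REDD.Zc, [], by simp, ab_Zc, ⟨e.trans (f.trans d.symm)⟩⟩
      · simp at h2
    · have hm : m = 0 := by
        simp only [List.length_cons, List.length_nil] at h2
        omega
      subst hm
      have hk : DD C n k := hL k List.mem_cons_self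
      have e' : PG p ≃* PG k := e.trans (NF.f1 k)
      rcases n with _ | n
      · exact ⟨0, REDD.Tc, [k], NF.mem_one hk, ab_Tc, ⟨e'.trans (d1 k).symm⟩⟩
      · rcases hk with hk | ⟨a, L', hL', ha, -, ⟨f⟩⟩
        · exact ⟨0, REDD.Tc, [k], NF.mem_one hk, ab_Tc, ⟨e'.trans (d1 k).symm⟩⟩
        · exact ⟨n, a, L', hL', ha, ⟨e'.trans f⟩⟩
    · exfalso
      simp only [List.length_cons] at h2
      omega

/-- **normal forms** -/
theorem nf (C : Pres → Prop) (p : Pres) (hp : Built C p) : ∃ n, DForm C n p := by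
  induction hp with
  | base h => exact ⟨0, REDD.Tc, [_], NF.mem_one h, ab_Tc, ⟨(d1 _).symm⟩⟩
  | abel h => exact ⟨0, _, [], by simp, h, ⟨(NF.prodTriv NF.pl0).symm⟩⟩
  | direct _ _ h iha ihb =>
    obtain ⟨e⟩ := h
    obtain ⟨n, m, L, hL, ha, ⟨ea⟩⟩ := iha
    obtain ⟨n', m', L', hL', hb, ⟨eb⟩⟩ := ihb
    obtain ⟨f⟩ := PROD2.iso m m'
    obtain ⟨g⟩ := NF.pl_append L L'
    refine ⟨max n n', PROD2.P2 m m', L ++ L', ?_, ?_, ⟨?_⟩⟩
    · intro k hk
      rcases List.mem_append.1 hk with hk | hk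
      · exact (mono C (le_max_left _ _)).2 k (hL k hk)
      · exact (mono C (le_max_right _ _)).2 k (hL' k hk)
    · intro x y
      apply f.injective
      rw [map_mul, map_mul]
      exact Prod.ext (ha _ _) (hb _ _)
    · exact e.trans ((ea.prodCongr eb).trans
        ((MulEquiv.prodProdProdComm _ _ _ _).trans (f.symm.prodCongr g.symm)))
  | free _ _ h iha ihb =>
    obtain ⟨e⟩ := h
    obtain ⟨na, ha⟩ := iha
    obtain ⟨nb, hb⟩ := ihb
    obtain ⟨n, m, L, hL, ⟨ea⟩⟩ := D_to_F ha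
    obtain ⟨n', m', L', hL', ⟨eb⟩⟩ := D_to_F hb
    obtain ⟨g⟩ := NF.fls_append m m' L L'
    apply F_to_D (n := max n n')
    refine ⟨m + m', L ++ L', ?_, ⟨?_⟩⟩
    · intro k hk
      rcases List.mem_append.1 hk with hk | hk
      · exact (mono C (le_max_left _ _)).1 k (hL k hk)
      · exact (mono C (le_max_right _ _)).1 k (hL' k hk)
    · exact e.trans ((MulEquiv.coprodCongr ea eb).trans g.symm)

end Pool.Agent.U181.IP
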