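import Pool.Agent.U181.IP.Step
import Pool.Agent.Q32.DP.SOUND

set_option autoImplicit false

/-!
# The rules preserve the meaning
-/

namespace Pool.Agent.U181.IP

open Pool.Agent.Q223.IS Pool.Agent.Q32.DP

/-- The meaning of the facts. -/
def Mean (C : Pres → Prop) (e : Fact) : Prop :=
  (e.1 = 0 → ∃ n, DD C n e.2.1) ∧ (e.1 = 1 → ∃ n, FF C n e.2.1) ∧
    (e.1 = 2 → ¬ Nonempty (PG e.2.1 ≃* PG e.2.2))

/-- a solution on a class -/
def Sol (C : Pres → Prop) (f : Pres × Pres →. Bool) : Prop :=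
  ∀ a b, C a → C b → (Nonempty (PG a ≃* PG b) → true ∈ f (a, b)) ∧
    (¬ Nonempty (PG a ≃* PG b) → false ∈ f (a, b))

theorem Sol.no {C : Pres → Prop} {f : Pres × Pres →. Bool} (h : Sol C f) {a b : Pres} (ha : C a)
    (hb : C b) : false ∈ f (a, b) ↔ ¬ Nonempty (PG a ≃* PG b) := by
  refine ⟨fun h1 h2 => ?_, (h a b ha hb).2⟩
  exact absurd (Part.mem_unique ((h a b ha hb).1 h2) h1) (by decide)

theorem triv_iff (a : Pres) : Triv a ↔ Nonempty (PG a ≃* PG REDD.Tc) := by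
  constructor
  · intro h
    exact ⟨⟨⟨fun _ => 1, fun _ => 1, fun x => (h x).symm, fun x => (REDD.triv x).symm⟩,
      fun x y => (one_mul 1).symm⟩⟩
  · rintro ⟨e⟩ x
    apply e.injective
    rw [REDD.triv (e x), REDD.triv (e 1)]

theorem cyc_iff (a : Pres) : ICyc (PG a) ↔ Nonempty (PG a ≃* PG REDD.Zc) := by
  obtain ⟨z⟩ := REDD.cyc
  rw [iCyc_iff]
  exact ⟨fun ⟨e⟩ => ⟨e.trans z.symm⟩, fun ⟨e⟩ => ⟨e.trans z⟩⟩

theorem big_iff {fA : Pres × Pres →. Bool} (hfA : Sol Ab fA) {x : Pres × List Pres}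
    (hx : Ab x.1) : BigR fA x ↔ BigD x.1 x.2 := by
  unfold BigR BigD
  rw [hfA.no hx ab_Tc, hfA.no hx ab_Zc, ← triv_iff, ← cyc_iff, List.length_eq_zero_iff,
    Nat.one_le_iff_ne_zero, Ne, List.length_eq_zero_iff]

namespace Snd

theorem boundF {C : Pres → Prop} {l : List Fact} (hl : ∀ x ∈ l, Mean C x) {L : List Pres}
    (hL : ∀ k ∈ L, ((1, k, k) : Fact) ∈ l) : ∃ n, ∀ k ∈ L, FF C n k :=
  SOUND.bound (FF C) (fun _ _ p h => (mono C h).2 p) L (fun k hk => (hl _ (hL k hk)).2.1 rfl)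

theorem boundD {C : Pres → Prop} {l : List Fact} (hl : ∀ x ∈ l, Mean C x) {L : List Pres}
    (hL : ∀ k ∈ L, ((0, k, k) : Fact) ∈ l) : ∃ n, ∀ k ∈ L, DD C n k :=
  SOUND.bound (DD C) (fun _ _ p h => (mono C h).1 p) L (fun k hk => (hl _ (hL k hk)).1 rfl)

/-- labels exclude a matching -/
theorem lab_no {C : Pres → Prop} {l : List Fact} (hl : ∀ x ∈ l, Mean C x) {L L' : List Pres}
    (h : Lab l L L') (σ : Fin L.length ≃ Fin L'.length)
    (hσ : ∀ i, Nonempty (PG (L.get i) ≃* PG (L'.get (σ i)))) : False := by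
  obtain ⟨u, v, hu, hv, hn, hW⟩ := h
  apply hn
  rw [List.perm_iff_count]
  intro c
  refine NONMATCH.count_of_match (((finCongr hu).trans σ).trans (finCongr hv.symm)) ?_ c
  intro i
  by_contra hne
  have mA : (L.get (finCongr hu i), u.get i) ∈ L.zip u :=
    SOUND.zip_mem L u i (by have := (finCongr hu i).2; simpa using this) i.2
  have mB : (L'.get (σ (finCongr hu i)), v.get (finCongr hv.symm (σ (finCongr hu i)))) ∈ L'.zip v :=
    SOUND.zip_mem L' v (σ (finCongr hu i)) (σ (finCongr hu i)).2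
      (by have := (finCongr hv.symm (σ (finCongr hu i))).2; simpa using this)
  have h1 := (hW _ (List.mem_append_left _ mA) _ (List.mem_append_right _ mB)).2 hne
  exact (hl _ h1).2.2 rfl (hσ _)

theorem t (C : Pres → Prop) (f fA : Pres × Pres →. Bool) (hC : ∀ k, C k → Base k)
    (hf : Sol C f) (hfA : Sol Ab fA) (l : List Fact) (e : Fact) (hl : ∀ x ∈ l, Mean C x)
    (h : StepR C f fA (l, e)) : Mean C e := by
  obtain ⟨e, p, q⟩ := e
  have hmem := members C hC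
  rcases h with ⟨h0, h1, h⟩ | ⟨h0, h1, h⟩ | ⟨h0, h⟩
  · simp only at h0 h1 h
    subst h0
    refine ⟨fun _ => ?_, fun h => absurd (show (_ : ℕ) = _ from h) (by simp),
      fun h => absurd (show (_ : ℕ) = _ from h) (by simp)⟩
    rcases h with h | ⟨x, hx, ha, hL, he⟩
    · exact ⟨0, h⟩
    · obtain ⟨n, hn⟩ := boundF hl hL
      exact ⟨n + 1, Or.inr ⟨x.1, x.2, hn, ha, (big_iff hfA ha).1 hx, he⟩⟩
  · simp only at h0 h1 h
    subst h0
    refine ⟨fun h => absurd (show (_ : ℕ) = _ from h) (by simp), fun _ => ?_,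
      fun h => absurd (show (_ : ℕ) = _ from h) (by simp)⟩
    rcases h with h | ⟨x, hm, hL, he⟩
    · exact ⟨0, h⟩
    · obtain ⟨n, hn⟩ := boundD hl hL
      exact ⟨n + 1, Or.inr ⟨x.1, x.2, hn, hm, he⟩⟩
  · simp only at h0 h
    subst h0
    refine ⟨fun h => absurd (show (_ : ℕ) = _ from h) (by simp),
      fun h => absurd (show (_ : ℕ) = _ from h) (by simp), fun _ => ?_⟩
    rintro ⟨g⟩
    simp only at g
    rcases h with ⟨hp, hq, h⟩ | ⟨⟨⟨a, L⟩, ⟨a', L'⟩⟩, ⟨ha, ha'⟩, hL, hL', ⟨e1⟩, ⟨e2⟩, h⟩ |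
      ⟨⟨⟨s, L⟩, ⟨s', L'⟩⟩, hL, hL', ⟨e1⟩, ⟨e2⟩, h⟩
    · exact (hf.no hp hq).1 h ⟨g⟩
    · obtain ⟨n, hn⟩ := boundF hl hL
      obtain ⟨n', hn'⟩ := boundF hl hL'
      have hK := fun i : Fin L.length => (hmem n).2 _ (hn (L.get i) (List.get_mem L i))
      have hK' := fun i : Fin L'.length => (hmem n').2 _ (hn' (L'.get i) (List.get_mem L' i))
      obtain ⟨e3, σ, hσ⟩ := krs L.length L'.length (PG a) (PG a')
        (fun i => PG (L.get i)) (fun i => PG (L'.get i)) ha ha' hK hK'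
        ⟨(e1.symm.trans g).trans e2⟩
      rcases h with h | h
      · exact (hfA.no ha ha').1 h e3
      · exact lab_no hl h σ hσ
    · obtain ⟨n, hn⟩ := boundD hl hL
      obtain ⟨n', hn'⟩ := boundD hl hL'
      have hK := fun i : Fin L.length => (hmem n).1 _ (hn (L.get i) (List.get_mem L i))
      have hK' := fun i : Fin L'.length => (hmem n').1 _ (hn' (L'.get i) (List.get_mem L' i))
      obtain ⟨e3, σ, hσ⟩ := ksf s s' L.length L'.length
        (fun i => PG (L.get i)) (fun i => PG (L'.get i)) hK hK' ⟨(e1.symm.trans g).trans e2⟩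
      rcases h with h | h
      · exact h e3
      · exact lab_no hl h σ hσ

end Snd

end Pool.Agent.U181.IP
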