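import Pool.Agent.U181.IP.AbS
import Pool.Agent.Q32.DP.STEPRE

set_option autoImplicit false

/-!
# The rules
-/

namespace Pool.Agent.U181.IP

open Pool.Agent.Q223.IS Pool.Agent.Q32.DP Pool.Agent.Helper926

/-- certificate for `BigD` -/
def BigR (fA : Pres × Pres →. Bool) (x : Pres × List Pres) : Prop :=
  (x.2.length = 0 ∧ false ∈ fA (x.1, REDD.Tc) ∧ false ∈ fA (x.1, REDD.Zc)) ∨
    (1 ≤ x.2.length ∧ false ∈ fA (x.1, REDD.Tc)) ∨ 2 ≤ x.2.length

/-- The rules. -/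
def StepR (C : Pres → Prop) (f fA : Pres × Pres →. Bool) (z : List Fact × Fact) : Prop :=
  (z.2.1 = 0 ∧ z.2.2.1 = z.2.2.2 ∧ (C z.2.2.1 ∨ ∃ x : Pres × List Pres, BigR fA x ∧ Ab x.1 ∧
    (∀ k ∈ x.2, ((1, k, k) : Fact) ∈ z.1) ∧ Nonempty (PG z.2.2.1 ≃* PG x.1 × PL x.2))) ∨
  (z.2.1 = 1 ∧ z.2.2.1 = z.2.2.2 ∧ (C z.2.2.1 ∨ ∃ x : ℕ × List Pres, 2 ≤ x.1 + x.2.length ∧
    (∀ k ∈ x.2, ((0, k, k) : Fact) ∈ z.1) ∧ Nonempty (PG z.2.2.1 ≃* FLs x.1 x.2))) ∨
  (z.2.1 = 2 ∧ ((C z.2.2.1 ∧ C z.2.2.2 ∧ false ∈ f (z.2.2.1, z.2.2.2)) ∨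
    (∃ w : (Pres × List Pres) × (Pres × List Pres), (Ab w.1.1 ∧ Ab w.2.1) ∧
      (∀ k ∈ w.1.2, ((1, k, k) : Fact) ∈ z.1) ∧
      (∀ k ∈ w.2.2, ((1, k, k) : Fact) ∈ z.1) ∧ Nonempty (PG z.2.2.1 ≃* PG w.1.1 × PL w.1.2) ∧
      Nonempty (PG z.2.2.2 ≃* PG w.2.1 × PL w.2.2) ∧
      (false ∈ fA (w.1.1, w.2.1) ∨ Lab z.1 w.1.2 w.2.2)) ∨
    (∃ w : (ℕ × List Pres) × (ℕ × List Pres), (∀ k ∈ w.1.2, ((0, k, k) : Fact) ∈ z.1) ∧
      (∀ k ∈ w.2.2, ((0, k, k) : Fact) ∈ z.1) ∧ Nonempty (PG z.2.2.1 ≃* FLs w.1.1 w.1.2) ∧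
      Nonempty (PG z.2.2.2 ≃* FLs w.2.1 w.2.2) ∧ (w.1.1 ≠ w.2.1 ∨ Lab z.1 w.1.2 w.2.2))))

namespace Step

section

variable {γ : Type} [Primcodable γ]

theorem big_re {fA : Pres × Pres →. Bool} (hfA : Partrec fA) {g : γ → Pres × List Pres}
    (hg : Computable g) : REPred fun z : γ => BigR fA (g z) := by
  unfold BigR
  have hl : Computable fun z : γ => (g z).2.length :=
    (Primrec.list_length.to_comp).comp (Computable.snd.comp hg)
  have h1 : REPred fun z : γ => false ∈ fA ((g z).1, REDD.Tc) :=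
    NONMATCH.re_mem hfA false ((Computable.fst.comp hg).pair (Computable.const REDD.Tc))
  have h2 : REPred fun z : γ => false ∈ fA ((g z).1, REDD.Zc) :=
    NONMATCH.re_mem hfA false ((Computable.fst.comp hg).pair (Computable.const REDD.Zc))
  exact RE.or (RE.and (RE.eq hl (Computable.const 0)) (RE.and h1 h2))
    (RE.or (RE.and (RE.le (Computable.const 1) hl) h1) (RE.le (Computable.const 2) hl))

theorem iso_re' {P : Pres × List Pres → Pres} (hP : Primrec P) {g : γ → Pres}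
    {x : γ → Pres × List Pres} (hg : Computable g) (hx : Computable x) :
    REPred fun z : γ => Nonempty (PG (g z) ≃* PG (P (x z))) :=
  RE.comp iso_re (f := fun z : γ => (g z, P (x z))) (hg.pair (hP.to_comp.comp hx))

end

theorem rule0 {C : Pres → Prop} (hC : REPred C) {fA : Pres × Pres →. Bool} (hfA : Partrec fA)
    {P : Pres × List Pres → Pres} (hP : Primrec P) : REPred fun z : List Fact × Fact =>
      z.2.1 = 0 ∧ z.2.2.1 = z.2.2.2 ∧ (C z.2.2.1 ∨ ∃ x : Pres × List Pres, BigR fA x ∧ Ab x.1 ∧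
        (∀ k ∈ x.2, ((1, k, k) : Fact) ∈ z.1) ∧ Nonempty (PG z.2.2.1 ≃* PG (P x))) := by
  have h1 : Computable fun z : List Fact × Fact => z.2.2.1 :=
    Computable.fst.comp (Computable.snd.comp Computable.snd)
  have h2 : Computable fun z : List Fact × Fact => z.2.2.2 :=
    Computable.snd.comp (Computable.snd.comp Computable.snd)
  refine RE.and (RE.eq (Computable.fst.comp Computable.snd) (Computable.const 0))
    (RE.and (RE.eq h1 h2) (RE.or (RE.comp hC h1) ?_))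
  refine RE.ex (p := fun (z : List Fact × Fact) (x : Pres × List Pres) => BigR fA x ∧ Ab x.1 ∧
        (∀ k ∈ x.2, ((1, k, k) : Fact) ∈ z.1) ∧ Nonempty (PG z.2.2.1 ≃* PG (P x))) ?_
  refine RE.and ?_ (RE.and ?_ (RE.and ?_ ?_))
  · exact big_re hfA Computable.snd
  · exact RE.comp AbS.ab_re (Computable.fst.comp Computable.snd)
  · exact STEPRE.mem_re 1 (Computable.snd.comp Computable.snd) (Computable.fst.comp Computable.fst)
  · exact iso_re' hP (h1.comp Computable.fst) Computable.snd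

theorem rule2 {fA : Pres × Pres →. Bool} (hfA : Partrec fA)
    {P : Pres × List Pres → Pres} (hP : Primrec P) : REPred fun z : List Fact × Fact =>
      ∃ w : (Pres × List Pres) × (Pres × List Pres), (Ab w.1.1 ∧ Ab w.2.1) ∧
        (∀ k ∈ w.1.2, ((1, k, k) : Fact) ∈ z.1) ∧
        (∀ k ∈ w.2.2, ((1, k, k) : Fact) ∈ z.1) ∧ Nonempty (PG z.2.2.1 ≃* PG (P w.1)) ∧
        Nonempty (PG z.2.2.2 ≃* PG (P w.2)) ∧
        (false ∈ fA (w.1.1, w.2.1) ∨ Lab z.1 w.1.2 w.2.2) := by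
  refine RE.ex (p := fun (z : List Fact × Fact) (w : (Pres × List Pres) × (Pres × List Pres)) =>
        (Ab w.1.1 ∧ Ab w.2.1) ∧ (∀ k ∈ w.1.2, ((1, k, k) : Fact) ∈ z.1) ∧
        (∀ k ∈ w.2.2, ((1, k, k) : Fact) ∈ z.1) ∧ Nonempty (PG z.2.2.1 ≃* PG (P w.1)) ∧
        Nonempty (PG z.2.2.2 ≃* PG (P w.2)) ∧
        (false ∈ fA (w.1.1, w.2.1) ∨ Lab z.1 w.1.2 w.2.2)) ?_
  have hz : Computable fun a : (List Fact × Fact) × ((Pres × List Pres) × (Pres × List Pres)) =>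
      a.1.1 := Computable.fst.comp Computable.fst
  have h1 : Computable fun a : (List Fact × Fact) × ((Pres × List Pres) × (Pres × List Pres)) =>
      a.1.2.2.1 := Computable.fst.comp (Computable.snd.comp (Computable.snd.comp Computable.fst))
  have h2 : Computable fun a : (List Fact × Fact) × ((Pres × List Pres) × (Pres × List Pres)) =>
      a.1.2.2.2 := Computable.snd.comp (Computable.snd.comp (Computable.snd.comp Computable.fst))
  have w1 : Computable fun a : (List Fact × Fact) × ((Pres × List Pres) × (Pres × List Pres)) =>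
      a.2.1 := Computable.fst.comp Computable.snd
  have w2 : Computable fun a : (List Fact × Fact) × ((Pres × List Pres) × (Pres × List Pres)) =>
      a.2.2 := Computable.snd.comp Computable.snd
  refine RE.and (RE.and ?_ ?_) (RE.and ?_ (RE.and ?_ (RE.and ?_ (RE.and ?_ (RE.or ?_ ?_)))))
  · exact RE.comp AbS.ab_re (Computable.fst.comp w1)
  · exact RE.comp AbS.ab_re (Computable.fst.comp w2)
  · exact STEPRE.mem_re 1 (Computable.snd.comp w1) hz
  · exact STEPRE.mem_re 1 (Computable.snd.comp w2) hz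
  · exact iso_re' hP h1 w1
  · exact iso_re' hP h2 w2
  · exact NONMATCH.re_mem hfA false ((Computable.fst.comp w1).pair (Computable.fst.comp w2))
  · exact RE.comp STEPRE.lab_re (f := fun a : (List Fact × Fact) ×
      ((Pres × List Pres) × (Pres × List Pres)) => (a.1.1, (a.2.1.2, a.2.2.2)))
      (hz.pair ((Computable.snd.comp w1).pair (Computable.snd.comp w2)))

theorem t (C : Pres → Prop) (f fA : Pres × Pres →. Bool) (hC : REPred C) (hf : Partrec f)
    (hfA : Partrec fA) : REPred (StepR C f fA) ∧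
      ∀ l l' e, (∀ x ∈ l, x ∈ l') → StepR C f fA (l, e) → StepR C f fA (l', e) := by
  constructor
  · obtain ⟨P, hP, hPe⟩ := PRODL.t PROD2.t
    obtain ⟨Q, hQ, hQe⟩ := FPROD.t
    have eP : ∀ (p : Pres) (x : Pres × List Pres),
        Nonempty (PG p ≃* PG (P x)) ↔ Nonempty (PG p ≃* PG x.1 × PL x.2) := by
      rintro p ⟨a, L⟩
      obtain ⟨e⟩ := hPe a L
      exact ⟨fun ⟨i⟩ => ⟨i.trans e⟩, fun ⟨i⟩ => ⟨i.trans e.symm⟩⟩
    have eQ : ∀ (p : Pres) (x : ℕ × List Pres),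
        Nonempty (PG p ≃* PG (Q x)) ↔ Nonempty (PG p ≃* FLs x.1 x.2) := by
      rintro p ⟨m, L⟩
      obtain ⟨e⟩ := hQe m L
      exact ⟨fun ⟨i⟩ => ⟨i.trans e⟩, fun ⟨i⟩ => ⟨i.trans e.symm⟩⟩
    have h1 : Computable fun z : List Fact × Fact => z.2.2.1 :=
      Computable.fst.comp (Computable.snd.comp Computable.snd)
    have h2 : Computable fun z : List Fact × Fact => z.2.2.2 :=
      Computable.snd.comp (Computable.snd.comp Computable.snd)
    have hc : REPred fun z : List Fact × Fact =>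
        C z.2.2.1 ∧ C z.2.2.2 ∧ false ∈ f (z.2.2.1, z.2.2.2) :=
      RE.and (RE.comp hC h1) (RE.and (RE.comp hC h2) (NONMATCH.re_mem hf false (h1.pair h2)))
    refine (RE.or (rule0 hC hfA hP) (RE.or (STEPRE.rule01 0 1 hC hQ)
      (RE.and (RE.eq (Computable.fst.comp Computable.snd) (Computable.const 2))
        (RE.or hc (RE.or (rule2 hfA hP) (STEPRE.rule2 0 hQ)))))).of_eq fun z => ?_
    unfold StepR
    simp only [eP, eQ]
  · intro l l' e h hst
    rcases hst with ⟨h0, h1, h2⟩ | ⟨h0, h1, h2⟩ | ⟨h0, h2⟩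
    · refine Or.inl ⟨h0, h1, ?_⟩
      rcases h2 with h2 | ⟨x, a, a', b, c⟩
      · exact Or.inl h2
      · exact Or.inr ⟨x, a, a', fun k hk => h _ (b k hk), c⟩
    · refine Or.inr (Or.inl ⟨h0, h1, ?_⟩)
      rcases h2 with h2 | ⟨x, a, b, c⟩
      · exact Or.inl h2
      · exact Or.inr ⟨x, a, fun k hk => h _ (b k hk), c⟩
    · refine Or.inr (Or.inr ⟨h0, ?_⟩)
      rcases h2 with h2 | ⟨w, a', a, b, c, d, g⟩ | ⟨w, a, b, c, d, g⟩
      · exact Or.inl h2
      · exact Or.inr (Or.inl ⟨w, a', fun k hk => h _ (a k hk), fun k hk => h _ (b k hk),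
          c, d, g.imp id (STEPRE.lab_mono h)⟩)
      · exact Or.inr (Or.inr ⟨w, fun k hk => h _ (a k hk), fun k hk => h _ (b k hk),
          c, d, g.imp id (STEPRE.lab_mono h)⟩)

end Step

end Pool.Agent.U181.IP
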