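import Pool.Agent.Q32.DP.Stm3
import Pool.Agent.Q32.DP.NF
import Pool.Agent.Q32.DP.FREE
import Pool.Agent.U181.IP.Krs
import Pool.Agent.U181.IP.Ksf

set_option autoImplicit false

/-!
# Groups built by direct and free products, torsion and finite centres allowed: the classes
-/

namespace Pool.Agent.U181.IP

open Pool.Agent.Q223.IS Pool.Agent.Q32.DP Pool.Agent.Q32.DP.Struct Monoid

/-- presentations of abelian groups -/
def Ab (p : Pres) : Prop := ∀ x y : PG p, x * y = y * x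

/-- presentations of the trivial group -/
def Triv (p : Pres) : Prop := ∀ x : PG p, x = 1

/-- The presentations of the groups which are built from the groups in `C` and finitely presented
abelian groups by finitely many direct products and free products of two groups. -/
inductive Built (C : Pres → Prop) : Pres → Prop
  | base {p : Pres} : C p → Built C p
  | abel {p : Pres} : (∀ x y : PG p, x * y = y * x) → Built C p
  | direct {a b p : Pres} : Built C a → Built C b → Nonempty (PG p ≃* PG a × PG b) → Built C p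
  | free {a b p : Pres} : Built C a → Built C b →
      Nonempty (PG p ≃* Monoid.Coprod (PG a) (PG b)) → Built C p

/-- the base class -/
def Base (p : Pres) : Prop := DFac (PG p) ∧ FreelyIndec (PG p)

/-- neither trivial, nor infinite cyclic, nor a single factor -/
def BigD (a : Pres) (L : List Pres) : Prop :=
  (L = [] ∧ ¬ Triv a ∧ ¬ ICyc (PG a)) ∨ (L ≠ [] ∧ ¬ Triv a) ∨ 2 ≤ L.length

mutual
/-- The presentations of groups in `C`, or of direct products which are not infinite cyclic and not a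
single factor of the level below. -/
def DD (C : Pres → Prop) : ℕ → Pres → Prop
  | 0, p => C p
  | n + 1, p => C p ∨ ∃ (a : Pres) (L : List Pres), (∀ k ∈ L, FF C n k) ∧ Ab a ∧ BigD a L ∧
      Nonempty (PG p ≃* PG a × PL L)

/-- The presentations of groups in `C`, or free products with at least two factors which are
infinite cyclic or direct products of the level below. -/
def FF (C : Pres → Prop) : ℕ → Pres → Prop
  | 0, p => C p
  | n + 1, p => C p ∨ ∃ (s : ℕ) (L : List Pres), (∀ k ∈ L, DD C n k) ∧ 2 ≤ s + L.length ∧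
      Nonempty (PG p ≃* FLs s L)
end

/-- Direct normal form of level `n`. -/
def DForm (C : Pres → Prop) (n : ℕ) (p : Pres) : Prop :=
  ∃ (a : Pres) (L : List Pres), (∀ k ∈ L, FF C n k) ∧ Ab a ∧ Nonempty (PG p ≃* PG a × PL L)

/-- Free normal form of level `n`. -/
def FForm (C : Pres → Prop) (n : ℕ) (p : Pres) : Prop :=
  ∃ (s : ℕ) (L : List Pres), (∀ k ∈ L, DD C n k) ∧ Nonempty (PG p ≃* FLs s L)

theorem succ_mono (C : Pres → Prop) (n : ℕ) :
    (∀ p, DD C n p → DD C (n + 1) p) ∧ (∀ p, FF C n p → FF C (n + 1) p) := by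
  induction n with
  | zero => exact ⟨fun p hp => Or.inl hp, fun p hp => Or.inl hp⟩
  | succ n ih =>
    constructor
    · rintro p (hp | ⟨m, L, hL, h⟩)
      · exact Or.inl hp
      · exact Or.inr ⟨m, L, fun k hk => ih.2 k (hL k hk), h⟩
    · rintro p (hp | ⟨m, L, hL, h⟩)
      · exact Or.inl hp
      · exact Or.inr ⟨m, L, fun k hk => ih.1 k (hL k hk), h⟩

theorem mono (C : Pres → Prop) {n n' : ℕ} (h : n ≤ n') :
    (∀ p, DD C n p → DD C n' p) ∧ (∀ p, FF C n p → FF C n' p) := by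
  induction h with
  | refl => exact ⟨fun _ h => h, fun _ h => h⟩
  | step _ ih =>
    exact ⟨fun p hp => (succ_mono C _).1 p (ih.1 p hp), fun p hp => (succ_mono C _).2 p (ih.2 p hp)⟩

/-! ### Transfer along isomorphisms -/

section Transfer

variable {G H : Type} [Group G] [Group H]

theorem finCen_iso (e : G ≃* H) (h : FinCen G) : FinCen H := by
  refine Set.Finite.subset (h.image e) ?_
  intro z hz
  refine ⟨e.symm z, ?_, e.apply_symm_apply z⟩
  intro g
  apply e.injective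
  rw [map_mul, map_mul, e.apply_symm_apply]
  exact hz _

theorem nonAb_iso (e : G ≃* H) (h : NonAb G) : NonAb H := by
  obtain ⟨x, y, hxy⟩ := h
  refine ⟨e x, e y, fun h => hxy (e.injective ?_)⟩
  rw [map_mul, map_mul, h]

theorem dFac_iso (e : G ≃* H) (h : DFac G) : DFac H :=
  ⟨finCen_iso e h.1, nonAb_iso e h.2.1, indec_iso e h.2.2⟩

theorem iCyc_iso (e : G ≃* H) (h : ICyc G) : ICyc H := by
  obtain ⟨t, h1, h2⟩ := h
  refine ⟨e t, fun g => ?_, fun n hn h => h2 n hn ?_⟩
  · obtain ⟨n, hn⟩ := h1 (e.symm g)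
    refine ⟨n, ?_⟩
    rw [← map_zpow, hn, e.apply_symm_apply]
  · apply e.injective
    rw [map_pow, h, map_one]

theorem iCyc_int : ICyc (Multiplicative ℤ) := by
  refine ⟨Multiplicative.ofAdd 1, fun g => ⟨Multiplicative.toAdd g, ?_⟩, fun n hn h => hn ?_⟩
  · rw [← ofAdd_zsmul]
    simp
  · rw [← ofAdd_nsmul] at h
    have := congrArg Multiplicative.toAdd h
    simpa using this

theorem iCyc_iff : ICyc G ↔ Nonempty (G ≃* Multiplicative ℤ) := by
  constructor
  · rintro ⟨t, h1, h2⟩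
    refine ⟨MulEquiv.symm (MulEquiv.ofBijective (zpowersHom G t) ⟨?_, ?_⟩)⟩
    · rw [injective_iff_map_eq_one]
      intro n hn
      rw [zpowersHom_apply] at hn
      by_contra hne
      have h3 : Multiplicative.toAdd n ≠ 0 := fun h => hne (by
        apply Multiplicative.toAdd.injective
        rw [h]
        rfl)
      exact h2 _ (Int.natAbs_ne_zero.2 h3) (pow_natAbs_eq_one.2 hn)
    · intro g
      obtain ⟨n, hn⟩ := h1 g
      exact ⟨Multiplicative.ofAdd n, by rw [zpowersHom_apply]; exact hn⟩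
  · rintro ⟨e⟩
    exact iCyc_iso e.symm iCyc_int

theorem nonAb_of_centerless (h : Centerless G) (h2 : ∃ g : G, g ≠ 1) : NonAb G := by
  by_contra hc
  unfold NonAb at hc
  push Not at hc
  obtain ⟨g, hg⟩ := h2
  exact hg (h g (fun x => hc g x))

theorem not_iCyc_of_nonAb (h : NonAb G) : ¬ ICyc G := by
  rintro ⟨t, h1, -⟩
  obtain ⟨x, y, hxy⟩ := h
  apply hxy
  obtain ⟨m, rfl⟩ := h1 x
  obtain ⟨n, rfl⟩ := h1 y
  rw [← zpow_add, ← zpow_add, add_comm]

theorem nonAb_ne (h : NonAb G) : ∃ g : G, g ≠ 1 := by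
  obtain ⟨x, y, hxy⟩ := h
  refine ⟨x, fun hx => hxy ?_⟩
  rw [hx, one_mul, mul_one]

/-- free products of two nontrivial groups -/
theorem dFac_free {a : G} {b : H} (ha : a ≠ 1) (hb : b ≠ 1) : DFac (Coprod G H) := by
  have hc := FREE.centerless (A := G) (B := H) ha hb
  have hn : ∃ g : Coprod G H, g ≠ 1 := ⟨Coprod.inl a, FREE.inl_ne ha⟩
  refine ⟨?_, nonAb_of_centerless hc hn, FREE.indec ha hb⟩
  refine Set.Finite.subset (Set.finite_singleton (1 : Coprod G H)) ?_
  intro z hz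
  exact hc z hz

/-- direct products of two nontrivial groups -/
theorem findec_prod {a : G} {b : H} (ha : a ≠ 1) (hb : b ≠ 1) : FreelyIndec (G × H) := by
  refine ⟨⟨(a, 1), fun h1 => ha (congrArg Prod.fst h1)⟩, ?_⟩
  intro C D _ _ ⟨e⟩
  by_contra hcon
  rw [not_or] at hcon
  obtain ⟨h1, h2⟩ := hcon
  push Not at h1 h2
  obtain ⟨c, hc⟩ := h1
  obtain ⟨d, hd⟩ := h2
  rcases (FREE.indec (A := C) (B := D) hc hd).2 G H ⟨e.symm⟩ with h4 | h4
  · exact ha (h4 a)
  · exact hb (h4 b)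

theorem not_iCyc_prod {a : G} {b : H} (ha : a ≠ 1) (hb : b ≠ 1) : ¬ ICyc (G × H) := by
  rintro ⟨t, h1, h2⟩
  obtain ⟨m, hm⟩ := h1 (a, 1)
  obtain ⟨n, hn⟩ := h1 (1, b)
  have e1 : t ^ (m * n) = (a ^ n, 1) := by
    rw [zpow_mul, hm]
    exact Prod.ext rfl (one_zpow n)
  have e2 : t ^ (m * n) = (1, b ^ m) := by
    rw [mul_comm, zpow_mul, hn]
    exact Prod.ext (one_zpow m) rfl
  have e3 : t ^ (m * n) = 1 := Prod.ext (by rw [e2]; rfl) (by rw [e1]; rfl)
  have hm0 : m ≠ 0 := by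
    rintro rfl
    rw [zpow_zero] at hm
    exact ha (congrArg Prod.fst hm).symm
  have hn0 : n ≠ 0 := by
    rintro rfl
    rw [zpow_zero] at hn
    exact hb (congrArg Prod.snd hn).symm
  exact h2 _ (Int.natAbs_ne_zero.2 (mul_ne_zero hm0 hn0)) (pow_natAbs_eq_one.2 e3)

/-- nontrivial abelian groups -/
theorem findec_ab (h : ∀ x y : G, x * y = y * x) {a : G} (ha : a ≠ 1) : FreelyIndec G := by
  refine ⟨⟨a, ha⟩, ?_⟩
  intro C D _ _ ⟨e⟩
  by_contra hcon
  rw [not_or] at hcon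
  obtain ⟨h1, h2⟩ := hcon
  push Not at h1 h2
  obtain ⟨c, hc⟩ := h1
  obtain ⟨d, hd⟩ := h2
  obtain ⟨x, y, hxy⟩ := (dFac_free (G := C) (H := D) hc hd).2.1
  apply hxy
  apply e.symm.injective
  rw [map_mul, map_mul, h]

end Transfer

/-! ### Members -/

theorem split_FLs (s : ℕ) (L : List Pres) (hL : ∀ k ∈ L, ∃ g : PG k, g ≠ 1)
    (h : 2 ≤ s + L.length) : ∃ (A B : Type) (_ : Group A) (_ : Group B),
      (∃ a : A, a ≠ 1) ∧ (∃ b : B, b ≠ 1) ∧ Nonempty (FLs s L ≃* Coprod A B) := by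
  rcases L with _ | ⟨k, L⟩
  · obtain ⟨s, rfl⟩ : ∃ s', s = s' + 1 := ⟨s - 1, by simp at h; omega⟩
    obtain ⟨e⟩ := FLs_nil (s + 1)
    exact ⟨FreeGroup (Fin 1), FreeGroup (Fin s), inferInstance, inferInstance,
      nontriv_free 1 le_rfl, nontriv_free s (by simp at h; omega), ⟨e.trans (freeSucc s)⟩⟩
  · have hL' : ∀ k ∈ L, ∃ g : PG k, g ≠ 1 := fun k' hk' => hL k' (List.mem_cons_of_mem _ hk')
    exact ⟨PG k, FLs s L, inferInstance, inferInstance, hL k List.mem_cons_self,
      nontriv_FLs s L hL' (by simp at h ⊢; omega), ⟨consFLs s k L⟩⟩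

theorem dir_fac (a : Pres) (L : List Pres) (ha : Ab a) (hL : ∀ k ∈ L, ∃ g : PG k, g ≠ 1)
    (h : BigD a L) : FreelyIndec (PG a × PL L) ∧ ¬ ICyc (PG a × PL L) := by
  rcases h with ⟨rfl, h1, h2⟩ | ⟨h1, h2⟩ | h2
  · unfold Triv at h1
    push Not at h1
    obtain ⟨x, hx⟩ := h1
    have e : PG a × PL [] ≃* PG a := NF.prodTriv NF.pl0
    exact ⟨findec_iso e.symm (findec_ab ha hx), fun h => h2 (iCyc_iso e h)⟩
  · unfold Triv at h2
    push Not at h2
    obtain ⟨x, hx⟩ := h2
    rcases L with _ | ⟨k, L⟩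
    · exact absurd rfl h1
    · obtain ⟨y, hy⟩ := nontriv_PL k L (hL k List.mem_cons_self)
      exact ⟨findec_prod hx hy, not_iCyc_prod hx hy⟩
  · rcases L with _ | ⟨k, _ | ⟨k', L⟩⟩
    · simp at h2
    · simp at h2
    · obtain ⟨x, hx⟩ := hL k List.mem_cons_self
      obtain ⟨y, hy⟩ := nontriv_PL k' L (hL k' (List.mem_cons_of_mem _ List.mem_cons_self))
      have e : PG a × PL (k :: k' :: L) ≃* PG k × (PG a × PL (k' :: L)) :=
        ((MulEquiv.refl _).prodCongr (Red.consE k (k' :: L))).trans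
          ((MulEquiv.prodAssoc.symm.trans (MulEquiv.prodComm.prodCongr (MulEquiv.refl _))).trans
            MulEquiv.prodAssoc)
      have hy' : ((1, y) : PG a × PL (k' :: L)) ≠ 1 := fun h => hy (congrArg Prod.snd h)
      exact ⟨findec_iso e.symm (findec_prod hx hy'), fun h => not_iCyc_prod hx hy' (iCyc_iso e h)⟩

theorem members (C : Pres → Prop) (hC : ∀ k, C k → Base k) (n : ℕ) :
    (∀ p, DD C n p → FreelyIndec (PG p) ∧ ¬ ICyc (PG p)) ∧ (∀ p, FF C n p → DFac (PG p)) := by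
  have c1 : ∀ p, C p → FreelyIndec (PG p) ∧ ¬ ICyc (PG p) := fun p hp =>
    ⟨(hC p hp).2, not_iCyc_of_nonAb (hC p hp).1.2.1⟩
  induction n with
  | zero => exact ⟨c1, fun p hp => (hC p hp).1⟩
  | succ n ih =>
    constructor
    · rintro p (hp | ⟨a, L, hL, ha, hb, ⟨e⟩⟩)
      · exact c1 p hp
      · obtain ⟨h1, h2⟩ := dir_fac a L ha (fun k hk => nonAb_ne (ih.2 k (hL k hk)).2.1) hb
        exact ⟨findec_iso e.symm h1, fun h => h2 (iCyc_iso e h)⟩
    · rintro p (hp | ⟨s, L, hL, hs, ⟨e⟩⟩)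
      · exact (hC p hp).1
      · obtain ⟨A, B, iA, iB, ⟨a, ha⟩, ⟨b, hb⟩, ⟨f⟩⟩ := split_FLs s L
          (fun k hk => (ih.1 k (hL k hk)).1.1) hs
        exact dFac_iso (e.trans f).symm (dFac_free ha hb)

end Pool.Agent.U181.IP
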